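import Pool.Agent.U615.ZH.Lin4

/-! Exceptional values: Ingham's and Montgomery's form. -/

set_option autoImplicit false

namespace Pool.Agent.U615.ZH

open Filter Topology Complex MeasureTheory Set NumberField IsDedekindDomain
open Pool.Agent.N846.DU (VX LV Nv logRS RS GLFamily Rep LV_nonneg one_le_cond shift_cond' S_LEFT S_DIAG)
open Pool.Agent.N846.LM (Twists cond_shift S_CHI)
open Pool.Agent.N846.ZD (S_POW S_CONV S_BLOCK S_MOLL S_MB S_CVX S_TC S_TL one crit logpow)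
open Pool.Agent.N846.LV (S_LVD)
open Pool.Agent.N846.HU (S_DET S_PL)

/-- arbitrary families: both kinds of exceptional values, powers of `Q` only -/
theorem val3_ing (hPow : S_POW) (hConv : S_CONV) (hMo : S_MOLL) (hMb : S_MB) (hBl : S_BLOCK) (hL : S_LEFT)
    (hDi : S_DIAG) (hLvd : S_LVD) (hDet : S_DET) (hPl : S_PL) (hCvx : S_CVX) (hTc : S_TC) (hTl : S_TL) (hCh : S_CHI)
    (K : Type) [Field K] [NumberField K] (n N n' N' N'' k : ℕ) (hn : 1 ≤ n) (hk : 1 ≤ k) {ε σ : ℝ} (hε : 0 < ε)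
    (hσ : 1 / 2 < σ) (hσ1 : σ ≤ 1) :
    ∃ A : ℝ, 1 ≤ A ∧
    ∀ (ι : Type) (S : ι → Finset (HeightOneSpectrum (𝓞 K)))
      (α : ι → HeightOneSpectrum (𝓞 K) → Fin n → ℂ) (u : ι → VX K → ℂ) (q : ι → ι → ℝ) (κ : ι → ι → Fin N → ℂ)
      (S' : Finset (HeightOneSpectrum (𝓞 K))) (α' : HeightOneSpectrum (𝓞 K) → Fin n' → ℂ) (w : VX K → ℂ) (q' : ℝ)
      (κ' : Fin N'' → ℂ) (qs : ι → ℝ) (μ : ι → Fin N' → ℂ) (L : ι → ℂ → ℂ),
      GLFamily n N S α u q κ → Twists n' N' N'' u S' α' w q' κ' qs μ L →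
      ∀ (T : Set ι) (s : ι → ℂ) (C Q Q' : ℝ), 1 ≤ C → 1 ≤ Q → q' * ∏ j, (1 + ‖κ' j‖) ≤ Q' → A ≤ C * Q * Q' →
        C ^ ((k : ℝ) / 2) ≤ Q → (∀ f ∈ T, ∏ v ∈ S f, Nv v ≤ C * Q * Q') →
        (∀ f ∈ T, qs f * ∏ j, (1 + ‖μ f j + (s f).im * I‖) ≤ C) →
        (∀ f ∈ T, ∀ g ∈ T, q f g * ∏ j, (1 + ‖κ f g j + ((s f).im - (s g).im) * I‖) ≤ Q) →
        (∀ f ∈ T,
          (σ ≤ (s f).re ∧ ¬((C * Q * Q') ^ (-ε) ≤ ‖L f (s f)‖ ∧ ‖L f (s f)‖ ≤ (C * Q * Q') ^ ε)) ∨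
          (σ ≤ 3 / 4 ∧ 1 - σ ≤ (s f).re ∧ (s f).re ≤ σ ∧
            (C * Q * Q') ^ ε * C ^ ((σ - (s f).re) / 2) < ‖L f (s f)‖)) →
        T.Finite ∧ (T.ncard : ℝ) ≤ (C * Q * Q') ^ ε * Q ^ zexp k σ := by
  obtain ⟨A, hA1, hA⟩ := val3_both hPow hConv hMo hMb hBl hL hDi hLvd hDet hPl hCvx hTc hTl hCh K n N n' N' N'' k hn
    (ε := ε / 2) (σ := σ) (by positivity) hσ hσ1
  refine ⟨max A ((3 : ℝ) ^ (2 / ε)), hA1.trans (le_max_left _ _), ?_⟩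
  intro ι S α u q κ S' α' w q' κ' qs μ L h hT T s C Q Q' hC hQ hcQ' hAG hCQ hram hcC hcQ hbad
  have hAG1 : A ≤ C * Q * Q' := (le_max_left _ _).trans hAG
  have hAG2 : (3 : ℝ) ^ (2 / ε) ≤ C * Q * Q' := (le_max_right _ _).trans hAG
  have hC0 : 0 < C := by linarith
  have hQ0 : 0 < Q := by linarith
  have hQ'1 : 1 ≤ Q' := by
    have h2 := one_le_cond (κ := κ') hT.self.one_le 0
    simp only [add_zero] at h2
    linarith
  have hG1 : 1 ≤ C * Q * Q' := hA1.trans hAG1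
  have hG0 : 0 < C * Q * Q' := by linarith
  have h3 : 3 ≤ (C * Q * Q') ^ (ε / 2) := by
    have h4 : ((3 : ℝ) ^ (2 / ε)) ^ (ε / 2) ≤ (C * Q * Q') ^ (ε / 2) :=
      Real.rpow_le_rpow (by positivity) hAG2 (by positivity)
    rw [← Real.rpow_mul (by norm_num), show 2 / ε * (ε / 2) = 1 by field_simp, Real.rpow_one] at h4
    exact h4
  have hle : (C * Q * Q') ^ (ε / 2) ≤ (C * Q * Q') ^ ε := Real.rpow_le_rpow_of_exponent_le hG1 (by linarith)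
  have hge : (C * Q * Q') ^ (-ε) ≤ (C * Q * Q') ^ (-(ε / 2)) := Real.rpow_le_rpow_of_exponent_le hG1 (by linarith)
  have hQG : Q ≤ C * Q * Q' := by
    have h1 : Q ≤ C * Q := le_mul_of_one_le_left hQ0.le hC
    exact h1.trans (le_mul_of_one_le_right (by positivity) hQ'1)
  have hbad' : ∀ f ∈ T,
      (σ ≤ (s f).re ∧ ¬((C * Q * Q') ^ (-(ε / 2)) ≤ ‖L f (s f)‖ ∧ ‖L f (s f)‖ ≤ (C * Q * Q') ^ (ε / 2))) ∨
      (σ ≤ 3 / 4 ∧ 1 - σ ≤ (s f).re ∧ (s f).re ≤ σ ∧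
        (C * Q * Q') ^ (ε / 2) * C ^ ((σ - (s f).re) / 2) < ‖L f (s f)‖) := by
    intro f hf
    rcases hbad f hf with ⟨b1, b2⟩ | ⟨b1, b2, b3, b4⟩
    · exact Or.inl ⟨b1, fun hh => b2 ⟨hge.trans hh.1, hh.2.trans hle⟩⟩
    · exact Or.inr ⟨b1, b2, b3, lt_of_le_of_lt (mul_le_mul_of_nonneg_right hle (by positivity)) b4⟩
  -- the last step, for both exponents
  have hlast : ∀ (Y W e : ℝ), (W = Q ^ (2 - 2 * σ) * Y ^ ((2 - 2 * σ) * (2 * σ - 1)) ∨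
      (3 / 4 ≤ σ ∧ W = Q ^ ((2 - 2 * σ) / (4 * σ - 2)) * Y ^ (2 - 2 * σ))) → W = Q ^ e →
      Q * Y ^ (-(k * (2 * σ - 1))) = Q ^ e → 1 ≤ Y → Y ≤ Q →
      T.Finite ∧ (T.ncard : ℝ) ≤ (C * Q * Q') ^ ε * Q ^ e := by
    intro Y W e hW h1 h2 h5 h4
    obtain ⟨hfin, hmain⟩ := hA ι S α u q κ S' α' w q' κ' qs μ L h hT T s C Q Q' Y hC hQ hcQ' hAG1 h5
      (h4.trans hQG) hram hcC hcQ hbad' W hW
    refine ⟨hfin, hmain.trans ?_⟩
    have hY0 : 0 < Y := by linarith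
    have h6 : (C ^ ((k : ℝ) / 2) + Q) * Y ^ (-(k * (2 * σ - 1))) ≤ 2 * Q ^ e := by
      rw [← h2]
      have : 0 < Y ^ (-(k * (2 * σ - 1))) := by positivity
      nlinarith
    rw [h1]
    have p1 : 0 < Q ^ e := by positivity
    calc _ ≤ (C * Q * Q') ^ (ε / 2) * (3 * Q ^ e) := by
          refine mul_le_mul_of_nonneg_left ?_ (by positivity)
          linarith
      _ ≤ (C * Q * Q') ^ (ε / 2) * ((C * Q * Q') ^ (ε / 2) * Q ^ e) :=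
          mul_le_mul_of_nonneg_left (mul_le_mul_of_nonneg_right h3 p1.le) (by positivity)
      _ = (C * Q * Q') ^ (ε / 2 + ε / 2) * Q ^ e := by
          rw [Real.rpow_add hG0]
          ring
      _ = _ := by rw [add_halves]
  obtain ⟨i1, i2, i3, i4⟩ := ingham_exp k hk hσ1 hQ (Y := Q ^ (1 / (k + 2 - 2 * σ))) rfl
  have hI := hlast _ _ _ (Or.inl rfl) i1 i2 i3 i4
  rcases le_total σ (3 / 4) with h34 | h34
  · rw [zexp_left k hk hσ.le h34]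
    exact hI
  · obtain ⟨m1, m2, m3, m4⟩ := mont_exp k hk h34 hσ1 hQ
      (Y := Q ^ ((3 * σ - 2) / ((2 * σ - 1) * (2 - 2 * σ + k * (2 * σ - 1))))) rfl
    have hMo := hlast _ _ _ (Or.inr ⟨h34, rfl⟩) m1 m2 m3 m4
    refine ⟨hI.1, ?_⟩
    unfold zexp
    rcases min_cases (2 * (k + 1) / (k + 2 - 2 * σ)) ((k + 2) / (2 - 2 * σ + k * (2 * σ - 1))) with ⟨hm, -⟩ | ⟨hm, -⟩
    · rw [hm, div_mul_eq_mul_div]
      exact hI.2
    · rw [hm, div_mul_eq_mul_div]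
      exact hMo.2

end Pool.Agent.U615.ZH
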