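import Pool.Agent.U615.ZH.Lin5
import Pool.Agent.U615.ZH.Lin6
import Pool.Agent.N846.ZD.Main2
import Pool.Agent.N846.HU.Main

/-! All parts together. -/

set_option autoImplicit false

namespace Pool.Agent.U615.ZH

open Complex NumberField IsDedekindDomain
open Pool.Agent.N846.DU (GLFamily VX Nv)
open Pool.Agent.N846.LM (Twists)

theorem all (K : Type) [Field K] [NumberField K] (n N n' N' N'' : ℕ) (hn : 1 ≤ n) {ε σ : ℝ} (hε : 0 < ε)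
    (hσ : 1 / 2 < σ) (hσ1 : σ ≤ 1) (k : ℕ) :
    ∃ A : ℝ, 1 ≤ A ∧
      ∀ (ι : Type) (S : ι → Finset (HeightOneSpectrum (𝓞 K)))
        (α : ι → HeightOneSpectrum (𝓞 K) → Fin n → ℂ) (u : ι → VX K → ℂ) (q : ι → ι → ℝ) (κ : ι → ι → Fin N → ℂ)
        (S' : Finset (HeightOneSpectrum (𝓞 K))) (α' : HeightOneSpectrum (𝓞 K) → Fin n' → ℂ) (w : VX K → ℂ) (q' : ℝ)
        (κ' : Fin N'' → ℂ) (qs : ι → ℝ) (μ : ι → Fin N' → ℂ) (L : ι → ℂ → ℂ),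
        GLFamily n N S α u q κ → Twists n' N' N'' u S' α' w q' κ' qs μ L →
        ∀ (T : Set ι) (s : ι → ℂ) (C Q Q' Y : ℝ), 1 ≤ C → 1 ≤ Q → q' * ∏ j, (1 + ‖κ' j‖) ≤ Q' → A ≤ C * Q * Q' →
          1 ≤ Y → Y ≤ C * Q * Q' → (∀ f ∈ T, ∏ v ∈ S f, Nv v ≤ C * Q * Q') →
          (∀ f ∈ T, qs f * ∏ j, (1 + ‖μ f j + (s f).im * I‖) ≤ C) →
          (∀ f ∈ T, ∀ g ∈ T, q f g * ∏ j, (1 + ‖κ f g j + ((s f).im - (s g).im) * I‖) ≤ Q) →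
          (∀ f ∈ T,
            (σ ≤ (s f).re ∧ ¬((C * Q * Q') ^ (-ε) ≤ ‖L f (s f)‖ ∧ ‖L f (s f)‖ ≤ (C * Q * Q') ^ ε)) ∨
            (σ ≤ 3 / 4 ∧ 1 - σ ≤ (s f).re ∧ (s f).re ≤ σ ∧
              (C * Q * Q') ^ ε * C ^ ((σ - (s f).re) / 2) < ‖L f (s f)‖)) →
          ∀ W : ℝ, (W = Q ^ (2 - 2 * σ) * Y ^ ((2 - 2 * σ) * (2 * σ - 1)) ∨
            (3 / 4 ≤ σ ∧ W = Q ^ ((2 - 2 * σ) / (4 * σ - 2)) * Y ^ (2 - 2 * σ))) →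
          T.Finite ∧ (T.ncard : ℝ) ≤ (C * Q * Q') ^ ε *
            (W + (C ^ ((k : ℝ) / 2) + Q) * Y ^ (-(k * (2 * σ - 1)))) :=
  val3_both Pool.Agent.N846.ZD.pow Pool.Agent.N846.ZD.conv Pool.Agent.N846.ZD.moll Pool.Agent.N846.ZD.mb
    Pool.Agent.N846.ZD.blockS Pool.Agent.N846.ZD.lft Pool.Agent.N846.ZD.dia Pool.Agent.N846.HU.lva
    Pool.Agent.N846.HU.det Pool.Agent.N846.HU.pl Pool.Agent.N846.ZD.cvx Pool.Agent.N846.ZD.tc Pool.Agent.N846.ZD.tl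
    Pool.Agent.N846.ZD.chh K n N n' N' N'' k hn hε hσ hσ1

theorem ing (K : Type) [Field K] [NumberField K] (n N n' N' N'' : ℕ) (hn : 1 ≤ n) {ε σ : ℝ} (hε : 0 < ε)
    (hσ : 1 / 2 < σ) (hσ1 : σ ≤ 1) (k : ℕ) (hk : 1 ≤ k) :
    ∃ A : ℝ, 1 ≤ A ∧
      ∀ (ι : Type) (S : ι → Finset (HeightOneSpectrum (𝓞 K)))
        (α : ι → HeightOneSpectrum (𝓞 K) → Fin n → ℂ) (u : ι → VX K → ℂ) (q : ι → ι → ℝ) (κ : ι → ι → Fin N → ℂ)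
        (S' : Finset (HeightOneSpectrum (𝓞 K))) (α' : HeightOneSpectrum (𝓞 K) → Fin n' → ℂ) (w : VX K → ℂ) (q' : ℝ)
        (κ' : Fin N'' → ℂ) (qs : ι → ℝ) (μ : ι → Fin N' → ℂ) (L : ι → ℂ → ℂ),
        GLFamily n N S α u q κ → Twists n' N' N'' u S' α' w q' κ' qs μ L →
        ∀ (T : Set ι) (s : ι → ℂ) (C Q Q' : ℝ), 1 ≤ C → 1 ≤ Q → q' * ∏ j, (1 + ‖κ' j‖) ≤ Q' → A ≤ C * Q * Q' →
          C ^ ((k : ℝ) / 2) ≤ Q → (∀ f ∈ T, ∏ v ∈ S f, Nv v ≤ C * Q * Q') →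
          (∀ f ∈ T, qs f * ∏ j, (1 + ‖μ f j + (s f).im * I‖) ≤ C) →
          (∀ f ∈ T, ∀ g ∈ T, q f g * ∏ j, (1 + ‖κ f g j + ((s f).im - (s g).im) * I‖) ≤ Q) →
          (∀ f ∈ T,
            (σ ≤ (s f).re ∧ ¬((C * Q * Q') ^ (-ε) ≤ ‖L f (s f)‖ ∧ ‖L f (s f)‖ ≤ (C * Q * Q') ^ ε)) ∨
            (σ ≤ 3 / 4 ∧ 1 - σ ≤ (s f).re ∧ (s f).re ≤ σ ∧
              (C * Q * Q') ^ ε * C ^ ((σ - (s f).re) / 2) < ‖L f (s f)‖)) →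
          T.Finite ∧ (T.ncard : ℝ) ≤ (C * Q * Q') ^ ε * Q ^ zexp k σ :=
  val3_ing Pool.Agent.N846.ZD.pow Pool.Agent.N846.ZD.conv Pool.Agent.N846.ZD.moll Pool.Agent.N846.ZD.mb
    Pool.Agent.N846.ZD.blockS Pool.Agent.N846.ZD.lft Pool.Agent.N846.ZD.dia Pool.Agent.N846.HU.lva
    Pool.Agent.N846.HU.det Pool.Agent.N846.HU.pl Pool.Agent.N846.ZD.cvx Pool.Agent.N846.ZD.tc Pool.Agent.N846.ZD.tl
    Pool.Agent.N846.ZD.chh K n N n' N' N'' k hn hk hε hσ hσ1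

theorem univ (K : Type) [Field K] [NumberField K] (n N n' N' N'' : ℕ) (hn : 1 ≤ n) {ε σ : ℝ} (hε : 0 < ε)
    (hσ : 1 / 2 < σ) (hσ1 : σ ≤ 1) (B Q' : ℝ) (hB : 1 ≤ B) (hQ' : 1 ≤ Q') :
    ∃ A c : ℝ, 1 ≤ A ∧ 0 < c ∧
      ∀ (ι : Type) (S : ι → Finset (HeightOneSpectrum (𝓞 K)))
        (α : ι → HeightOneSpectrum (𝓞 K) → Fin n → ℂ) (u : ι → VX K → ℂ) (q : ι → ι → ℝ) (κ : ι → ι → Fin N → ℂ)
        (S' : Finset (HeightOneSpectrum (𝓞 K))) (α' : HeightOneSpectrum (𝓞 K) → Fin n' → ℂ) (w : VX K → ℂ) (q' : ℝ)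
        (κ' : Fin N'' → ℂ) (qs : ι → ℝ) (μ : ι → Fin N' → ℂ) (L : ι → ℂ → ℂ) (C : ι → ℝ),
        GLFamily n N S α u q κ → Twists n' N' N'' u S' α' w q' κ' qs μ L → q' * ∏ j, (1 + ‖κ' j‖) ≤ Q' →
        (∀ f, qs f * ∏ j, (1 + ‖μ f j‖) ≤ C f) → (∀ f, ∏ v ∈ S f, Nv v ≤ C f) →
        (∀ f g, q f g * ∏ j, (1 + ‖κ f g j‖) ≤ B * (C f * C g) ^ n) →
        ∀ X : ℝ, A ≤ X → ∃ E : Set ι, E.Finite ∧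
          (E.ncard : ℝ) ≤ X ^ (2 * n * zexp (4 * n) σ + ε) ∧
          ∀ f, C f ≤ X → f ∉ E → ∀ s : ℂ, |s.im| ≤ X ^ c →
            (σ ≤ s.re → X ^ (-ε) ≤ ‖L f s‖ ∧ ‖L f s‖ ≤ X ^ ε) ∧
            (σ ≤ 3 / 4 → 1 - σ ≤ s.re → s.re ≤ σ → ‖L f s‖ ≤ X ^ ((σ - s.re) / 2 + ε)) :=
  val3_univ Pool.Agent.N846.ZD.pow Pool.Agent.N846.ZD.conv Pool.Agent.N846.ZD.moll Pool.Agent.N846.ZD.mb
    Pool.Agent.N846.ZD.blockS Pool.Agent.N846.ZD.lft Pool.Agent.N846.ZD.dia Pool.Agent.N846.HU.lva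
    Pool.Agent.N846.HU.det Pool.Agent.N846.HU.pl Pool.Agent.N846.ZD.cvx Pool.Agent.N846.ZD.tc Pool.Agent.N846.ZD.tl
    Pool.Agent.N846.ZD.chh K n N n' N' N'' hn hε hσ hσ1 B Q' hB hQ'

end Pool.Agent.U615.ZH
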