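import Mathlib

/-! Real inequalities for one block, with multipliers, in the half plane `Re s ≥ σ`. -/

set_option autoImplicit false

namespace Pool.Agent.U615.ZH

/-- the inequality for one class -/
theorem real_block3 {R V Cb σ₀ σ c η M LQ h : ℝ} {j a J : ℕ} (hR : 0 ≤ R)
    (hV : Real.exp (-(η * M * j) - (σ - 1 / 2 + c) * h) ≤ V)
    (hCb : Cb ≤ Real.exp (η * M)) (h8 : 8 ≤ Real.exp (η * M))
    (h2 : (3 + 20 * J ^ 2) * (η * M) + 2 * (η * M * j) + (1 / 2 + σ₀) * LQ - (σ₀ + 2 * σ - 1 - 2 * c) * a +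
      (2 * σ - 1 + 2 * c) * h ≤ -(η * M))
    (hm : R * V ^ 2 ≤ Cb * (Real.exp (2 * η * M) * Real.exp ((1 + c) * a) +
      R * Real.exp ((1 / 2 + σ₀) * LQ + 2 * η * M) * Real.exp (-(σ₀ * a))) *
      (Real.exp ((1 - 2 * σ + 2 * c) * a) * Real.exp (5 * η * M) ^ (4 * J ^ 2))) :
    R ≤ 2 * Real.exp ((3 + 20 * J ^ 2) * (η * M) + 2 * (η * M * j) + (2 - 2 * σ + 3 * c) * a +
      (2 * σ - 1 + 2 * c) * h) := by
  obtain ⟨l, hl⟩ : ∃ l : ℝ, l = -(2 * (η * M * j)) - (2 * σ - 1 + 2 * c) * h := ⟨_, rfl⟩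
  have hV2 : Real.exp l ≤ V ^ 2 := by
    have h3 := pow_le_pow_left₀ (Real.exp_pos _).le hV 2
    rw [← Real.exp_nat_mul] at h3
    refine le_trans (le_of_eq ?_) h3
    rw [hl]
    congr 1
    push_cast
    ring
  have hVR : R * Real.exp l ≤ R * V ^ 2 := mul_le_mul_of_nonneg_left hV2 hR
  obtain ⟨E1, hE1⟩ : ∃ x, x = Real.exp ((3 + 20 * J ^ 2) * (η * M) + 2 * (η * M * j) + (2 - 2 * σ + 3 * c) * a +
      (2 * σ - 1 + 2 * c) * h) := ⟨_, rfl⟩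
  obtain ⟨E2, hE2⟩ : ∃ x, x = Real.exp ((3 + 20 * J ^ 2) * (η * M) + 2 * (η * M * j) + (1 / 2 + σ₀) * LQ -
      (σ₀ + 2 * σ - 1 - 2 * c) * a + (2 * σ - 1 + 2 * c) * h) := ⟨_, rfl⟩
  have hpow : Real.exp (5 * η * M) ^ (4 * J ^ 2) = Real.exp (20 * η * J ^ 2 * M) := by
    rw [← Real.exp_nat_mul]
    congr 1
    push_cast
    ring
  rw [hpow] at hm
  have hbig : R * V ^ 2 ≤ Real.exp l * (E1 + R * E2) := by
    refine hm.trans ?_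
    calc _ ≤ Real.exp (η * M) * (Real.exp (2 * η * M) * Real.exp ((1 + c) * a) +
          R * Real.exp ((1 / 2 + σ₀) * LQ + 2 * η * M) * Real.exp (-(σ₀ * a))) *
          (Real.exp ((1 - 2 * σ + 2 * c) * a) * Real.exp (20 * η * J ^ 2 * M)) := by
          refine mul_le_mul_of_nonneg_right (mul_le_mul_of_nonneg_right hCb (by positivity)) (by positivity)
      _ = Real.exp (η * M) * Real.exp (2 * η * M) * Real.exp ((1 + c) * a) *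
            Real.exp ((1 - 2 * σ + 2 * c) * a) * Real.exp (20 * η * J ^ 2 * M) +
          R * (Real.exp (η * M) * Real.exp ((1 / 2 + σ₀) * LQ + 2 * η * M) * Real.exp (-(σ₀ * a)) *
            Real.exp ((1 - 2 * σ + 2 * c) * a) * Real.exp (20 * η * J ^ 2 * M)) := by ring
      _ = Real.exp l * E1 + R * (Real.exp l * E2) := by
          rw [hE1, hE2, hl, ← Real.exp_add, ← Real.exp_add, ← Real.exp_add, ← Real.exp_add, ← Real.exp_add,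
            ← Real.exp_add, ← Real.exp_add, ← Real.exp_add, ← Real.exp_add, ← Real.exp_add]
          congr 2
          · ring
          · congr 1
            ring
      _ = _ := by ring
  have h3 : Real.exp l * R ≤ Real.exp l * (E1 + R * E2) := by
    rw [mul_comm]
    exact hVR.trans hbig
  have h4 := le_of_mul_le_mul_left h3 (Real.exp_pos _)
  have h5 : E2 ≤ 1 / 2 := by
    have h6 : E2 ≤ Real.exp (-(η * M)) := by rw [hE2]; exact Real.exp_le_exp.2 h2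
    rw [Real.exp_neg] at h6
    have h7 : (Real.exp (η * M))⁻¹ ≤ 8⁻¹ := inv_anti₀ (by norm_num) h8
    norm_num at h7 ⊢
    linarith
  have h6 : R * E2 ≤ R * (1 / 2) := mul_le_mul_of_nonneg_left h5 hR
  rw [← hE1]
  linarith

/-- the condition of absorption -/
theorem absorb3 {σ₀ σ c θ η M LQ h a jr : ℝ} {j J : ℕ} (hσ : 1 / 2 ≤ σ) (hσ1 : σ ≤ 1) (hc : 0 < c)
    (hc1 : c ≤ 1 / 16) (h5 : 5 ≤ (σ₀ - 2 * c) * θ) (hM : 1 ≤ M) (hθ : 0 < θ) (hη : 0 ≤ η)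
    (hηJ : η * (20 * J ^ 2 + 2 * J + 20) ≤ 1) (hj : j ≤ J) (hLQ : 0 ≤ LQ) (hLQM : LQ ≤ M) (hh0 : 0 ≤ h)
    (hh4 : h ≤ 4 * M) (hjr : 0 ≤ jr) (ha : jr + h < a + 1) (hH : LQ + θ * M + 1 ≤ jr + h) :
    (3 + 20 * J ^ 2) * (η * M) + 2 * (η * M * j) + (1 / 2 + σ₀) * LQ - (σ₀ + 2 * σ - 1 - 2 * c) * a +
      (2 * σ - 1 + 2 * c) * h ≤ -(η * M) := by
  have hθM : 0 < θ * M := by positivity
  have ha1 : LQ + θ * M ≤ a := by linarith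
  have ha0 : 0 ≤ a := by linarith
  have hs0 : 0 ≤ σ₀ - 2 * c := by
    by_contra hneg
    push Not at hneg
    have : (σ₀ - 2 * c) * θ < 0 := mul_neg_of_neg_of_pos hneg hθ
    linarith
  have e1 : (σ₀ - 2 * c) * (LQ + θ * M) ≤ (σ₀ - 2 * c) * a := mul_le_mul_of_nonneg_left ha1 hs0
  have e2 : 5 * M ≤ (σ₀ - 2 * c) * θ * M := mul_le_mul_of_nonneg_right h5 (by linarith)
  have e3 : (2 * σ - 1) * (h - a) ≤ (2 * σ - 1) * 1 := mul_le_mul_of_nonneg_left (by linarith) (by linarith)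
  have e4 : c * h ≤ 1 / 16 * (4 * M) := mul_le_mul hc1 hh4 hh0 (by norm_num)
  have e5 : c * LQ ≤ 1 / 16 * M := mul_le_mul hc1 hLQM hLQ (by norm_num)
  have hηM : 0 ≤ η * M := by positivity
  have e6 : η * M * j ≤ η * M * J := mul_le_mul_of_nonneg_left (by exact_mod_cast hj) hηM
  have e7 : η * (20 * J ^ 2 + 2 * J + 20) * M ≤ 1 * M := mul_le_mul_of_nonneg_right hηJ (by linarith)
  have e8 : (3 + 20 * J ^ 2) * (η * M) + 2 * (η * M * j) + η * M ≤ M := by nlinarith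
  nlinarith

/-- the exponent of one class -/
theorem expo3 {σ c θ η M LQ h o ε jr a : ℝ} {j J : ℕ} (hσ : 1 / 2 ≤ σ) (hσ1 : σ ≤ 1) (hc : 0 ≤ c)
    (hM : 1 ≤ M) (hη : 0 ≤ η) (hηJ : η * (20 * J ^ 2 + 2 * J + 20) ≤ ε / 16) (hj : j ≤ J) (hh0 : 0 ≤ h)
    (hh4 : h ≤ 4 * M) (hjr : 0 ≤ jr) (hjr12 : jr ≤ 12 * M) (ha : a ≤ jr + h) (hcθ : 60 * c ≤ θ)
    (hθ : 16 * θ ≤ ε) (ho : o ≤ θ * M) (ho0 : 0 ≤ o) (h1M : 16 ≤ ε * M)
    (hH2 : jr + h ≤ max jr (LQ + θ * M + 1) + o) :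
    η * M + ((3 + 20 * J ^ 2) * (η * M) + 2 * (η * M * j) + (2 - 2 * σ + 3 * c) * a + (2 * σ - 1 + 2 * c) * h) ≤
      ε * M + max jr LQ - (2 * σ - 1) * jr := by
  have hηM : 0 ≤ η * M := by positivity
  have e6 : η * M * j ≤ η * M * J := mul_le_mul_of_nonneg_left (by exact_mod_cast hj) hηM
  have e7 : η * (20 * J ^ 2 + 2 * J + 20) * M ≤ ε / 16 * M := mul_le_mul_of_nonneg_right hηJ (by linarith)
  have e8 : (3 + 20 * J ^ 2) * (η * M) + 2 * (η * M * j) + η * M ≤ ε / 16 * M := by nlinarith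
  have e1 : (2 - 2 * σ + 3 * c) * a ≤ (2 - 2 * σ + 3 * c) * (jr + h) :=
    mul_le_mul_of_nonneg_left ha (by linarith)
  have e2 : c * (jr + h) ≤ c * (16 * M) := mul_le_mul_of_nonneg_left (by linarith) hc
  have e3 : c * h ≤ c * (4 * M) := mul_le_mul_of_nonneg_left hh4 hc
  have e4 : 60 * c * M ≤ θ * M := mul_le_mul_of_nonneg_right hcθ (by linarith)
  have e5 : 16 * θ * M ≤ ε * M := mul_le_mul_of_nonneg_right hθ (by linarith)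
  have e9 : max jr (LQ + θ * M + 1) ≤ max jr LQ + θ * M + 1 := by
    refine max_le ?_ ?_
    · have := le_max_left jr LQ
      linarith
    · have := le_max_right jr LQ
      linarith
  have e10 : (2 - 2 * σ) * (jr + h) + (2 * σ - 1) * h = (jr + h) - (2 * σ - 1) * jr := by ring
  nlinarith

/-- the convex combination of two powers -/
theorem comb3 {σ σ' LQ r E : ℝ} {j : ℕ} (hσ : 1 / 2 ≤ σ) (hσ1 : σ ≤ 1) (hσ' : σ ≤ σ') (hr : 0 ≤ r)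
    (hj1 : 1 ≤ j) (hj2 : LQ ≤ j * r) (hj3 : ((j - 1 : ℕ) : ℝ) * r ≤ LQ) {R : ℝ}
    (h1 : R ≤ E + max ((j : ℝ) * r) LQ - (2 * σ' - 1) * (j * r))
    (h2 : R ≤ E + max (((j - 1 : ℕ) : ℝ) * r) LQ - (2 * σ' - 1) * (((j - 1 : ℕ) : ℝ) * r)) :
    R ≤ E + (2 - 2 * σ) * (LQ + (2 * σ - 1) * r) := by
  have hjc : ((j - 1 : ℕ) : ℝ) = (j : ℝ) - 1 := by
    rw [Nat.cast_sub hj1, Nat.cast_one]
  rw [max_eq_left hj2] at h1
  rw [max_eq_right hj3, hjc] at h2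
  rw [hjc] at hj3
  have hj0 : (1 : ℝ) ≤ j := by exact_mod_cast hj1
  have e1 : (2 * σ - 1) * (j * r) ≤ (2 * σ' - 1) * (j * r) :=
    mul_le_mul_of_nonneg_right (by linarith) (by positivity)
  have e2 : (2 * σ - 1) * (((j : ℝ) - 1) * r) ≤ (2 * σ' - 1) * (((j : ℝ) - 1) * r) :=
    mul_le_mul_of_nonneg_right (by linarith) (mul_nonneg (by linarith) hr)
  have f1 : R ≤ E + (j : ℝ) * r - (2 * σ - 1) * (j * r) := by linarith
  have f2 : R ≤ E + LQ - (2 * σ - 1) * (((j : ℝ) - 1) * r) := by linarith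
  have g1 := mul_le_mul_of_nonneg_left f1 (by linarith : (0 : ℝ) ≤ 2 * σ - 1)
  have g2 := mul_le_mul_of_nonneg_left f2 (by linarith : (0 : ℝ) ≤ 2 - 2 * σ)
  nlinarith

/-- the parameters depending on `ε` -/
theorem params3 {ε : ℝ} (hε : 0 < ε) (n d J₀ : ℕ) (hn : 1 ≤ n) (hd : 1 ≤ d) :
    ∃ (θ c δ η : ℝ) (m J : ℕ), 0 < θ ∧ 16 * θ ≤ 1 ∧ 16 * θ ≤ ε ∧ 0 < c ∧ c ≤ 1 / 16 ∧ 60 * c ≤ θ ∧
      0 < δ ∧ 2 * n * d * δ = θ ∧ 9 ≤ m * δ ∧ J = J₀ + 1 + m ∧ 0 < η ∧ η * (20 * J ^ 2 + 2 * J + 20) ≤ 1 ∧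
      η * (20 * J ^ 2 + 2 * J + 20) ≤ ε / 16 := by
  have hn0 : (0 : ℝ) < n := by exact_mod_cast hn
  have hd0 : (0 : ℝ) < d := by exact_mod_cast hd
  obtain ⟨θ, hθ⟩ : ∃ θ : ℝ, θ = min 1 ε / 16 := ⟨_, rfl⟩
  have hθ0 : 0 < θ := by rw [hθ]; positivity
  have hθ1 : 16 * θ ≤ 1 := by rw [hθ]; linarith [min_le_left 1 ε]
  have hθ2 : 16 * θ ≤ ε := by rw [hθ]; linarith [min_le_right 1 ε]
  obtain ⟨δ, hδ⟩ : ∃ δ : ℝ, δ = θ / (2 * n * d) := ⟨_, rfl⟩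
  have hδ0 : 0 < δ := by rw [hδ]; positivity
  have hδ1 : 2 * n * d * δ = θ := by rw [hδ]; field_simp
  obtain ⟨m, hm⟩ : ∃ m : ℕ, 9 / δ ≤ m := ⟨⌈9 / δ⌉₊, Nat.le_ceil _⟩
  have hm1 : 9 ≤ m * δ := by
    rw [div_le_iff₀ hδ0] at hm
    exact hm
  obtain ⟨η, hη⟩ : ∃ η : ℝ, η = θ / (20 * ((J₀ + 1 + m : ℕ) : ℝ) ^ 2 + 2 * ((J₀ + 1 + m : ℕ) : ℝ) + 20) :=
    ⟨_, rfl⟩
  have hη1 : η * (20 * ((J₀ + 1 + m : ℕ) : ℝ) ^ 2 + 2 * ((J₀ + 1 + m : ℕ) : ℝ) + 20) = θ := by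
    rw [hη]
    field_simp
  refine ⟨θ, θ / 60, δ, η, m, J₀ + 1 + m, hθ0, hθ1, hθ2, by positivity, by linarith, by linarith, hδ0, hδ1, hm1,
    rfl, by rw [hη]; positivity, by rw [hη1]; linarith, by rw [hη1]; linarith⟩

end Pool.Agent.U615.ZH
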