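import Pool.Agent.N846.HU.Mult
import Pool.Agent.U615.ZH.Real

/-! One class: a power of a block times a multiplier, in the half plane `Re s ≥ σ`. -/

set_option autoImplicit false

namespace Pool.Agent.U615.ZH

open Filter Topology Complex MeasureTheory Set NumberField IsDedekindDomain
open Pool.Agent.TH949.LT (TT Lam VV VV_nonneg VV_le)
open Pool.Agent.N846.DT (PairF co Uc co_abs summ_mono' summ_cs Lam_nonneg half_exp)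
open Pool.Agent.N846.DU (VX LV Nv Rep LV_nonneg)
open Pool.Agent.N846.ZD (Ph Maj Supp S_POW S_CONV S_BLOCK cut_summ)
open Pool.Agent.N846.HU (S_DET S_PL mult wV wV_sum dv_le_wV w_le_wV maj_mono)

theorem one_class3 (hPow : S_POW) (hConv : S_CONV) (hDet : S_DET) {K : Type} [Field K] [NumberField K] {n : ℕ}
    {σ₀ c η θ ε : ℝ} {j J : ℕ} {Cb A₀ : ℝ}
    (hc0 : 0 < c) (hc1 : c ≤ 1 / 16) (h5 : 5 ≤ (σ₀ - 2 * c) * θ) (hθ : 0 < θ) (hη : 0 ≤ η)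
    (hηJ1 : η * (20 * J ^ 2 + 2 * J + 20) ≤ 1) (hηJ2 : η * (20 * J ^ 2 + 2 * J + 20) ≤ ε / 16)
    (hcθ : 60 * c ≤ θ) (hθε : 16 * θ ≤ ε)
    (hBlk : ∀ (X ι : Type) [Countable X] [Fintype ι] (u : ι → X → ℂ) (L : X → ℝ) (s : ι → ℂ) (F : ι → ι → ℂ → ℂ)
      (w : X → ℂ) (k : ℕ) (b : TT X → ℂ) (a r : ℕ) (σ D D' B V : ℝ), (∀ x, 0 ≤ L x) → 1 / 2 ≤ σ →
      (∀ f, σ ≤ (s f).re) → (∀ f, (s f).re ≤ 1) →
      (∀ f, Summable fun x => ‖u f x‖ ^ 2 * Real.exp (-((1 + c) * L x))) →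
      (∀ f, Real.exp (∑' x, ‖u f x‖ ^ 2 * Real.exp (-((1 + c) * L x))) ≤ D) →
      (Summable fun x => ‖w x‖ ^ 2 * Real.exp (-((1 + 2 * c) * L x))) →
      Real.exp (∑' x, ‖w x‖ ^ 2 * Real.exp (-((1 + 2 * c) * L x))) ≤ D' →
      (∀ f g, f ≠ g → PairF (u f) (u g) L (F f g)) → 0 ≤ B →
      (∀ f g, f ≠ g → ∀ v : ℝ, ‖F f g (((-σ₀ : ℝ) : ℂ) + (((s f).im - (s g).im) + v : ℝ) * I)‖ ≤
        B * (1 + |v|) ^ A₀) →
      Maj w k b → k ≤ 2 * J → Supp L b a (a + r) → r ≤ J → 0 ≤ V → 0 ≤ D → (∀ f, V ≤ ‖Ph L b (u f) (s f)‖) →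
      Fintype.card ι * V ^ 2 ≤ Cb * (D * Real.exp ((1 + c) * a) + Fintype.card ι * B * Real.exp (-(σ₀ * a))) *
        (Real.exp ((1 - 2 * σ + 2 * c) * a) * D' ^ (4 * J ^ 2)))
    {ι : Type} [Fintype ι] {S : ι → Finset (HeightOneSpectrum (𝓞 K))}
    {α : ι → HeightOneSpectrum (𝓞 K) → Fin n → ℂ} {u : ι → VX K → ℂ} {s : ι → ℂ} {F : ι → ι → ℂ → ℂ}
    {w : VX K → ℂ} {b : TT (VX K) → ℂ} {M LQ o h σ : ℝ} {r : ℕ} {V U : Finset (HeightOneSpectrum (𝓞 K))}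
    (hUV : U ⊆ V) (hrep : ∀ f, Rep n (S f) (α f) (u f)) (hUS : ∀ f, ∀ v ∈ U, v ∉ S f)
    (hh : h = n * ∑ v ∈ U, Real.log (Nv v)) (hh0 : 0 ≤ h) (hh4 : h ≤ 4 * M)
    (hM : 1 ≤ M) (hεM : 16 ≤ ε * M) (hLQ : 0 ≤ LQ) (hLQM : LQ ≤ M) (hσ : 1 / 2 ≤ σ) (hσ1 : σ ≤ 1)
    (hs1 : ∀ f, σ ≤ (s f).re) (hs2 : ∀ f, (s f).re ≤ σ + c) (hs3 : ∀ f, (s f).re ≤ 1)
    (hsu : ∀ f, Summable fun x => ‖u f x‖ ^ 2 * Real.exp (-((1 + c) * LV x)))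
    (hD : ∀ f, Real.exp (∑' x, ‖u f x‖ ^ 2 * Real.exp (-((1 + c) * LV x))) ≤ Real.exp (2 * η * M))
    (hsw : Summable fun x => ‖w x‖ ^ 2 * Real.exp (-((1 + 2 * c) * LV x)))
    (hD' : Real.exp (∑' x, ‖w x‖ ^ 2 * Real.exp (-((1 + 2 * c) * LV x))) ≤ Real.exp (2 * η * M))
    (hVn : 2 * ((V.card : ℝ) * n) ≤ η * M)
    (hsuw : ∀ f, Summable fun z => ‖u f z‖ * ‖w z‖ * Real.exp (-((1 + c) * LV z)))
    (hF : ∀ f g, f ≠ g → PairF (u f) (u g) LV (F f g))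
    (hFb : ∀ f g, f ≠ g → ∀ v : ℝ, ‖F f g (((-σ₀ : ℝ) : ℂ) + (((s f).im - (s g).im) + v : ℝ) * I)‖ ≤
        Real.exp ((1 / 2 + σ₀) * LQ + 2 * η * M) * (1 + |v|) ^ A₀)
    (hCbM : Cb ≤ Real.exp (η * M)) (h8 : 8 ≤ Real.exp (η * M))
    (hjJ : j + 1 ≤ J) (hVJ : 2 * j + V.card ≤ 2 * J)
    (hb : Maj w 2 b) (hS : Supp LV b r (r + 1))
    (hlarge : ∀ f, Real.exp (-(η * M)) ≤ ‖Ph LV b (u f) (s f)‖)
    (hjr12 : (j : ℝ) * r ≤ 12 * M) (ho0 : 0 ≤ o) (ho : o ≤ θ * M)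
    (hH1 : LQ + θ * M + 1 ≤ j * r + h) (hH2 : j * r + h ≤ max (j * r : ℝ) (LQ + θ * M + 1) + o) :
    (Fintype.card ι : ℝ) ≤ 2 * Real.exp (ε * M - η * M + max ((j : ℝ) * r) LQ - (2 * σ - 1) * (j * r)) := by
  obtain ⟨b', hb'M, hb'S, hb'H⟩ := hPow (VX K) w LV 2 b r (r + 1) hb hS j
  obtain ⟨bU, hbU1, hbU2, hbU3⟩ := mult hDet hConv n (wV n V w) U fun v hv x => dv_le_wV n V w (hUV hv) x
  obtain ⟨b'', h''M, h''S, h''H⟩ := hConv (VX K) (wV n V w) LV (j * 2) U.card b' bU _ _ _ _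
    (maj_mono hb'M (w_le_wV n V w)) hbU1 hb'S hbU2
  have hM0 : 0 ≤ M := by linarith
  have hjr0 : (0 : ℝ) ≤ j * r := by positivity
  have hjrh0 : 0 ≤ (j : ℝ) * r + h := by linarith
  obtain ⟨a, ha⟩ : ∃ a : ℕ, a = ⌊(j : ℝ) * r + h⌋₊ := ⟨_, rfl⟩
  have ha1 : (a : ℝ) ≤ j * r + h := by rw [ha]; exact Nat.floor_le hjrh0
  have ha2 : (j : ℝ) * r + h < a + 1 := by rw [ha]; exact Nat.lt_floor_add_one _
  have hPh : ∀ f, Real.exp (-(η * M * j) - (σ - 1 / 2 + c) * h) ≤ ‖Ph LV b'' (u f) (s f)‖ := by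
    intro f
    have g1 := hb'H (u f) (s f) (cut_summ LV_nonneg (hsuw f) hb hS (s f))
    obtain ⟨g2, g3⟩ := hbU3 (S f) (α f) (u f) (hrep f) (hUS f) (s f)
    have g4 := h''H (u f) (s f) g1.summable g2
    have g5 : Ph LV b'' (u f) (s f) = Ph LV b' (u f) (s f) * Ph LV bU (u f) (s f) := g4.tsum_eq
    have g6 : Ph LV b' (u f) (s f) = Ph LV b (u f) (s f) ^ j := g1.tsum_eq
    rw [g5, g6, norm_mul, norm_pow, g3]
    have g7 : Real.exp (-(η * M)) ^ j ≤ ‖Ph LV b (u f) (s f)‖ ^ j :=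
      pow_le_pow_left₀ (Real.exp_pos _).le (hlarge f) j
    have g8 : Real.exp (-((σ - 1 / 2 + c) * h)) ≤
        Real.exp (n * (1 / 2 - (s f).re) * ∑ v ∈ U, Real.log (Nv v)) := by
      refine Real.exp_le_exp.2 ?_
      have g9 : n * (1 / 2 - (s f).re) * ∑ v ∈ U, Real.log (Nv v) = (1 / 2 - (s f).re) * h := by
        rw [hh]
        ring
      rw [g9]
      have g10 : (-(σ - 1 / 2 + c)) * h ≤ (1 / 2 - (s f).re) * h :=
        mul_le_mul_of_nonneg_right (by linarith [hs2 f]) hh0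
      linarith
    have g11 : Real.exp (-(η * M * j) - (σ - 1 / 2 + c) * h) =
        Real.exp (-(η * M)) ^ j * Real.exp (-((σ - 1 / 2 + c) * h)) := by
      rw [← Real.exp_nat_mul, ← Real.exp_add]
      congr 1
      ring
    rw [g11]
    exact mul_le_mul g7 g8 (Real.exp_pos _).le (by positivity)
  have hS' : Supp LV b'' (a : ℝ) ((a : ℝ) + ((j + 1 : ℕ) : ℝ)) := by
    intro l hl
    have h1 := h''S l hl
    rw [← hh] at h1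
    push_cast
    constructor
    · exact ha1.trans h1.1
    · have : (j : ℝ) * (r + 1) = j * r + j := by ring
      rw [this] at h1
      linarith [h1.2]
  obtain ⟨hsw', hsw''⟩ := wV_sum n V hc0 hsw
  have hD'' : Real.exp (∑' x, ‖wV n V w x‖ ^ 2 * Real.exp (-((1 + 2 * c) * LV x))) ≤ Real.exp (5 * η * M) := by
    have h1 := Real.exp_le_exp.1 hD'
    refine Real.exp_le_exp.2 (hsw''.trans ?_)
    linarith
  have hUc : U.card ≤ V.card := Finset.card_le_card hUV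
  have hmain := hBlk (VX K) ι u LV s F (wV n V w) (j * 2 + U.card) b'' a (j + 1) σ (Real.exp (2 * η * M))
    (Real.exp (5 * η * M)) (Real.exp ((1 / 2 + σ₀) * LQ + 2 * η * M))
    (Real.exp (-(η * M * j) - (σ - 1 / 2 + c) * h)) LV_nonneg hσ
    hs1 hs3 hsu hD hsw' hD'' hF (Real.exp_pos _).le hFb h''M (by omega) hS' hjJ
    (Real.exp_pos _).le (Real.exp_pos _).le hPh
  have hjJ' : j ≤ J := by omega
  have hfin := real_block3 (R := (Fintype.card ι : ℝ)) (σ₀ := σ₀) (σ := σ) (c := c) (η := η) (M := M)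
    (LQ := LQ) (j := j) (a := a) (J := J) (h := h) (Nat.cast_nonneg _) le_rfl hCbM h8
    (absorb3 hσ hσ1 hc0 hc1 h5 hM hθ hη hηJ1 hjJ' hLQ hLQM hh0 hh4 hjr0 ha2 hH1) hmain
  refine hfin.trans ?_
  refine mul_le_mul_of_nonneg_left (Real.exp_le_exp.2 ?_) (by norm_num)
  have h10 := expo3 (σ := σ) (c := c) (θ := θ) (η := η) (M := M) (LQ := LQ) (h := h) (o := o) (ε := ε)
    (jr := (j : ℝ) * r) (a := (a : ℝ)) (j := j) (J := J) hσ hσ1 hc0.le hM hη hηJ2 hjJ' hh0 hh4 hjr0 hjr12 ha1 hcθ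
    hθε ho ho0 hεM hH2
  linarith

end Pool.Agent.U615.ZH
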