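import Pool.Agent.N846.HU.Sel
import Pool.Agent.U615.ZH.Cls

/-! The bound for one block and one power. -/

set_option autoImplicit false

namespace Pool.Agent.U615.ZH

open Filter Topology Complex MeasureTheory Set NumberField IsDedekindDomain
open Pool.Agent.TH949.LT (TT Lam VV VV_nonneg VV_le)
open Pool.Agent.N846.DT (PairF co Uc co_abs summ_mono' summ_cs Lam_nonneg half_exp)
open Pool.Agent.N846.DU (VX LV Nv logRS RS GLFamily Rep LV_nonneg one_le_cond shift_cond shift_cond' S_LEFT S_DIAG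
  one_lt_Nv)
open Pool.Agent.N846.LM (Twists)
open Pool.Agent.N846.ZD (Ph Maj Supp S_POW S_CONV S_BLOCK cut_summ data absorb)
open Pool.Agent.N846.LV (mono2)
open Pool.Agent.N846.HU (S_DET S_PL sel_places cnt2)

theorem blk3 (hPow : S_POW) (hConv : S_CONV) (hBl : S_BLOCK) (hL : S_LEFT) (hDi : S_DIAG)
    (hDet : S_DET) (hPl : S_PL)
    (K : Type) [Field K] [NumberField K] (n N n' N' N'' J₀ : ℕ) (hn : 1 ≤ n) {ε : ℝ} (hε : 0 < ε) :
    ∃ c η E₀ : ℝ, 0 < c ∧ c ≤ 1 / 16 ∧ c ≤ ε ∧ 0 < η ∧ η ≤ ε ∧ η ≤ 1 ∧ 1 ≤ E₀ ∧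
    ∀ (ι : Type) [Fintype ι] (S : ι → Finset (HeightOneSpectrum (𝓞 K)))
      (α : ι → HeightOneSpectrum (𝓞 K) → Fin n → ℂ) (u : ι → VX K → ℂ) (q : ι → ι → ℝ) (κ : ι → ι → Fin N → ℂ)
      (S' : Finset (HeightOneSpectrum (𝓞 K))) (α' : HeightOneSpectrum (𝓞 K) → Fin n' → ℂ) (w : VX K → ℂ) (q' : ℝ)
      (κ' : Fin N'' → ℂ) (qs : ι → ℝ) (μ : ι → Fin N' → ℂ) (L : ι → ℂ → ℂ),
      GLFamily n N S α u q κ → Twists n' N' N'' u S' α' w q' κ' qs μ L →
      ∀ (s : ι → ℂ) (σ C Q Q' : ℝ), 1 / 2 ≤ σ → σ ≤ 1 → 1 ≤ C → 1 ≤ Q → q' * ∏ j, (1 + ‖κ' j‖) ≤ Q' →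
        E₀ ≤ C * Q * Q' → (∀ f, ∏ v ∈ S f, Nv v ≤ C * Q * Q') →
        (∀ f, qs f * ∏ j, (1 + ‖μ f j + (s f).im * I‖) ≤ C) →
        (∀ f g, q f g * ∏ j, (1 + ‖κ f g j + ((s f).im - (s g).im) * I‖) ≤ Q) →
        (∀ f, σ ≤ (s f).re) → (∀ f, (s f).re ≤ σ + c) → (∀ f, (s f).re ≤ 1) →
        ∀ (b : TT (VX K) → ℂ) (j r : ℕ), j ≤ J₀ → (j : ℝ) * r ≤ 12 * Real.log (C * Q * Q') →
          Maj w 2 b → Supp LV b (r : ℝ) ((r : ℝ) + 1) →
          (∀ f, Real.exp (-(η * Real.log (C * Q * Q'))) ≤ ‖Ph LV b (u f) (s f)‖) →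
        (Fintype.card ι : ℝ) ≤ Real.exp (ε * Real.log (C * Q * Q') +
          max ((j : ℝ) * r) (Real.log Q) - (2 * σ - 1) * (j * r)) := by
  classical
  obtain ⟨d, hd, hPl'⟩ := hPl K
  obtain ⟨θ, c, δ, η, m, J, hθ0, hθ1, hθε, hc0, hc1, hcθ, hδ0, hδθ, hm, hJ, hη0, hηJ1, hηJ2⟩ :=
    params3 hε n d J₀ hn hd
  have hJ0 : (0 : ℝ) ≤ (J : ℝ) ^ 2 := sq_nonneg _
  have hJ00 : (0 : ℝ) ≤ (J : ℝ) := Nat.cast_nonneg J
  have hη20 : 20 * η ≤ ε / 16 := by
    have h1 : 0 ≤ η * (20 * (J : ℝ) ^ 2 + 2 * J) := by positivity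
    have h2 : η * (20 * J ^ 2 + 2 * J + 20) = η * (20 * (J : ℝ) ^ 2 + 2 * J) + 20 * η := by ring
    linarith
  have hη21 : 20 * η ≤ 1 := by
    have h1 : 0 ≤ η * (20 * (J : ℝ) ^ 2 + 2 * J) := by positivity
    have h2 : η * (20 * J ^ 2 + 2 * J + 20) = η * (20 * (J : ℝ) ^ 2 + 2 * J) + 20 * η := by ring
    linarith
  have hn0 : (0 : ℝ) < n := by exact_mod_cast hn
  obtain ⟨σ₀, hσ₀⟩ : ∃ σ₀ : ℝ, σ₀ = 5 / θ + 2 * c := ⟨_, rfl⟩
  have h5θ : 0 < 5 / θ := by positivity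
  have h0 : 0 < σ₀ := by linarith
  have h5 : 5 ≤ (σ₀ - 2 * c) * θ := by
    rw [hσ₀]
    have : (5 / θ + 2 * c - 2 * c) * θ = 5 := by field_simp; ring
    linarith
  obtain ⟨K₁, hK₁, hdat⟩ := data hL hDi K n N n' N' N'' (σ₀ := σ₀) (σ₁ := 1) (c := c) (η := η) h0 one_pos hc0 hη0
  obtain ⟨Cb, hCb0, hBlk⟩ := hBl σ₀ c (N * (1 / 2 + σ₀)) J h0 hc0 (by linarith) (by positivity)
  obtain ⟨E₁, hE₁1, hE₁⟩ := absorb hη0 (K₁ + Cb + 8 + 2 * 2 ^ m)
  have hlog2 : 0 < Real.log 2 := Real.log_pos (by norm_num)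
  obtain ⟨E₃, hE₃⟩ : ∃ E₃ : ℝ, E₃ = 2 + (m + 1) * Real.log 2 / δ + 16 / ε + 2 * (m * n) / η := ⟨_, rfl⟩
  refine ⟨c, η, max E₁ (Real.exp E₃), hc0, hc1, by linarith, hη0, by linarith, by linarith,
    hE₁1.trans (le_max_left _ _), ?_⟩
  intro ι _ S α u q κ S' α' w q' κ' qs μ L h hT s σ C Q Q' hσ hσ1 hC hQ hcQ' hGE hram hcC hcQ hs1 hs2 hs3
    b j r hjJ₀ hjr hbM hbS hPh
  have hGE1 : E₁ ≤ C * Q * Q' := (le_max_left _ _).trans hGE
  have hGE3 : Real.exp E₃ ≤ C * Q * Q' := (le_max_right _ _).trans hGE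
  have hC0 : 0 < C := by linarith
  have hQ0 : 0 < Q := by linarith
  have hQ'1 : 1 ≤ Q' := by
    have h2 := one_le_cond (κ := κ') hT.self.one_le 0
    simp only [add_zero] at h2
    linarith
  have hQ'0 : 0 < Q' := by linarith
  have hCG : C ≤ C * Q * Q' := by
    have h1 : C ≤ C * Q := le_mul_of_one_le_right hC0.le hQ
    exact h1.trans (le_mul_of_one_le_right (by positivity) hQ'1)
  have hQG : Q ≤ C * Q * Q' := by
    have h1 : Q ≤ C * Q := le_mul_of_one_le_left hQ0.le hC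
    exact h1.trans (le_mul_of_one_le_right (by positivity) hQ'1)
  have hG1 : 1 ≤ C * Q * Q' := hC.trans hCG
  have hG0 : 0 < C * Q * Q' := by linarith
  obtain ⟨hAM, hAM1⟩ := hE₁ _ hGE1
  have hMk' : E₃ ≤ Real.log (C * Q * Q') := (Real.le_log_iff_exp_le hG0).2 hGE3
  have hGη : (C * Q * Q') ^ η = Real.exp (η * Real.log (C * Q * Q')) := by
    rw [Real.rpow_def_of_pos hG0, mul_comm]
  have hexpM : Real.exp (Real.log (C * Q * Q')) = C * Q * Q' := Real.exp_log hG0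
  rw [← hexpM] at hram
  obtain ⟨hD1, hDw, ⟨F, hF⟩, -⟩ := hdat ι S α u q κ S' α' w q' κ' qs μ L h hT (fun f => (s f).im) C Q Q'
    hC hQ hcQ' hcC hcQ
  rw [hGη] at hD1 hDw hF
  have hLQ0 : 0 ≤ Real.log Q := Real.log_nonneg hQ
  have hLQM : Real.log Q ≤ Real.log (C * Q * Q') := Real.log_le_log hQ0 hQG
  have hQpow : Q ^ (1 / 2 + σ₀) = Real.exp ((1 / 2 + σ₀) * Real.log Q) := by
    rw [Real.rpow_def_of_pos hQ0, mul_comm]
  obtain ⟨M, hM⟩ : ∃ M, M = Real.log (C * Q * Q') := ⟨_, rfl⟩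
  obtain ⟨LQ, hLQ⟩ : ∃ LQ, LQ = Real.log Q := ⟨_, rfl⟩
  rw [← hM] at hD1 hDw hMk' hAM hAM1 hram hLQM hF hjr hPh ⊢
  clear hexpM
  rw [← hLQ] at hLQ0 hLQM hQpow ⊢
  -- M is large
  have p2 : 0 ≤ (m + 1) * Real.log 2 / δ := by positivity
  have p3 : 0 < 16 / ε := by positivity
  have p4 : 0 ≤ 2 * (m * n) / η := by positivity
  have hM2 : (m + 1) * Real.log 2 ≤ δ * M := by
    have h1 : (m + 1) * Real.log 2 / δ ≤ M := by linarith
    rw [div_le_iff₀ hδ0] at h1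
    linarith
  have hM3 : 16 ≤ ε * M := by
    have h1 : 16 / ε ≤ M := by linarith
    rw [div_le_iff₀ hε] at h1
    linarith
  have hM4 : 2 * (m * n) ≤ η * M := by
    have h1 : 2 * (m * n) / η ≤ M := by linarith
    rw [div_le_iff₀ hη0] at h1
    linarith
  have hM5 : 2 ≤ M := by linarith
  have hM0 : 0 ≤ M := by linarith
  clear hMk' p2 p3 p4 hE₃
  have hMpos : 0 < M := by linarith
  have hK₁0 : 0 ≤ K₁ := by linarith
  have h2m : (1 : ℝ) ≤ 2 ^ m := one_le_pow₀ (by norm_num)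
  have hKM : K₁ ≤ Real.exp (η * M) := le_trans (by linarith) hAM
  have hCbM : Cb ≤ Real.exp (η * M) := le_trans (by linarith) hAM
  have h8M : 8 ≤ Real.exp (η * M) := le_trans (by linarith) hAM
  have h2mM : 2 * 2 ^ m ≤ Real.exp (η * M) := le_trans (by linarith) hAM
  have hηM : 0 ≤ η * M := by positivity
  have hKG : K₁ * Real.exp (η * M) ≤ Real.exp (2 * η * M) := by
    calc K₁ * Real.exp (η * M) ≤ Real.exp (η * M) * Real.exp (η * M) :=
          mul_le_mul_of_nonneg_right hKM (Real.exp_pos _).le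
      _ = _ := by rw [← Real.exp_add]; congr 1; ring
  have hwsum : Summable fun x => ‖w x‖ ^ 2 * Real.exp (-((1 + c) * LV x)) := hT.rep.summable _ (by linarith)
  have hwsum2 : Summable fun x => ‖w x‖ ^ 2 * Real.exp (-((1 + 2 * c) * LV x)) := hT.rep.summable _ (by linarith)
  have husum : ∀ f, Summable fun x => ‖u f x‖ ^ 2 * Real.exp (-((1 + c) * LV x)) := fun f =>
    (h.rep f).summable _ (by linarith)
  have huw : ∀ f, Summable fun v => ‖u f v‖ * ‖w v‖ * Real.exp (-((1 + c) * LV v)) := fun f =>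
    summ_cs (husum f) hwsum
  have hD1' := fun f => (hD1 f).trans hKG
  have hDw' := hDw.trans hKG
  have hD' := mono2 hc0.le LV_nonneg hwsum hwsum2 hDw'
  have hFb : ∀ f g, f ≠ g → ∀ v : ℝ, ‖F f g (((-σ₀ : ℝ) : ℂ) + (((s f).im - (s g).im) + v : ℝ) * I)‖ ≤
      Real.exp ((1 / 2 + σ₀) * LQ + 2 * η * M) * (1 + |v|) ^ (N * (1 / 2 + σ₀)) := by
    intro f g hfg v
    refine ((hF f g hfg).2 v).trans (mul_le_mul_of_nonneg_right ?_ (by positivity))
    rw [Real.exp_add, ← hQpow]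
    calc _ = Q ^ (1 / 2 + σ₀) * (K₁ * Real.exp (η * M)) := by ring
      _ ≤ _ := mul_le_mul_of_nonneg_left hKG (by positivity)
  -- the multipliers
  obtain ⟨V, hVm, hVb⟩ := hPl' m (Real.exp (δ * M)) (Real.one_le_exp (by positivity))
  have hθM : 0 ≤ θ * M := by positivity
  have hθM16 : 16 * (θ * M) ≤ M := by
    have : 16 * θ * M ≤ 1 * M := mul_le_mul_of_nonneg_right hθ1 hM0
    linarith
  have hov : n * (d * ((m + 1) * Real.log 2 + δ * M)) ≤ θ * M := by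
    have h1 : n * (d * ((m + 1) * Real.log 2 + δ * M)) ≤ n * (d * (δ * M + δ * M)) :=
      mul_le_mul_of_nonneg_left (mul_le_mul_of_nonneg_left (by linarith) (Nat.cast_nonneg d)) hn0.le
    have h2 : n * (d * (δ * M + δ * M)) = 2 * n * d * δ * M := by ring
    rw [h2, hδθ] at h1
    exact h1
  have hjr0 : 0 ≤ (j : ℝ) * r := by positivity
  have ht8 : max (LQ + θ * M + 1 - j * r) 0 ≤ 8 * M := max_le (by linarith) (by linarith)
  have hchoose := fun f => sel_places (n := n) (d := d) (m := m) (δ := δ) (M := M)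
    (t := max (LQ + θ * M + 1 - j * r) 0) (V := V) (S := S f) hn hδ0 hMpos hVm hVb (hram f) hm
    (le_max_right _ _) ht8
  choose UU hUV hUS hU1 hU2 using hchoose
  -- the classes
  have hfin := cnt2 UU V.powerset (fun f => by
      rw [Finset.mem_powerset]
      exact hUV f) (X := 2 * Real.exp (ε * M - η * M + max ((j : ℝ) * r) LQ - (2 * σ - 1) * (j * r))) (by
    intro U
    by_cases hemp : IsEmpty {f // UU f = U}
    · rw [Fintype.card_eq_zero, Nat.cast_zero]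
      positivity
    rw [not_isEmpty_iff] at hemp
    obtain ⟨⟨f0, hf0⟩⟩ := hemp
    have hUV' : U ⊆ V := by rw [← hf0]; exact hUV f0
    have hu1 := hU1 f0
    have hu2 := hU2 f0
    rw [hf0] at hu1 hu2
    obtain ⟨hh, hhdef⟩ : ∃ hh : ℝ, hh = n * ∑ v ∈ U, Real.log (Nv v) := ⟨_, rfl⟩
    rw [← hhdef] at hu1 hu2
    have hh0 : 0 ≤ hh := (le_max_right _ _).trans hu1
    have ht1 : max (LQ + θ * M + 1 - j * r) 0 ≤ LQ + θ * M + 1 := max_le (by linarith) (by linarith)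
    have hh4 : hh ≤ 4 * M := by linarith
    exact one_class3 hPow hConv hDet (σ₀ := σ₀) (c := c) (η := η) (θ := θ) (ε := ε) (j := j) (J := J) hc0 hc1 h5
      hθ0 hη0.le hηJ1 hηJ2 hcθ hθε hBlk (ι := {f // UU f = U}) (S := fun f => S f.1) (α := fun f => α f.1)
      (u := fun f => u f.1) (s := fun f => s f.1) (F := fun f g => F f.1 g.1) (w := w) (b := b) (M := M)
      (LQ := LQ) (o := θ * M) (h := hh) (σ := σ)
      (r := r) (V := V) (U := U) hUV' (fun f => h.rep f.1) (fun f v hv => by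
        refine hUS f.1 v ?_
        rw [f.2]
        exact hv) hhdef hh0 hh4 (by linarith) hM3 hLQ0 hLQM hσ hσ1 (fun f => hs1 f.1)
      (fun f => hs2 f.1) (fun f => hs3 f.1) (fun f => husum f.1)
      (fun f => hD1' f.1) hwsum2 hD' (by
        rw [hVm]
        exact hM4) (fun f => huw f.1)
      (fun f g hfg => (hF f.1 g.1 fun h' => hfg (Subtype.ext h')).1)
      (fun f g hfg => hFb f.1 g.1 fun h' => hfg (Subtype.ext h')) hCbM h8M
      (by omega) (by rw [hVm]; omega)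
      hbM hbS (fun f => hPh f.1) hjr hθM le_rfl (by
        have := (le_max_left (LQ + θ * M + 1 - j * r) 0).trans hu1
        linarith) (by
        have h3 : j * r + max (LQ + θ * M + 1 - j * r) 0 ≤ max (j * r : ℝ) (LQ + θ * M + 1) := by
          rcases le_total (LQ + θ * M + 1 - j * r) 0 with h4 | h4
          · rw [max_eq_right h4, add_zero]
            exact le_max_left _ _
          · rw [max_eq_left h4]
            refine le_trans (le_of_eq ?_) (le_max_right _ _)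
            ring
        linarith))
  refine hfin.trans ?_
  rw [Finset.card_powerset, hVm]
  push_cast
  calc _ = 2 * 2 ^ m * Real.exp (ε * M - η * M + max ((j : ℝ) * r) LQ - (2 * σ - 1) * (j * r)) := by ring
    _ ≤ Real.exp (η * M) * Real.exp (ε * M - η * M + max ((j : ℝ) * r) LQ - (2 * σ - 1) * (j * r)) :=
        mul_le_mul_of_nonneg_right h2mM (Real.exp_pos _).le
    _ = _ := by
        rw [← Real.exp_add]
        congr 1
        ring

end Pool.Agent.U615.ZH
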