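import Pool.Agent.N846.ZD.Pig
import Pool.Agent.U615.ZH.Blk

/-! The first class of zeros: a large block. -/

set_option autoImplicit false

namespace Pool.Agent.U615.ZH

open Filter Topology Complex MeasureTheory Set NumberField IsDedekindDomain
open Pool.Agent.TH949.LT (TT Lam VV VV_nonneg VV_le)
open Pool.Agent.N846.DT (PairF co Uc co_abs summ_mono' summ_cs Lam_nonneg half_exp)
open Pool.Agent.N846.DU (VX LV Nv logRS RS GLFamily Rep LV_nonneg one_le_cond S_LEFT S_DIAG)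
open Pool.Agent.N846.LM (Twists)
open Pool.Agent.N846.ZD (Ph Maj Supp S_POW S_CONV S_BLOCK absorb blk blk_maj blk_supp)
open Pool.Agent.N846.HU (S_DET S_PL cnt2)

theorem class1 (hPow : S_POW) (hConv : S_CONV) (hBl : S_BLOCK) (hL : S_LEFT) (hDi : S_DIAG)
    (hDet : S_DET) (hPl : S_PL)
    (K : Type) [Field K] [NumberField K] (n N n' N' N'' : ℕ) (hn : 1 ≤ n) {ε a₁ : ℝ} (hε : 0 < ε) (ha₁ : 0 < a₁) :
    ∃ E₀ : ℝ, 1 ≤ E₀ ∧
    ∀ (ι : Type) [Fintype ι] (S : ι → Finset (HeightOneSpectrum (𝓞 K)))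
      (α : ι → HeightOneSpectrum (𝓞 K) → Fin n → ℂ) (u : ι → VX K → ℂ) (q : ι → ι → ℝ) (κ : ι → ι → Fin N → ℂ)
      (S' : Finset (HeightOneSpectrum (𝓞 K))) (α' : HeightOneSpectrum (𝓞 K) → Fin n' → ℂ) (w : VX K → ℂ) (q' : ℝ)
      (κ' : Fin N'' → ℂ) (qs : ι → ℝ) (μ : ι → Fin N' → ℂ) (L : ι → ℂ → ℂ),
      GLFamily n N S α u q κ → Twists n' N' N'' u S' α' w q' κ' qs μ L →
      ∀ (s : ι → ℂ) (σ C Q Q' x y Y : ℝ), 1 / 2 ≤ σ → σ ≤ 1 → 1 ≤ C → 1 ≤ Q → q' * ∏ j, (1 + ‖κ' j‖) ≤ Q' →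
        E₀ ≤ C * Q * Q' → (∀ f, ∏ v ∈ S f, Nv v ≤ C * Q * Q') →
        (∀ f, qs f * ∏ j, (1 + ‖μ f j + (s f).im * I‖) ≤ C) →
        (∀ f g, q f g * ∏ j, (1 + ‖κ f g j + ((s f).im - (s g).im) * I‖) ≤ Q) →
        (∀ f, σ ≤ (s f).re) → (∀ f, (s f).re ≤ 1) →
        2 + a₁ * Real.log (C * Q * Q') ≤ x → 0 ≤ Y → Y ≤ 10 * Real.log (C * Q * Q') →
        ∀ cf : TT (VX K) → ℂ, Maj w 2 cf →
          (∀ f, ∃ r ∈ Finset.Ico ⌊x⌋₊ (⌊Y⌋₊ + 1), 1 / (4 * ((⌊Y⌋₊ : ℝ) + 1)) ≤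
            ‖Ph LV (blk LV cf x y Y r) (u f) (s f)‖) →
        (Fintype.card ι : ℝ) ≤ Real.exp (ε * Real.log (C * Q * Q') +
          (2 - 2 * σ) * (Real.log Q + (2 * σ - 1) * Y)) := by
  classical
  obtain ⟨J₀, hJ₀⟩ : ∃ J₀ : ℕ, J₀ = ⌈1 / a₁⌉₊ := ⟨_, rfl⟩
  obtain ⟨c, η, E₁, hc0, hc1, hcε, hη0, hηε, hη1, hE₁1, hB⟩ := blk3 hPow hConv hBl hL hDi hDet hPl K n N n' N' N'' J₀ hn
    (ε := ε / 2) (by positivity)
  obtain ⟨E₂, hE₂1, hE₂⟩ := absorb hη0 (20 * (1 / c + 1) + 44)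
  obtain ⟨E₂', hE₂'1, hE₂'⟩ := absorb (by positivity : (0 : ℝ) < ε / 2) (20 * (1 / c + 1) + 44)
  have hc' : 0 < 1 / c := by positivity
  refine ⟨max E₁ (max E₂ E₂'), hE₁1.trans (le_max_left _ _), ?_⟩
  intro ι _ S α u q κ S' α' w q' κ' qs μ L h hT s σ C Q Q' x y Y hσ hσ1 hC hQ hcQ' hGE hram hcC hcQ hs1 hs3
    hx hY0 hY10 cf hcf hex
  have hGE1 : E₁ ≤ C * Q * Q' := (le_max_left _ _).trans hGE
  have hGE2 : E₂ ≤ C * Q * Q' := ((le_max_left _ _).trans (le_max_right _ _)).trans hGE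
  have hGE2' : E₂' ≤ C * Q * Q' := ((le_max_right _ _).trans (le_max_right _ _)).trans hGE
  obtain ⟨-, hAM1⟩ := hE₂ _ hGE2
  obtain ⟨-, hAM2⟩ := hE₂' _ hGE2'
  have hC0 : 0 < C := by linarith
  have hQ0 : 0 < Q := by linarith
  have hQ'1 : 1 ≤ Q' := by
    have h2 := one_le_cond (κ := κ') hT.self.one_le 0
    simp only [add_zero] at h2
    linarith
  have hQG : Q ≤ C * Q * Q' := by
    have h1 : Q ≤ C * Q := le_mul_of_one_le_left hQ0.le hC
    exact h1.trans (le_mul_of_one_le_right (by positivity) hQ'1)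
  have hLQ0 : 0 ≤ Real.log Q := Real.log_nonneg hQ
  have hLQM : Real.log Q ≤ Real.log (C * Q * Q') := Real.log_le_log hQ0 hQG
  have hBf := fun (ι' : Type) (_ : Fintype ι') (e : ι' → ι) (he : Function.Injective e) (σ' : ℝ) =>
    hB ι' (fun f => S (e f)) (fun f => α (e f)) (fun f => u (e f)) (fun f g => q (e f) (e g))
      (fun f g => κ (e f) (e g)) S' α' w q' κ' (fun f => qs (e f)) (fun f => μ (e f)) (fun f => L (e f))
      (h.sub e he) ⟨hT.rep, hT.self, fun f => hT.rs (e f), fun f => hT.re_gt (e f), fun f => hT.diff (e f),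
        fun f => hT.eq (e f)⟩ (fun f => s (e f)) σ' C Q Q'
  obtain ⟨M, hM⟩ : ∃ M, M = Real.log (C * Q * Q') := ⟨_, rfl⟩
  obtain ⟨LQ, hLQ⟩ : ∃ LQ, LQ = Real.log Q := ⟨_, rfl⟩
  rw [← hM] at hAM1 hAM2 hLQM hx hY10 hBf ⊢
  rw [← hLQ] at hLQ0 hLQM hBf ⊢
  have hM0 : 0 ≤ M := hLQ0.trans hLQM
  choose rr hrr1 hrr2 using hex
  obtain ⟨ii, hii⟩ : ∃ ii : ι → ℕ, ii = fun f => ⌊((s f).re - σ) / c⌋₊ := ⟨_, rfl⟩
  have hii1 : ∀ f, (ii f : ℝ) * c ≤ (s f).re - σ ∧ (s f).re - σ < (ii f + 1) * c := by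
    intro f
    have h1 : 0 ≤ ((s f).re - σ) / c := div_nonneg (by linarith [hs1 f]) hc0.le
    have h2 := Nat.floor_le h1
    have h3 := Nat.lt_floor_add_one (((s f).re - σ) / c)
    rw [le_div_iff₀ hc0] at h2
    rw [div_lt_iff₀ hc0] at h3
    rw [hii]
    exact ⟨h2, h3⟩
  have hii2 : ∀ f, ii f ≤ ⌊1 / c⌋₊ := by
    intro f
    rw [hii]
    refine Nat.floor_le_floor ?_
    exact div_le_div_of_nonneg_right (by linarith [hs3 f]) hc0.le
  have hfl := Nat.floor_le hY0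
  have hPhM : Real.exp (-(η * M)) ≤ 1 / (4 * ((⌊Y⌋₊ : ℝ) + 1)) := by
    rw [Real.exp_neg, one_div]
    refine inv_anti₀ (by positivity) (le_trans ?_ hAM1)
    have h3 : 44 * (M + 1) ≤ (20 * (1 / c + 1) + 44) * (M + 1) :=
      mul_le_mul_of_nonneg_right (by linarith) (by linarith)
    linarith
  have hs21 : 0 ≤ 2 * σ - 1 := by linarith
  have hs22 : 0 ≤ 2 - 2 * σ := by linarith
  -- the classes
  have hfin := cnt2 (fun f => (ii f, rr f)) (Finset.range (⌊1 / c⌋₊ + 1) ×ˢ Finset.range (⌊Y⌋₊ + 1)) (fun f => by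
      simp only [Finset.mem_product, Finset.mem_range]
      have h1 := hii2 f
      have h2 := Finset.mem_Ico.1 (hrr1 f)
      exact ⟨by omega, h2.2⟩) (X := Real.exp (ε / 2 * M + (2 - 2 * σ) * (LQ + (2 * σ - 1) * Y))) (by
    rintro ⟨i, r⟩
    by_cases hemp : IsEmpty {f // (ii f, rr f) = (i, r)}
    · rw [Fintype.card_eq_zero, Nat.cast_zero]
      exact (Real.exp_pos _).le
    rw [not_isEmpty_iff] at hemp
    have hcard0 : 0 < Fintype.card {f // (ii f, rr f) = (i, r)} := Fintype.card_pos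
    obtain ⟨⟨f0, hf0⟩⟩ := hemp
    simp only [Prod.mk.injEq] at hf0
    obtain ⟨hf1, hf2⟩ := hf0
    have hmem := hrr1 f0
    rw [hf2, Finset.mem_Ico] at hmem
    have hr1 : x - 1 ≤ (r : ℝ) := by
      have h2 := Nat.sub_one_lt_floor x
      have h3 : (⌊x⌋₊ : ℝ) ≤ r := by exact_mod_cast hmem.1
      linarith
    have hr2 : (r : ℝ) ≤ Y := by
      have h2 : r ≤ ⌊Y⌋₊ := by omega
      have h3 : (r : ℝ) ≤ (⌊Y⌋₊ : ℝ) := by exact_mod_cast h2
      exact h3.trans hfl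
    have ha₁M : 0 ≤ a₁ * M := by positivity
    have hr3 : 1 + a₁ * M ≤ (r : ℝ) := by linarith
    have hr0 : (0 : ℝ) < r := by linarith
    have hi0 := hii1 f0
    rw [hf1] at hi0
    have hic : 0 ≤ (i : ℝ) * c := by positivity
    have hσ'1 : 1 / 2 ≤ σ + i * c := by linarith
    have hσ'2 : σ + i * c ≤ 1 := by linarith [hs3 f0]
    -- the power
    obtain ⟨j, hj⟩ : ∃ j : ℕ, j = ⌈LQ / r⌉₊ := ⟨_, rfl⟩
    have hj1 : LQ ≤ j * r := by
      have h2 := Nat.le_ceil (LQ / r)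
      rw [← hj, div_le_iff₀ hr0] at h2
      exact h2
    have hjJ : j ≤ J₀ := by
      rw [hj, hJ₀]
      refine Nat.ceil_le_ceil ?_
      rw [div_le_div_iff₀ hr0 ha₁]
      have h2 : LQ * a₁ ≤ M * a₁ := mul_le_mul_of_nonneg_right hLQM ha₁.le
      linarith
    have hjr12 : (j : ℝ) * r ≤ 12 * M := by
      have h2 : (j : ℝ) < LQ / r + 1 := by rw [hj]; exact Nat.ceil_lt_add_one (by positivity)
      have h3 : (j : ℝ) * r ≤ (LQ / r + 1) * r := mul_le_mul_of_nonneg_right h2.le hr0.le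
      have h4 : (LQ / r + 1) * r = LQ + r := by field_simp
      linarith
    have happ : ∀ j' : ℕ, j' ≤ j → (Fintype.card {f // (ii f, rr f) = (i, r)} : ℝ) ≤
        Real.exp (ε / 2 * M + max ((j' : ℝ) * r) LQ - (2 * (σ + i * c) - 1) * (j' * r)) := by
      intro j' hj'
      have hj'r : (j' : ℝ) * r ≤ j * r := mul_le_mul_of_nonneg_right (by exact_mod_cast hj') hr0.le
      refine hBf {f // (ii f, rr f) = (i, r)} inferInstance (fun f => f.1) Subtype.val_injective (σ + i * c)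
        hσ'1 hσ'2 hC hQ hcQ' hGE1 (fun f => hram f.1) (fun f => hcC f.1) (fun f g => hcQ f.1 g.1) (fun f => ?_)
        (fun f => ?_) (fun f => hs3 f.1) (blk LV cf x y Y r) j' r (hj'.trans hjJ) (hj'r.trans hjr12)
        (blk_maj hcf x y Y r) (blk_supp LV cf x y Y r) (fun f => ?_)
      · have h2 := f.2
        simp only [Prod.mk.injEq] at h2
        have h3 := (hii1 f.1).1
        rw [h2.1] at h3
        linarith
      · have h2 := f.2
        simp only [Prod.mk.injEq] at h2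
        have h3 := (hii1 f.1).2
        rw [h2.1] at h3
        linarith
      · have h2 := f.2
        simp only [Prod.mk.injEq] at h2
        have h3 := hrr2 f.1
        rw [h2.2] at h3
        exact hPhM.trans h3
    have hYr : (2 * σ - 1) * r ≤ (2 * σ - 1) * Y := mul_le_mul_of_nonneg_left hr2 hs21
    have hE0 : 0 ≤ (2 - 2 * σ) * (LQ + (2 * σ - 1) * Y) :=
      mul_nonneg hs22 (add_nonneg hLQ0 (mul_nonneg hs21 hY0))
    rcases Nat.eq_zero_or_pos j with hjz | hjp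
    · have h2 := happ 0 (Nat.zero_le _)
      refine h2.trans (Real.exp_le_exp.2 ?_)
      have hLQz : LQ ≤ 0 := by
        rw [hjz] at hj1
        simpa using hj1
      rw [Nat.cast_zero, zero_mul, mul_zero, sub_zero]
      have : max 0 LQ ≤ 0 := max_le le_rfl hLQz
      linarith
    · have hj3 : ((j - 1 : ℕ) : ℝ) * r ≤ LQ := by
        have h2 : (j : ℝ) < LQ / r + 1 := by rw [hj]; exact Nat.ceil_lt_add_one (by positivity)
        have h3 : ((j - 1 : ℕ) : ℝ) = (j : ℝ) - 1 := by rw [Nat.cast_sub hjp, Nat.cast_one]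
        have h4 : ((j - 1 : ℕ) : ℝ) ≤ LQ / r := by rw [h3]; linarith
        rwa [le_div_iff₀ hr0] at h4
      have hcr : (0 : ℝ) < (Fintype.card {f // (ii f, rr f) = (i, r)} : ℝ) := by exact_mod_cast hcard0
      have g1 := happ j le_rfl
      have g2 := happ (j - 1) (Nat.sub_le _ _)
      rw [← Real.log_le_iff_le_exp hcr] at g1 g2
      have g3 := comb3 (σ := σ) (σ' := σ + i * c) (LQ := LQ) (r := r) (E := ε / 2 * M) (j := j) hσ hσ1
        (by linarith) hr0.le hjp hj1 hj3 g1 g2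
      rw [← Real.log_le_iff_le_exp hcr]
      refine g3.trans ?_
      have := mul_le_mul_of_nonneg_left (add_le_add_right hYr LQ) hs22
      linarith)
  refine hfin.trans ?_
  rw [Finset.card_product, Finset.card_range, Finset.card_range]
  have hcl : ((((⌊1 / c⌋₊ + 1) * (⌊Y⌋₊ + 1) : ℕ)) : ℝ) ≤ Real.exp (ε / 2 * M) := by
    refine le_trans ?_ hAM2
    push_cast
    have h1 := Nat.floor_le hc'.le
    have h2 : (⌊Y⌋₊ : ℝ) + 1 ≤ 10 * (M + 1) := by linarith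
    have h3 : ((⌊1 / c⌋₊ : ℝ) + 1) * ((⌊Y⌋₊ : ℝ) + 1) ≤ (1 / c + 1) * (10 * (M + 1)) :=
      mul_le_mul (by linarith) h2 (by positivity) (by positivity)
    have h4 : (1 / c + 1) * (10 * (M + 1)) ≤ (20 * (1 / c + 1) + 44) * (M + 1) := by
      have h5 : 0 ≤ (10 * (1 / c + 1) + 44) * (M + 1) := by positivity
      nlinarith
    linarith
  calc _ ≤ Real.exp (ε / 2 * M) * Real.exp (ε / 2 * M + (2 - 2 * σ) * (LQ + (2 * σ - 1) * Y)) :=
        mul_le_mul_of_nonneg_right hcl (Real.exp_pos _).le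
    _ = _ := by
        rw [← Real.exp_add]
        congr 1
        ring

end Pool.Agent.U615.ZH
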