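import Pool.Agent.N846.ZD.Core
import Pool.Agent.U615.ZH.Blk

/-! The first class of zeros: the bound of Halász and Montgomery for `σ ≥ 3 / 4`. -/

set_option autoImplicit false

namespace Pool.Agent.U615.ZH

open Filter Topology Complex MeasureTheory Set NumberField IsDedekindDomain
open Pool.Agent.TH949.LT (TT Lam VV VV_nonneg VV_le)
open Pool.Agent.N846.DT (PairF co Uc co_abs summ_mono' summ_cs Lam_nonneg half_exp)
open Pool.Agent.N846.DU (VX LV Nv logRS RS GLFamily Rep LV_nonneg one_le_cond S_LEFT S_DIAG)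
open Pool.Agent.N846.LM (Twists)
open Pool.Agent.N846.ZD (Ph Maj Supp S_POW S_CONV S_BLOCK absorb blk blk_maj blk_supp data one_block)
open Pool.Agent.N846.LV (mono2)
open Pool.Agent.N846.HU (cnt2)

/-- the parameters -/
theorem params5 {ε a₁ : ℝ} (hε : 0 < ε) (ha₁ : 0 < a₁) : ∃ (s₀ c b η : ℝ) (J : ℕ), 0 < s₀ ∧ s₀ ≤ 1 ∧
    64 * s₀ ≤ ε ∧ 0 < c ∧ c ≤ 1 / 16 ∧ c ≤ s₀ / 4 ∧ 400 * c ≤ ε ∧ 0 < b ∧ 64 * b ≤ ε ∧ b ≤ 1 ∧ 5 / a₁ ≤ J ∧
    0 < η ∧ η * (2 * J + 4 + 8 * J ^ 2) ≤ b ∧ η ≤ 1 := by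
  obtain ⟨m, hm⟩ : ∃ m : ℝ, m = min 1 ε := ⟨_, rfl⟩
  have hm0 : 0 < m := by rw [hm]; positivity
  have hm1 : m ≤ 1 := by rw [hm]; exact min_le_left _ _
  have hm2 : m ≤ ε := by rw [hm]; exact min_le_right _ _
  obtain ⟨J, hJ⟩ : ∃ J : ℕ, 5 / a₁ ≤ J := ⟨⌈5 / a₁⌉₊, Nat.le_ceil _⟩
  obtain ⟨η, hη⟩ : ∃ η : ℝ, η = (m / 64) / (2 * J + 4 + 8 * J ^ 2) := ⟨_, rfl⟩
  have hη0 : 0 < η := by rw [hη]; positivity
  have hη1 : η * (2 * J + 4 + 8 * J ^ 2) = m / 64 := by rw [hη]; field_simp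
  have hJ0 : 0 ≤ η * (2 * (J : ℝ) + 8 * J ^ 2) := by positivity
  refine ⟨m / 64, m / 400, m / 64, η, J, by positivity, by linarith, by linarith, by positivity, by linarith,
    by linarith, by linarith, by positivity, by linarith, by linarith, hJ, hη0, hη1.le, ?_⟩
  nlinarith

theorem real5 {ε s₀ c b σ M LQ r : ℝ} (hs₀ : 0 < s₀) (hs₀1 : s₀ ≤ 1) (hs₀ε : 64 * s₀ ≤ ε) (hc0 : 0 < c)
    (hc1 : c ≤ s₀ / 4) (hcε : 400 * c ≤ ε) (hb : 0 < b) (hbε : 64 * b ≤ ε) (hb1 : b ≤ 1) (hσ : 3 / 4 ≤ σ)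
    (hσ1 : σ ≤ 1) (hM : 0 ≤ M) (hLQ : 0 ≤ LQ) (hLQM : LQ ≤ M) (hr : 0 ≤ r) (hr10 : r ≤ 10 * M) :
    ((1 / 2 + s₀) * LQ + b * M) / (s₀ + 2 * σ - 1 - 2 * c) ≤ 5 * M ∧
    b * M + (2 - 2 * σ + 3 * c) * (((1 / 2 + s₀) * LQ + b * M) / (s₀ + 2 * σ - 1 - 2 * c) + r) ≤
      ε / 2 * M + (2 - 2 * σ) * (LQ / (4 * σ - 2) + r) := by
  have hd : 1 / 2 ≤ 2 * σ - 1 := by linarith
  have hd0 : 0 < 2 * σ - 1 := by linarith
  have hd1 : 2 * σ - 1 ≤ s₀ + 2 * σ - 1 - 2 * c := by linarith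
  obtain ⟨z, hz⟩ : ∃ z : ℝ, z = ((1 / 2 + s₀) * LQ + b * M) / (s₀ + 2 * σ - 1 - 2 * c) := ⟨_, rfl⟩
  have hnum : 0 ≤ (1 / 2 + s₀) * LQ + b * M := by positivity
  have hz1 : z ≤ ((1 / 2 + s₀) * LQ + b * M) / (2 * σ - 1) := by
    rw [hz]
    exact div_le_div_of_nonneg_left hnum hd0 hd1
  have hz2 : z ≤ LQ / (4 * σ - 2) + 2 * (s₀ * LQ + b * M) := by
    refine hz1.trans ?_
    have e1 : ((1 / 2 + s₀) * LQ + b * M) / (2 * σ - 1) = LQ / (4 * σ - 2) + (s₀ * LQ + b * M) / (2 * σ - 1) := by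
      have : 4 * σ - 2 = 2 * (2 * σ - 1) := by ring
      rw [this]
      field_simp
      ring
    rw [e1]
    have e2 : (s₀ * LQ + b * M) / (2 * σ - 1) ≤ 2 * (s₀ * LQ + b * M) := by
      rw [div_le_iff₀ hd0]
      have : 0 ≤ s₀ * LQ + b * M := by positivity
      nlinarith
    linarith
  have hLQd : LQ / (4 * σ - 2) ≤ M := by
    rw [div_le_iff₀ (by linarith)]
    nlinarith
  have hs₀M : s₀ * LQ ≤ s₀ * M := mul_le_mul_of_nonneg_left hLQM hs₀.le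
  have h1 : s₀ * M ≤ ε / 64 * M := mul_le_mul_of_nonneg_right (by linarith) hM
  have h2 : b * M ≤ ε / 64 * M := mul_le_mul_of_nonneg_right (by linarith) hM
  have h3 : s₀ * M ≤ 1 * M := mul_le_mul_of_nonneg_right hs₀1 hM
  have h4 : b * M ≤ 1 * M := mul_le_mul_of_nonneg_right hb1 hM
  have hz3 : z ≤ LQ / (4 * σ - 2) + ε / 16 * M := by linarith
  have hz4 : z ≤ 5 * M := by linarith
  refine ⟨by rw [← hz]; exact hz4, ?_⟩
  rw [← hz]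
  have hs22 : 0 ≤ 2 - 2 * σ := by linarith
  have e1 : (2 - 2 * σ) * z ≤ (2 - 2 * σ) * (LQ / (4 * σ - 2) + ε / 16 * M) := mul_le_mul_of_nonneg_left hz3 hs22
  have e2 : (2 - 2 * σ) * (ε / 16 * M) ≤ 1 * (ε / 16 * M) := mul_le_mul_of_nonneg_right (by linarith) (by
    have := mul_nonneg hs₀.le hM
    linarith)
  have e3 : c * (z + r) ≤ c * (15 * M) := mul_le_mul_of_nonneg_left (by linarith) hc0.le
  have e4 : 400 * c * M ≤ ε * M := mul_le_mul_of_nonneg_right hcε hM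
  nlinarith

theorem class1b (hPow : S_POW) (hBl : S_BLOCK) (hL : S_LEFT) (hDi : S_DIAG)
    (K : Type) [Field K] [NumberField K] (n N n' N' N'' : ℕ) {ε a₁ : ℝ} (hε : 0 < ε) (ha₁ : 0 < a₁) :
    ∃ E₀ : ℝ, 1 ≤ E₀ ∧
    ∀ (ι : Type) [Fintype ι] (S : ι → Finset (HeightOneSpectrum (𝓞 K)))
      (α : ι → HeightOneSpectrum (𝓞 K) → Fin n → ℂ) (u : ι → VX K → ℂ) (q : ι → ι → ℝ) (κ : ι → ι → Fin N → ℂ)
      (S' : Finset (HeightOneSpectrum (𝓞 K))) (α' : HeightOneSpectrum (𝓞 K) → Fin n' → ℂ) (w : VX K → ℂ) (q' : ℝ)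
      (κ' : Fin N'' → ℂ) (qs : ι → ℝ) (μ : ι → Fin N' → ℂ) (L : ι → ℂ → ℂ),
      GLFamily n N S α u q κ → Twists n' N' N'' u S' α' w q' κ' qs μ L →
      ∀ (s : ι → ℂ) (σ C Q Q' x y Y : ℝ), 3 / 4 ≤ σ → σ ≤ 1 → 1 ≤ C → 1 ≤ Q → q' * ∏ j, (1 + ‖κ' j‖) ≤ Q' →
        E₀ ≤ C * Q * Q' →
        (∀ f, qs f * ∏ j, (1 + ‖μ f j + (s f).im * I‖) ≤ C) →
        (∀ f g, q f g * ∏ j, (1 + ‖κ f g j + ((s f).im - (s g).im) * I‖) ≤ Q) →
        (∀ f, σ ≤ (s f).re) → (∀ f, (s f).re ≤ 1) →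
        2 + a₁ * Real.log (C * Q * Q') ≤ x → 0 ≤ Y → Y ≤ 10 * Real.log (C * Q * Q') →
        ∀ cf : TT (VX K) → ℂ, Maj w 2 cf →
          (∀ f, ∃ r ∈ Finset.Ico ⌊x⌋₊ (⌊Y⌋₊ + 1), 1 / (4 * ((⌊Y⌋₊ : ℝ) + 1)) ≤
            ‖Ph LV (blk LV cf x y Y r) (u f) (s f)‖) →
        (Fintype.card ι : ℝ) ≤ Real.exp (ε * Real.log (C * Q * Q') +
          (2 - 2 * σ) * (Real.log Q / (4 * σ - 2) + Y)) := by
  classical
  obtain ⟨s₀, c, b, η, J, hs₀, hs₀1, hs₀ε, hc0, hc1, hc2, hcε, hb, hbε, hb1, hJ, hη0, hηJ, hη1⟩ := params5 hε ha₁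
  obtain ⟨K₁, hK₁, hdat⟩ := data hL hDi K n N n' N' N'' (σ₀ := s₀) (σ₁ := 1) (c := c) (η := η) hs₀ one_pos hc0 hη0
  obtain ⟨Cb, hCb0, hBlk⟩ := hBl s₀ c (N * (1 / 2 + s₀)) J hs₀ hc0 (by linarith) (by positivity)
  obtain ⟨E₁, hE₁1, hE₁⟩ := absorb hη0 (K₁ + Cb + 8 + 44)
  obtain ⟨E₂, hE₂1, hE₂⟩ := absorb (by positivity : (0 : ℝ) < ε / 2) 22
  refine ⟨max E₁ E₂, hE₁1.trans (le_max_left _ _), ?_⟩
  intro ι _ S α u q κ S' α' w q' κ' qs μ L h hT s σ C Q Q' x y Y hσ hσ1 hC hQ hcQ' hGE hcC hcQ hs1 hs3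
    hx hY0 hY10 cf hcf hex
  have hGE1 : E₁ ≤ C * Q * Q' := (le_max_left _ _).trans hGE
  have hGE2 : E₂ ≤ C * Q * Q' := (le_max_right _ _).trans hGE
  have hC0 : 0 < C := by linarith
  have hQ0 : 0 < Q := by linarith
  have hQ'1 : 1 ≤ Q' := by
    have h2 := one_le_cond (κ := κ') hT.self.one_le 0
    simp only [add_zero] at h2
    linarith
  have hQG : Q ≤ C * Q * Q' := by
    have h1 : Q ≤ C * Q := le_mul_of_one_le_left hQ0.le hC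
    exact h1.trans (le_mul_of_one_le_right (by positivity) hQ'1)
  have hG0 : 0 < C * Q * Q' := by linarith
  obtain ⟨hAM, hAM1⟩ := hE₁ _ hGE1
  obtain ⟨-, hAM2⟩ := hE₂ _ hGE2
  have hGη : (C * Q * Q') ^ η = Real.exp (η * Real.log (C * Q * Q')) := by
    rw [Real.rpow_def_of_pos hG0, mul_comm]
  obtain ⟨hD1, hDw, ⟨F, hF⟩, -⟩ := hdat ι S α u q κ S' α' w q' κ' qs μ L h hT (fun f => (s f).im) C Q Q'
    hC hQ hcQ' hcC hcQ
  rw [hGη] at hD1 hDw hF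
  have hLQ0 : 0 ≤ Real.log Q := Real.log_nonneg hQ
  have hLQM : Real.log Q ≤ Real.log (C * Q * Q') := Real.log_le_log hQ0 hQG
  have hQpow : Q ^ (1 / 2 + s₀) = Real.exp ((1 / 2 + s₀) * Real.log Q) := by
    rw [Real.rpow_def_of_pos hQ0, mul_comm]
  obtain ⟨M, hM⟩ : ∃ M, M = Real.log (C * Q * Q') := ⟨_, rfl⟩
  obtain ⟨LQ, hLQ⟩ : ∃ LQ, LQ = Real.log Q := ⟨_, rfl⟩
  rw [← hM] at hD1 hDw hAM hAM1 hAM2 hLQM hF hx hY10 ⊢
  rw [← hLQ] at hLQ0 hLQM hQpow ⊢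
  have hM0 : 0 ≤ M := hLQ0.trans hLQM
  have hKM : K₁ ≤ Real.exp (η * M) := le_trans (by linarith) hAM
  have hCbM : Cb ≤ Real.exp (η * M) := le_trans (by linarith) hAM
  have h8M : 8 ≤ Real.exp (η * M) := le_trans (by linarith) hAM
  have hηM : 0 ≤ η * M := by positivity
  have hKG : K₁ * Real.exp (η * M) ≤ Real.exp (2 * η * M) := by
    calc K₁ * Real.exp (η * M) ≤ Real.exp (η * M) * Real.exp (η * M) :=
          mul_le_mul_of_nonneg_right hKM (Real.exp_pos _).le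
      _ = _ := by rw [← Real.exp_add]; congr 1; ring
  have hwsum : Summable fun x => ‖w x‖ ^ 2 * Real.exp (-((1 + c) * LV x)) := hT.rep.summable _ (by linarith)
  have hwsum2 : Summable fun x => ‖w x‖ ^ 2 * Real.exp (-((1 + 2 * c) * LV x)) := hT.rep.summable _ (by linarith)
  have husum : ∀ f, Summable fun x => ‖u f x‖ ^ 2 * Real.exp (-((1 + c) * LV x)) := fun f =>
    (h.rep f).summable _ (by linarith)
  have huw : ∀ f, Summable fun v => ‖u f v‖ * ‖w v‖ * Real.exp (-((1 + c) * LV v)) := fun f =>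
    summ_cs (husum f) hwsum
  have hD1' := fun f => (hD1 f).trans hKG
  have hDw' := hDw.trans hKG
  have hD' := mono2 hc0.le LV_nonneg hwsum hwsum2 hDw'
  have hFb : ∀ f g, f ≠ g → ∀ v : ℝ, ‖F f g (((-s₀ : ℝ) : ℂ) + (((s f).im - (s g).im) + v : ℝ) * I)‖ ≤
      Real.exp ((1 / 2 + s₀) * LQ + 2 * η * M) * (1 + |v|) ^ (N * (1 / 2 + s₀)) := by
    intro f g hfg v
    refine ((hF f g hfg).2 v).trans (mul_le_mul_of_nonneg_right ?_ (by positivity))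
    rw [Real.exp_add, ← hQpow]
    calc _ = Q ^ (1 / 2 + s₀) * (K₁ * Real.exp (η * M)) := by ring
      _ ≤ _ := mul_le_mul_of_nonneg_left hKG (by positivity)
  choose rr hrr1 hrr2 using hex
  have hfl := Nat.floor_le hY0
  have hfl4 : 4 * ((⌊Y⌋₊ : ℝ) + 1) ≤ Real.exp (η * M) := by
    refine le_trans ?_ hAM1
    have h3 : 44 * (M + 1) ≤ (K₁ + Cb + 8 + 44) * (M + 1) := mul_le_mul_of_nonneg_right (by linarith) (by linarith)
    linarith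
  have hfin := cnt2 rr (Finset.range (⌊Y⌋₊ + 1)) (fun f => by
      rw [Finset.mem_range]
      exact (Finset.mem_Ico.1 (hrr1 f)).2) (X := 2 * Real.exp (ε / 2 * M + (2 - 2 * σ) * (LQ / (4 * σ - 2) + Y))) (by
    intro r
    by_cases hemp : IsEmpty {f // rr f = r}
    · rw [Fintype.card_eq_zero, Nat.cast_zero]
      positivity
    rw [not_isEmpty_iff] at hemp
    obtain ⟨⟨f0, hf0⟩⟩ := hemp
    have hmem := hrr1 f0
    rw [hf0, Finset.mem_Ico] at hmem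
    have hr1 : x - 1 ≤ (r : ℝ) := by
      have h2 := Nat.sub_one_lt_floor x
      have h3 : (⌊x⌋₊ : ℝ) ≤ r := by exact_mod_cast hmem.1
      linarith
    have hr2 : (r : ℝ) ≤ Y := by
      have h2 : r ≤ ⌊Y⌋₊ := by omega
      have h3 : (r : ℝ) ≤ (⌊Y⌋₊ : ℝ) := by exact_mod_cast h2
      exact h3.trans hfl
    have ha₁M : 0 ≤ a₁ * M := by positivity
    have hr0' : (0 : ℝ) < r := by linarith
    have hr0 : 0 < r := by exact_mod_cast hr0'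
    obtain ⟨g1, g2⟩ := real5 (ε := ε) (s₀ := s₀) (c := c) (b := b) (σ := σ) (M := M) (LQ := LQ) (r := r) hs₀ hs₀1
      hs₀ε hc0 hc2 hcε hb hbε hb1 hσ hσ1 hM0 hLQ0 hLQM hr0'.le (hr2.trans hY10)
    have hrJ : ((1 / 2 + s₀) * LQ + b * M) / (s₀ + 2 * σ - 1 - 2 * c) / r ≤ J := by
      rw [div_le_iff₀ hr0']
      refine g1.trans ?_
      have h2 : 5 / a₁ * (a₁ * M) ≤ J * (a₁ * M) := mul_le_mul_of_nonneg_right hJ ha₁M
      have h3 : 5 / a₁ * (a₁ * M) = 5 * M := by field_simp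
      have h4 : (J : ℝ) * (a₁ * M) ≤ J * r := mul_le_mul_of_nonneg_left (by linarith) (Nat.cast_nonneg J)
      linarith
    have h2 := one_block hPow hs₀ hc0 hc2 hη0 hηJ hb hBlk (X := VX K) (ι := {f // rr f = r})
      (u := fun f => u f.1) (L := LV) (s := fun f => s f.1) (F := fun f g => F f.1 g.1) (w := w) (cf := cf)
      (σ := σ) (M := M) (LQ := LQ) (x := x) (y := y) (Y := Y) (r := r) LV_nonneg (by linarith) hσ1 hM0 hLQ0
      (fun f => hs1 f.1) (fun f => hs3 f.1) (fun f => husum f.1) (fun f => hD1' f.1) hwsum2 hD'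
      (fun f => huw f.1) (fun f g hfg => (hF f.1 g.1 fun h' => hfg (Subtype.ext h')).1)
      (fun f g hfg => hFb f.1 g.1 fun h' => hfg (Subtype.ext h')) hcf hCbM h8M hr0 hrJ hfl4
      (fun f => by
        have := hrr2 f.1
        rw [f.2] at this
        exact this)
    refine h2.trans (mul_le_mul_of_nonneg_left (Real.exp_le_exp.2 ?_) (by norm_num))
    have h5 : η * (2 * J + 4 + 8 * J ^ 2) * M ≤ b * M := mul_le_mul_of_nonneg_right hηJ hM0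
    have h6 : (2 - 2 * σ) * r ≤ (2 - 2 * σ) * Y := mul_le_mul_of_nonneg_left hr2 (by linarith)
    have h7 : η * (2 * J + 3 + 8 * J ^ 2) * M + η * M = η * (2 * J + 4 + 8 * J ^ 2) * M := by ring
    linarith)
  refine hfin.trans ?_
  rw [Finset.card_range]
  have hcl : (((⌊Y⌋₊ + 1 : ℕ)) : ℝ) * 2 ≤ Real.exp (ε / 2 * M) := by
    refine le_trans ?_ hAM2
    push_cast
    linarith
  calc _ = (((⌊Y⌋₊ + 1 : ℕ)) : ℝ) * 2 * Real.exp (ε / 2 * M + (2 - 2 * σ) * (LQ / (4 * σ - 2) + Y)) := by ring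
    _ ≤ Real.exp (ε / 2 * M) * Real.exp (ε / 2 * M + (2 - 2 * σ) * (LQ / (4 * σ - 2) + Y)) :=
        mul_le_mul_of_nonneg_right hcl (Real.exp_pos _).le
    _ = _ := by
        rw [← Real.exp_add]
        congr 1
        ring

end Pool.Agent.U615.ZH
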