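import Pool.Agent.N846.HU.CoreL
import Pool.Agent.N846.ZD.Stm2
import Pool.Agent.U615.ZH.Real

/-! The second class of zeros: a large value on the critical line. -/

set_option autoImplicit false

namespace Pool.Agent.U615.ZH

open Filter Topology Complex MeasureTheory Set NumberField IsDedekindDomain
open Pool.Agent.TH949.LT (TT Lam VV VV_nonneg VV_le)
open Pool.Agent.N846.DT (PairF co Uc co_abs summ_mono' summ_cs Lam_nonneg half_exp)
open Pool.Agent.N846.DU (VX LV Nv logRS RS GLFamily Rep LV_nonneg one_le_cond shift_cond shift_cond' S_LEFT S_DIAG)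
open Pool.Agent.N846.LM (Twists)
open Pool.Agent.N846.ZD (Ph Maj Supp S_POW S_CONV S_BLOCK absorb S_CVX data)
open Pool.Agent.N846.LV (S_LVD cross)
open Pool.Agent.N846.HU (S_DET S_PL core0)

theorem class2 (hPow : S_POW) (hConv : S_CONV) (hBl : S_BLOCK) (hL : S_LEFT) (hDi : S_DIAG) (hLvd : S_LVD)
    (hDet : S_DET) (hPl : S_PL)
    (K : Type) [Field K] [NumberField K] (n N n' N' N'' k : ℕ) (hn : 1 ≤ n) {ε : ℝ} (hε : 0 < ε) :
    ∃ ω E₀ : ℝ, 0 < ω ∧ 1 ≤ E₀ ∧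
    ∀ (ι : Type) [Fintype ι] (S : ι → Finset (HeightOneSpectrum (𝓞 K)))
      (α : ι → HeightOneSpectrum (𝓞 K) → Fin n → ℂ) (u : ι → VX K → ℂ) (q : ι → ι → ℝ) (κ : ι → ι → Fin N → ℂ)
      (S' : Finset (HeightOneSpectrum (𝓞 K))) (α' : HeightOneSpectrum (𝓞 K) → Fin n' → ℂ) (w : VX K → ℂ) (q' : ℝ)
      (κ' : Fin N'' → ℂ) (qs : ι → ℝ) (μ : ι → Fin N' → ℂ) (L : ι → ℂ → ℂ),
      GLFamily n N S α u q κ → Twists n' N' N'' u S' α' w q' κ' qs μ L →
      ∀ (t v : ι → ℝ) (T C Q Q' : ℝ), 0 ≤ T → 1 ≤ C → 1 ≤ Q → q' * ∏ j, (1 + ‖κ' j‖) ≤ Q' →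
        E₀ ≤ C * Q * Q' → (∀ f, ∏ v ∈ S f, Nv v ≤ C * Q * Q') →
        (∀ f, qs f * ∏ j, (1 + ‖μ f j + t f * I‖) ≤ C) →
        (∀ f g, q f g * ∏ j, (1 + ‖κ f g j + (t f - t g) * I‖) ≤ Q) →
        (∀ f, |v f| ≤ Real.exp (ω * Real.log (C * Q * Q'))) →
        (∀ f, Real.exp (ε * Real.log (C * Q * Q') + T) ≤ ‖L f (1 / 2 + (t f + v f : ℝ) * I)‖) →
        (Fintype.card ι : ℝ) ≤ Real.exp (ε * Real.log (C * Q * Q') +
          max (k * (Real.log C / 2)) (Real.log Q) - 2 * k * T) := by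
  have hk0 : (0 : ℝ) ≤ k := Nat.cast_nonneg k
  have hN0 : (0 : ℝ) ≤ N := Nat.cast_nonneg N
  have hN'0 : (0 : ℝ) ≤ N' := Nat.cast_nonneg N'
  obtain ⟨ε₁, hε₁⟩ : ∃ ε₁ : ℝ, ε₁ = ε / (8 * (k + 1)) := ⟨_, rfl⟩
  have hε₁0 : 0 < ε₁ := by rw [hε₁]; positivity
  have hε₁k : 8 * (k + 1) * ε₁ = ε := by rw [hε₁]; field_simp
  obtain ⟨E₁, hE₁1, hE₁⟩ := core0 hPow hConv hBl hL hDi hLvd hDet hPl K n N n' N' N'' k hn (ε := ε₁ / 2)
    (by positivity)
  obtain ⟨ω, hω⟩ : ∃ ω : ℝ, ω = min 1 ε₁ / (8 * (N + N' + k * N' + 1)) := ⟨_, rfl⟩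
  have hω0 : 0 < ω := by rw [hω]; positivity
  have hωe : ω * (8 * (N + N' + k * N' + 1)) = min 1 ε₁ := by rw [hω]; field_simp
  have hω1 : ω * (8 * (N + N' + k * N' + 1)) ≤ 1 := by rw [hωe]; exact min_le_left _ _
  have hω2 : ω * (8 * (N + N' + k * N' + 1)) ≤ ε₁ := by rw [hωe]; exact min_le_right _ _
  obtain ⟨E₂, hE₂1, hE₂⟩ := absorb hω0 (1 + 2)
  refine ⟨ω, max E₁ E₂, hω0, hE₁1.trans (le_max_left _ _), ?_⟩
  intro ι _ S α u q κ S' α' w q' κ' qs μ L h hT t v T C Q Q' hT0 hC hQ hcQ' hGE hram hcC hcQ hv hlarge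
  have hGE1 : E₁ ≤ C * Q * Q' := (le_max_left _ _).trans hGE
  have hGE2 : E₂ ≤ C * Q * Q' := (le_max_right _ _).trans hGE
  obtain ⟨h3M, -⟩ := hE₂ _ hGE2
  have hC0 : 0 < C := by linarith
  have hQ0 : 0 < Q := by linarith
  have hQ'1 : 1 ≤ Q' := by
    have h2 := one_le_cond (κ := κ') hT.self.one_le 0
    simp only [add_zero] at h2
    linarith
  have hQ'0 : 0 < Q' := by linarith
  have hG0 : 0 < C * Q * Q' := by positivity
  have hG1 : 1 ≤ C * Q * Q' := hE₁1.trans hGE1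
  obtain ⟨M, hM⟩ : ∃ M, M = Real.log (C * Q * Q') := ⟨_, rfl⟩
  have hM0 : 0 ≤ M := by rw [hM]; exact Real.log_nonneg hG1
  rw [← hM] at h3M hv hlarge
  -- the factor
  obtain ⟨P, hP⟩ : ∃ P : ℝ, P = Real.exp (2 * ω * M) := ⟨_, rfl⟩
  have hωM : 0 ≤ ω * M := by positivity
  have hP1 : 1 ≤ P := by rw [hP]; exact Real.one_le_exp (by positivity)
  have hP0 : 0 < P := by linarith
  have hRP : 1 + 2 * Real.exp (ω * M) ≤ P := by
    have h1 : 1 ≤ Real.exp (ω * M) := Real.one_le_exp hωM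
    have h2 : P = Real.exp (ω * M) * Real.exp (ω * M) := by
      rw [hP, ← Real.exp_add]
      congr 1
      ring
    rw [h2]
    nlinarith
  have hlogP : Real.log P = 2 * ω * M := by rw [hP, Real.log_exp]
  obtain ⟨C₂, hC₂⟩ : ∃ C₂ : ℝ, C₂ = P ^ N' * C := ⟨_, rfl⟩
  obtain ⟨Q₁, hQ₁⟩ : ∃ Q₁ : ℝ, Q₁ = P ^ N * Q := ⟨_, rfl⟩
  have hPN' : 1 ≤ P ^ N' := one_le_pow₀ hP1
  have hPN : 1 ≤ P ^ N := one_le_pow₀ hP1
  have hCC₂ : C ≤ C₂ := by rw [hC₂]; exact le_mul_of_one_le_left hC0.le hPN'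
  have hQQ₁ : Q ≤ Q₁ := by rw [hQ₁]; exact le_mul_of_one_le_left hQ0.le hPN
  have hGG : C * Q * Q' ≤ C₂ * Q₁ * Q' :=
    mul_le_mul_of_nonneg_right (mul_le_mul hCC₂ hQQ₁ hQ0.le (by linarith)) hQ'0.le
  have hC₂0 : 0 < C₂ := by linarith
  have hQ₁0 : 0 < Q₁ := by linarith
  have hlogC₂ : Real.log C₂ = N' * (2 * ω * M) + Real.log C := by
    rw [hC₂, Real.log_mul (by positivity) hC0.ne', Real.log_pow, hlogP]
  have hlogQ₁ : Real.log Q₁ = N * (2 * ω * M) + Real.log Q := by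
    rw [hQ₁, Real.log_mul (by positivity) hQ0.ne', Real.log_pow, hlogP]
  have hlogG : Real.log (C₂ * Q₁ * Q') = N' * (2 * ω * M) + N * (2 * ω * M) + M := by
    rw [Real.log_mul (by positivity) hQ'0.ne', Real.log_mul hC₂0.ne' hQ₁0.ne', hlogC₂, hlogQ₁, hM,
      Real.log_mul (by positivity) hQ'0.ne', Real.log_mul hC0.ne' hQ0.ne']
    ring
  have e1 : ω * (8 * (N + N' + k * N' + 1)) * M ≤ 1 * M := mul_le_mul_of_nonneg_right hω1 hM0
  have e2 : ω * (8 * (N + N' + k * N' + 1)) * M ≤ ε₁ * M := mul_le_mul_of_nonneg_right hω2 hM0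
  have n1 : 0 ≤ (N : ℝ) * (ω * M) := by positivity
  have n2 : 0 ≤ (N' : ℝ) * (ω * M) := by positivity
  have n3 : 0 ≤ (k : ℝ) * N' * (ω * M) := by positivity
  have hlogG2 : Real.log (C₂ * Q₁ * Q') ≤ 2 * M := by
    rw [hlogG]
    nlinarith
  have hq1 : ∀ f g, 1 ≤ q f g := by
    intro f g
    by_cases hfg : f = g
    · rw [hfg]
      exact (h.self g).one_le
    · exact (h.pair f g hfg).one_le
  have hR0 : 0 < Real.exp (ω * M) := Real.exp_pos _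
  have f2 : ∀ f, qs f * ∏ j, (1 + ‖μ f j + (t f + v f : ℝ) * I‖) ≤ C₂ := by
    intro f
    have h3 := shift_cond' (κ := μ f) (hT.rs f).one_le (z := (t f : ℂ) * I)
      (w := ((v f : ℝ) : ℂ) * I) (c := Real.exp (ω * M)) (by
        rw [norm_mul, Complex.norm_I, mul_one, Complex.norm_real, Real.norm_eq_abs]
        exact hv f)
    rw [hC₂]
    refine le_trans (le_of_eq ?_) (h3.trans (mul_le_mul (pow_le_pow_left₀ (by positivity) (by linarith) _)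
      (hcC f) ?_ (by positivity)))
    · congr 1
      refine Finset.prod_congr rfl fun j _ => ?_
      congr 2
      push_cast
      ring
    · have := (hT.rs f).one_le
      positivity
  have f3 : ∀ f g, q f g * ∏ j, (1 + ‖κ f g j + ((t f + v f : ℝ) - (t g + v g : ℝ)) * I‖) ≤ Q₁ := by
    intro f g
    have h3 := shift_cond' (κ := κ f g) (hq1 f g) (z := ((t f : ℂ) - t g) * I)
      (w := ((v f - v g : ℝ) : ℂ) * I) (c := 2 * Real.exp (ω * M)) (by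
        rw [norm_mul, Complex.norm_I, mul_one, Complex.norm_real, Real.norm_eq_abs]
        refine (abs_sub _ _).trans ?_
        linarith [hv f, hv g])
    rw [hQ₁]
    refine le_trans (le_of_eq ?_) (h3.trans (mul_le_mul (pow_le_pow_left₀ (by positivity) (by linarith) _)
      (hcQ f g) ?_ (by positivity)))
    · congr 1
      refine Finset.prod_congr rfl fun j _ => ?_
      congr 2
      push_cast
      ring
    · have := hq1 f g
      positivity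
  obtain ⟨T₁, hT₁⟩ : ∃ T₁ : ℝ, T₁ = T + (ε - ε₁) * M := ⟨_, rfl⟩
  have hεε₁ : ε₁ ≤ ε / 8 := by
    have : 8 * ε₁ * 1 ≤ 8 * ε₁ * (k + 1) := mul_le_mul_of_nonneg_left (by linarith) (by positivity)
    nlinarith
  have hT₁0 : T ≤ T₁ := by
    rw [hT₁]
    have : 0 ≤ (ε - ε₁) * M := mul_nonneg (by linarith) hM0
    linarith
  have hmain := hE₁ ι S α u q κ S' α' w q' κ' qs μ L h hT (fun f => t f + v f) T₁ C₂ Q₁ Q' (hT0.trans hT₁0)
    (hC.trans hCC₂) (hQ.trans hQQ₁) hcQ' (hGE1.trans hGG) (fun f => (hram f).trans hGG) (fun f => by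
      refine le_trans (Real.exp_le_exp.2 ?_) (hlarge f)
      rw [hT₁]
      have : ε₁ / 2 * Real.log (C₂ * Q₁ * Q') ≤ ε₁ / 2 * (2 * M) := mul_le_mul_of_nonneg_left hlogG2 (by positivity)
      linarith) f2 f3
  refine hmain.trans (Real.exp_le_exp.2 ?_)
  have h1 : ε₁ / 2 * Real.log (C₂ * Q₁ * Q') ≤ ε₁ / 2 * (2 * M) := mul_le_mul_of_nonneg_left hlogG2 (by positivity)
  have h2 : max (k * (Real.log C₂ / 2)) (Real.log Q₁) ≤ max (k * (Real.log C / 2)) (Real.log Q) + ε₁ * M := by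
    refine max_le ?_ ?_
    · have := le_max_left (k * (Real.log C / 2)) (Real.log Q)
      rw [hlogC₂]
      nlinarith
    · have := le_max_right (k * (Real.log C / 2)) (Real.log Q)
      rw [hlogQ₁]
      nlinarith
  have h3 : 2 * k * T ≤ 2 * k * T₁ := mul_le_mul_of_nonneg_left hT₁0 (by positivity)
  have h4 : ε₁ * M * 2 ≤ ε * M := by
    have : ε₁ * M ≤ ε / 8 * M := mul_le_mul_of_nonneg_right hεε₁ hM0
    have h5 : 0 ≤ ε * M := by positivity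
    linarith
  rw [← hM]
  linarith

/-- a bound on the critical line, polynomial in the shift -/
theorem line3 (hL : S_LEFT) (hDi : S_DIAG) (hCvx : S_CVX)
    (K : Type) [Field K] [NumberField K] (n N n' N' N'' : ℕ) : ∃ E₀ : ℝ, 1 ≤ E₀ ∧
    ∀ (ι : Type) (S : ι → Finset (HeightOneSpectrum (𝓞 K)))
      (α : ι → HeightOneSpectrum (𝓞 K) → Fin n → ℂ) (u : ι → VX K → ℂ) (q : ι → ι → ℝ) (κ : ι → ι → Fin N → ℂ)
      (S' : Finset (HeightOneSpectrum (𝓞 K))) (α' : HeightOneSpectrum (𝓞 K) → Fin n' → ℂ) (w : VX K → ℂ) (q' : ℝ)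
      (κ' : Fin N'' → ℂ) (qs : ι → ℝ) (μ : ι → Fin N' → ℂ) (L : ι → ℂ → ℂ),
      GLFamily n N S α u q κ → Twists n' N' N'' u S' α' w q' κ' qs μ L →
      ∀ (t : ι → ℝ) (C Q Q' : ℝ), 1 ≤ C → 1 ≤ Q → q' * ∏ j, (1 + ‖κ' j‖) ≤ Q' →
        E₀ ≤ C * Q * Q' →
        (∀ f, qs f * ∏ j, (1 + ‖μ f j + t f * I‖) ≤ C) →
        (∀ f g, q f g * ∏ j, (1 + ‖κ f g j + (t f - t g) * I‖) ≤ Q) →
        ∀ f, ∀ v : ℝ, ‖L f (((1 / 2 : ℝ) : ℂ) + (t f + v : ℝ) * I)‖ ≤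
          Real.exp (2 * Real.log (C * Q * Q')) * (1 + |v|) ^ (N' * (1 / 2 + 1 : ℝ)) := by
  obtain ⟨η, hη⟩ : ∃ η : ℝ, η = 1 / 10 := ⟨_, rfl⟩
  have hη0 : 0 < η := by rw [hη]; norm_num
  obtain ⟨c, hc⟩ : ∃ c : ℝ, c = 1 / 4 := ⟨_, rfl⟩
  have hc0 : 0 < c := by rw [hc]; norm_num
  obtain ⟨K₁, hK₁, hdat⟩ := data hL hDi K n N n' N' N'' (σ₀ := 1) (σ₁ := 1) (c := c) (η := η) one_pos one_pos hc0 hη0
  obtain ⟨A, hA⟩ : ∃ A : ℝ, A = N' * (1 / 2 + 1 : ℝ) := ⟨_, rfl⟩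
  have hA0 : 0 ≤ A := by rw [hA]; positivity
  obtain ⟨Cc, hCc1, hcv⟩ := hCvx 1 c A one_pos hc0 hA0
  obtain ⟨E₁, hE₁1, hE₁⟩ := absorb hη0 (K₁ + Cc)
  refine ⟨E₁, hE₁1, ?_⟩
  intro ι S α u q κ S' α' w q' κ' qs μ L h hT t C Q Q' hC hQ hcQ' hGE hcC hcQ f v
  have hC0 : 0 < C := by linarith
  have hQ0 : 0 < Q := by linarith
  have hQ'1 : 1 ≤ Q' := by
    have h2 := one_le_cond (κ := κ') hT.self.one_le 0
    simp only [add_zero] at h2
    linarith
  have hCG : C ≤ C * Q * Q' := by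
    have h1 : C ≤ C * Q := le_mul_of_one_le_right hC0.le hQ
    exact h1.trans (le_mul_of_one_le_right (by positivity) hQ'1)
  have hG0 : 0 < C * Q * Q' := by linarith
  obtain ⟨hAM, -⟩ := hE₁ _ hGE
  have hLC0 : 0 ≤ Real.log C := Real.log_nonneg hC
  have hLCM : Real.log C ≤ Real.log (C * Q * Q') := Real.log_le_log hC0 hCG
  have hGη : (C * Q * Q') ^ η = Real.exp (η * Real.log (C * Q * Q')) := by
    rw [Real.rpow_def_of_pos hG0, mul_comm]
  obtain ⟨hD1, hDw, -, hLf⟩ := hdat ι S α u q κ S' α' w q' κ' qs μ L h hT t C Q Q' hC hQ hcQ' hcC hcQ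
  rw [hGη] at hD1 hDw hLf
  obtain ⟨M, hM⟩ : ∃ M, M = Real.log (C * Q * Q') := ⟨_, rfl⟩
  rw [← hM] at hD1 hDw hLf hAM hLCM ⊢
  have hM0 : 0 ≤ M := hLC0.trans hLCM
  have hηM : 0 ≤ η * M := by positivity
  have hK₁0 : 0 ≤ K₁ := by linarith
  have hKM : K₁ ≤ Real.exp (η * M) := le_trans (by linarith) hAM
  have hCM : Cc ≤ Real.exp (η * M) := le_trans (by linarith) hAM
  have hKG : K₁ * Real.exp (η * M) ≤ Real.exp (2 * η * M) := by
    calc K₁ * Real.exp (η * M) ≤ Real.exp (η * M) * Real.exp (η * M) :=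
          mul_le_mul_of_nonneg_right hKM (Real.exp_pos _).le
      _ = _ := by rw [← Real.exp_add]; congr 1; ring
  have hwsum : Summable fun x => ‖w x‖ ^ 2 * Real.exp (-((1 + c) * LV x)) := hT.rep.summable _ (by linarith)
  have husum : ∀ f, Summable fun x => ‖u f x‖ ^ 2 * Real.exp (-((1 + c) * LV x)) := fun f =>
    (h.rep f).summable _ (by linarith)
  have huw : ∀ f, Summable fun v => ‖u f v‖ * ‖w v‖ * Real.exp (-((1 + c) * LV v)) := fun f =>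
    summ_cs (husum f) hwsum
  have hDuw := cross (husum f) hwsum (huw f) ((hD1 f).trans hKG) (hDw.trans hKG)
  have hLe : ∀ v' : ℝ, ‖L f (((-1 : ℝ) : ℂ) + ((t f + v) + v' : ℝ) * I)‖ ≤
      (Real.exp (3 / 2 * M + 2 * η * M) * (1 + |v|) ^ A) * (1 + |v'|) ^ A := by
    intro v'
    have h1 := (hLf f).2 (v + v')
    rw [← add_assoc] at h1
    refine h1.trans ?_
    rw [← hA]
    have h2 : C ^ ((1 : ℝ) / 2 + 1) ≤ Real.exp (3 / 2 * M) := by
      rw [Real.rpow_def_of_pos hC0]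
      refine Real.exp_le_exp.2 ?_
      linarith
    have h3 : (1 + |v + v'|) ^ A ≤ (1 + |v|) ^ A * (1 + |v'|) ^ A := by
      rw [← Real.mul_rpow (by positivity) (by positivity)]
      refine Real.rpow_le_rpow (by positivity) ?_ hA0
      have h4 := abs_add_le v v'
      nlinarith [abs_nonneg v, abs_nonneg v']
    have h5 : K₁ * C ^ ((1 : ℝ) / 2 + 1) * Real.exp (η * M) ≤ Real.exp (3 / 2 * M + 2 * η * M) := by
      rw [Real.exp_add]
      calc _ = C ^ ((1 : ℝ) / 2 + 1) * (K₁ * Real.exp (η * M)) := by ring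
        _ ≤ _ := mul_le_mul h2 hKG (by positivity) (Real.exp_pos _).le
    calc _ ≤ Real.exp (3 / 2 * M + 2 * η * M) * ((1 + |v|) ^ A * (1 + |v'|) ^ A) :=
          mul_le_mul h5 h3 (by positivity) (Real.exp_pos _).le
      _ = _ := by ring
  have hRe : ∀ v' : ℝ, ‖L f (((1 + c : ℝ) : ℂ) + ((t f + v) + v' : ℝ) * I)‖ ≤ Real.exp (2 * η * M) := by
    intro v'
    have hre : (((1 + c : ℝ) : ℂ) + ((t f + v) + v' : ℝ) * I).re = 1 + c := by simp
    rw [hT.eq f _ (by rw [hre]; linarith), Complex.norm_exp]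
    refine le_trans (Real.exp_le_exp.2 ?_) hDuw
    refine (Complex.re_le_norm _).trans ?_
    refine tsum_of_norm_bounded (huw f).hasSum fun z => ?_
    rw [norm_mul, norm_mul, RCLike.norm_conj, Complex.norm_exp]
    refine mul_le_mul_of_nonneg_left (Real.exp_le_exp.2 (le_of_eq ?_)) (by positivity)
    simp
  have hv1 : 1 ≤ (1 + |v|) ^ A := Real.one_le_rpow (by linarith [abs_nonneg v]) hA0
  have hB1 : 1 ≤ Real.exp (3 / 2 * M + 2 * η * M) * (1 + |v|) ^ A :=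
    one_le_mul_of_one_le_of_one_le (Real.one_le_exp (by positivity)) hv1
  have hfin := hcv (L f) (t f + v) _ (Real.exp (2 * η * M)) (hT.diff f) (hLf f).1.growth hB1
    (Real.one_le_exp (by positivity)) hLe hRe (((1 / 2 : ℝ) : ℂ) + (t f + v : ℝ) * I) (by simp; norm_num)
    (by simp; linarith) (by simp)
  rw [← hA]
  refine hfin.trans ?_
  calc _ ≤ Real.exp (η * M) * (Real.exp (3 / 2 * M + 2 * η * M) * (1 + |v|) ^ A * Real.exp (2 * η * M)) :=
        mul_le_mul_of_nonneg_right hCM (by positivity)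
    _ = Real.exp (η * M + (3 / 2 * M + 2 * η * M) + 2 * η * M) * (1 + |v|) ^ A := by
        rw [Real.exp_add (η * M + (3 / 2 * M + 2 * η * M)) (2 * η * M),
          Real.exp_add (η * M) (3 / 2 * M + 2 * η * M)]
        ring
    _ ≤ _ := by
        refine mul_le_mul_of_nonneg_right (Real.exp_le_exp.2 ?_) (by positivity)
        rw [hη]
        linarith

end Pool.Agent.U615.ZH
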