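import Mathlib

/-! Comparison of the bounds for different parameters. -/

set_option autoImplicit false

namespace Pool.Agent.U615.ZH

open Filter Topology

theorem cmp3 {C Q Y G P C₁ Q₁ a a₂ b b₂ δ s s₂ : ℝ} {k : ℕ} (hC : 1 ≤ C) (hQ : 1 ≤ Q) (hY : 1 ≤ Y) (hP : 1 ≤ P)
    (hC₁0 : 0 < C₁) (hQ₁0 : 0 < Q₁)
    (hC₁ : C₁ ≤ P * C) (hQ₁ : Q₁ ≤ P * Q) (hYG : Y ≤ G) (hQG : Q ≤ G) (hδ : 0 ≤ δ) (ha₂ : 0 ≤ a₂) (ha₂1 : a₂ ≤ 1)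
    (ha : a₂ ≤ a + δ) (hb : b₂ ≤ b + δ) (hs : k * s ≤ k * s₂ + δ) :
    Q₁ ^ a₂ * Y ^ b₂ + (C₁ ^ ((k : ℝ) / 2) + Q₁) * Y ^ (-(k * s₂)) ≤
      P ^ (k + 1) * G ^ (2 * δ) * (Q ^ a * Y ^ b + (C ^ ((k : ℝ) / 2) + Q) * Y ^ (-(k * s))) := by
  have hC0 : 0 < C := by linarith
  have hQ0 : 0 < Q := by linarith
  have hY0 : 0 < Y := by linarith
  have hP0 : 0 < P := by linarith
  have hG1 : 1 ≤ G := hY.trans hYG
  have hG0 : 0 < G := by linarith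
  have hGd : 1 ≤ G ^ δ := Real.one_le_rpow hG1 hδ
  have hPk : P ≤ P ^ (k + 1) := by
    calc P = P ^ 1 := (pow_one P).symm
      _ ≤ _ := pow_le_pow_right₀ hP (by omega)
  have hPk1 : 1 ≤ P ^ (k + 1) := hP.trans hPk
  have hG2 : G ^ (2 * δ) = G ^ δ * G ^ δ := by
    rw [← Real.rpow_add hG0]
    congr 1
    ring
  have hYd : Y ^ δ ≤ G ^ δ := Real.rpow_le_rpow hY0.le hYG hδ
  have hQd : Q ^ δ ≤ G ^ δ := Real.rpow_le_rpow hQ0.le hQG hδ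
  have e1 : Q₁ ^ a₂ ≤ P ^ (k + 1) * (G ^ δ * Q ^ a) := by
    calc Q₁ ^ a₂ ≤ (P * Q) ^ a₂ := Real.rpow_le_rpow hQ₁0.le hQ₁ ha₂
      _ = P ^ a₂ * Q ^ a₂ := Real.mul_rpow hP0.le hQ0.le
      _ ≤ P ^ (k + 1) * (G ^ δ * Q ^ a) := by
        refine mul_le_mul ?_ ?_ (by positivity) (by positivity)
        · calc P ^ a₂ ≤ P ^ (1 : ℝ) := Real.rpow_le_rpow_of_exponent_le hP ha₂1
            _ = P := Real.rpow_one P
            _ ≤ _ := hPk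
        · calc Q ^ a₂ ≤ Q ^ (δ + a) := Real.rpow_le_rpow_of_exponent_le hQ (by linarith)
            _ = Q ^ δ * Q ^ a := Real.rpow_add hQ0 _ _
            _ ≤ _ := mul_le_mul_of_nonneg_right hQd (by positivity)
  have e2 : Y ^ b₂ ≤ G ^ δ * Y ^ b := by
    calc Y ^ b₂ ≤ Y ^ (δ + b) := Real.rpow_le_rpow_of_exponent_le hY (by linarith)
      _ = Y ^ δ * Y ^ b := Real.rpow_add hY0 _ _
      _ ≤ _ := mul_le_mul_of_nonneg_right hYd (by positivity)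
  have e3 : Y ^ (-(k * s₂)) ≤ G ^ δ * Y ^ (-(k * s)) := by
    calc Y ^ (-(k * s₂)) ≤ Y ^ (δ + -(k * s)) := Real.rpow_le_rpow_of_exponent_le hY (by linarith)
      _ = Y ^ δ * Y ^ (-(k * s)) := Real.rpow_add hY0 _ _
      _ ≤ _ := mul_le_mul_of_nonneg_right hYd (by positivity)
  have e4 : C₁ ^ ((k : ℝ) / 2) ≤ P ^ (k + 1) * C ^ ((k : ℝ) / 2) := by
    calc C₁ ^ ((k : ℝ) / 2) ≤ (P * C) ^ ((k : ℝ) / 2) := Real.rpow_le_rpow hC₁0.le hC₁ (by positivity)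
      _ = P ^ ((k : ℝ) / 2) * C ^ ((k : ℝ) / 2) := Real.mul_rpow hP0.le hC0.le
      _ ≤ _ := by
        refine mul_le_mul_of_nonneg_right ?_ (by positivity)
        rw [← Real.rpow_natCast P (k + 1)]
        refine Real.rpow_le_rpow_of_exponent_le hP ?_
        push_cast
        have : (0 : ℝ) ≤ k := Nat.cast_nonneg k
        linarith
  have e5 : C₁ ^ ((k : ℝ) / 2) + Q₁ ≤ P ^ (k + 1) * (C ^ ((k : ℝ) / 2) + Q) := by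
    have : Q₁ ≤ P ^ (k + 1) * Q := hQ₁.trans (mul_le_mul_of_nonneg_right hPk hQ0.le)
    linarith
  have f1 : Q₁ ^ a₂ * Y ^ b₂ ≤ P ^ (k + 1) * G ^ (2 * δ) * (Q ^ a * Y ^ b) := by
    calc _ ≤ (P ^ (k + 1) * (G ^ δ * Q ^ a)) * (G ^ δ * Y ^ b) := mul_le_mul e1 e2 (by positivity) (by positivity)
      _ = _ := by rw [hG2]; ring
  have f2 : (C₁ ^ ((k : ℝ) / 2) + Q₁) * Y ^ (-(k * s₂)) ≤
      P ^ (k + 1) * G ^ (2 * δ) * ((C ^ ((k : ℝ) / 2) + Q) * Y ^ (-(k * s))) := by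
    have p1 : 0 < C ^ ((k : ℝ) / 2) + Q := by positivity
    calc _ ≤ (P ^ (k + 1) * (C ^ ((k : ℝ) / 2) + Q)) * (G ^ δ * Y ^ (-(k * s))) :=
          mul_le_mul e5 e3 (by positivity) (by positivity)
      _ ≤ (P ^ (k + 1) * (C ^ ((k : ℝ) / 2) + Q)) * ((G ^ δ * G ^ δ) * Y ^ (-(k * s))) := by
          refine mul_le_mul_of_nonneg_left (mul_le_mul_of_nonneg_right ?_ (by positivity)) (by positivity)
          exact le_mul_of_one_le_left (by positivity) hGd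
      _ = _ := by rw [hG2]; ring
  calc _ ≤ P ^ (k + 1) * G ^ (2 * δ) * (Q ^ a * Y ^ b) +
        P ^ (k + 1) * G ^ (2 * δ) * ((C ^ ((k : ℝ) / 2) + Q) * Y ^ (-(k * s))) := add_le_add f1 f2
    _ = _ := by ring

theorem below3 {σ δ : ℝ} (k : ℕ) (hσ : 1 / 2 < σ) (hδ : 0 < δ) : ∃ σ₂ : ℝ, 1 / 2 < σ₂ ∧ σ₂ < σ ∧
    2 - 2 * σ₂ ≤ (2 - 2 * σ) + δ ∧ (2 - 2 * σ₂) * (2 * σ₂ - 1) ≤ (2 - 2 * σ) * (2 * σ - 1) + δ ∧
    (3 / 4 < σ → 3 / 4 ≤ σ₂ ∧ (2 - 2 * σ₂) / (4 * σ₂ - 2) ≤ (2 - 2 * σ) / (4 * σ - 2) + δ) ∧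
    k * (2 * σ - 1) ≤ k * (2 * σ₂ - 1) + δ := by
  have c1 : ContinuousAt (fun x : ℝ => 2 - 2 * x) σ := by fun_prop
  have c2 : ContinuousAt (fun x : ℝ => (2 - 2 * x) * (2 * x - 1)) σ := by fun_prop
  have c3 : ContinuousAt (fun x : ℝ => (2 - 2 * x) / (4 * x - 2)) σ := by
    refine ContinuousAt.div (by fun_prop) (by fun_prop) ?_
    intro h
    linarith
  have c4 : ContinuousAt (fun x : ℝ => k * (2 * x - 1) + δ) σ := by fun_prop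
  have e1 : ∀ᶠ x in 𝓝 σ, 2 - 2 * x < (2 - 2 * σ) + δ := c1.eventually_lt_const (by linarith)
  have e2 : ∀ᶠ x in 𝓝 σ, (2 - 2 * x) * (2 * x - 1) < (2 - 2 * σ) * (2 * σ - 1) + δ :=
    c2.eventually_lt_const (by linarith)
  have e3 : ∀ᶠ x in 𝓝 σ, (2 - 2 * x) / (4 * x - 2) < (2 - 2 * σ) / (4 * σ - 2) + δ :=
    c3.eventually_lt_const (by linarith)
  have e4 : ∀ᶠ x in 𝓝 σ, k * (2 * σ - 1) < k * (2 * x - 1) + δ := c4.eventually_const_lt (by linarith)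
  have e5 : ∀ᶠ x in 𝓝 σ, 1 / 2 < x := eventually_gt_nhds hσ
  have e6 : ∀ᶠ x in 𝓝 σ, 3 / 4 < σ → 3 / 4 < x := by
    by_cases h : 3 / 4 < σ
    · filter_upwards [eventually_gt_nhds h] with x hx _
      exact hx
    · exact Eventually.of_forall fun x h' => absurd h' h
  have e7 := ((e1.and (e2.and (e3.and (e4.and (e5.and e6))))).filter_mono
    (nhdsWithin_le_nhds (s := Set.Iio σ))).and self_mem_nhdsWithin
  obtain ⟨x, ⟨h1, h2, h3, h4, h5, h6⟩, h7⟩ := e7.exists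
  exact ⟨x, h5, h7, h1.le, h2.le, fun h => ⟨(h6 h).le, h3.le⟩, h4.le⟩

end Pool.Agent.U615.ZH
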