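import Pool.Agent.U615.ZH.Cl1
import Pool.Agent.U615.ZH.Cl1b
import Pool.Agent.U615.ZH.Cl2
import Pool.Agent.U615.ZH.Det3

/-! The zero density theorem for large conductors. -/

set_option autoImplicit false

namespace Pool.Agent.U615.ZH

open Filter Topology Complex MeasureTheory Set NumberField IsDedekindDomain
open Pool.Agent.TH949.LT (TT Lam VV VV_nonneg VV_le)
open Pool.Agent.N846.DT (PairF co Uc co_abs summ_mono' summ_cs Lam_nonneg half_exp)
open Pool.Agent.N846.DU (VX LV Nv logRS RS GLFamily Rep LV_nonneg one_le_cond S_LEFT S_DIAG)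
open Pool.Agent.N846.LM (Twists)
open Pool.Agent.N846.ZD (Ph Maj Supp S_POW S_CONV S_BLOCK S_MOLL S_MB absorb S_CVX data pig)
open Pool.Agent.N846.LV (S_LVD cross)
open Pool.Agent.N846.HU (S_DET S_PL count0)

/-- the parameters -/
theorem params4 {ε : ℝ} (hε : 0 < ε) (k : ℕ) : ∃ e a₁ a : ℝ, 0 < e ∧ e ≤ 1 ∧ 8 * (k + 1) * e ≤ ε ∧ 0 < a₁ ∧
    8 * a₁ = e ∧ a₁ ≤ 1 ∧ 2 ≤ a ∧ 16 ≤ ε * (a - 1) := by
  obtain ⟨e, he⟩ : ∃ e : ℝ, e = min 1 ε / (8 * (k + 1)) := ⟨_, rfl⟩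
  have he0 : 0 < e := by rw [he]; positivity
  have he1 : e * (8 * (k + 1)) = min 1 ε := by rw [he]; field_simp
  have hk : (0 : ℝ) ≤ k := Nat.cast_nonneg k
  have h1 : e * (8 * (k + 1)) ≤ 1 := by rw [he1]; exact min_le_left _ _
  have h2 : e * (8 * (k + 1)) ≤ ε := by rw [he1]; exact min_le_right _ _
  have h3 : 0 ≤ e * k := by positivity
  refine ⟨e, e / 8, 2 + 16 / ε, he0, by nlinarith, by linarith, by positivity, by ring, by nlinarith, ?_, ?_⟩
  · have : 0 < 16 / ε := by positivity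
    linarith
  · have : ε * (2 + 16 / ε - 1) = ε + 16 := by field_simp; ring
    linarith

theorem core3 (hPow : S_POW) (hConv : S_CONV) (hMo : S_MOLL) (hMb : S_MB) (hBl : S_BLOCK) (hL : S_LEFT)
    (hDi : S_DIAG) (hLvd : S_LVD) (hDet : S_DET) (hPl : S_PL) (hCvx : S_CVX)
    (K : Type) [Field K] [NumberField K] (n N n' N' N'' k : ℕ) (hn : 1 ≤ n) {ε : ℝ} (hε : 0 < ε) :
    ∃ E₀ : ℝ, 1 ≤ E₀ ∧
    ∀ (ι : Type) [Fintype ι] (S : ι → Finset (HeightOneSpectrum (𝓞 K)))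
      (α : ι → HeightOneSpectrum (𝓞 K) → Fin n → ℂ) (u : ι → VX K → ℂ) (q : ι → ι → ℝ) (κ : ι → ι → Fin N → ℂ)
      (S' : Finset (HeightOneSpectrum (𝓞 K))) (α' : HeightOneSpectrum (𝓞 K) → Fin n' → ℂ) (w : VX K → ℂ) (q' : ℝ)
      (κ' : Fin N'' → ℂ) (qs : ι → ℝ) (μ : ι → Fin N' → ℂ) (L : ι → ℂ → ℂ),
      GLFamily n N S α u q κ → Twists n' N' N'' u S' α' w q' κ' qs μ L →
      ∀ (ρ : ι → ℂ) (σ C Q Q' y : ℝ), 1 / 2 ≤ σ → σ ≤ 1 → 1 ≤ C → 1 ≤ Q → q' * ∏ j, (1 + ‖κ' j‖) ≤ Q' →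
        E₀ ≤ C * Q * Q' → (∀ f, ∏ v ∈ S f, Nv v ≤ C * Q * Q') →
        (∀ f, L f (ρ f) = 0) → (∀ f, σ ≤ (ρ f).re) →
        (∀ f, qs f * ∏ j, (1 + ‖μ f j + (ρ f).im * I‖) ≤ C) →
        (∀ f g, q f g * ∏ j, (1 + ‖κ f g j + ((ρ f).im - (ρ g).im) * I‖) ≤ Q) →
        0 ≤ y → y ≤ Real.log (C * Q * Q') →
        ∀ Φ : ℝ, (Φ = (2 - 2 * σ) * (Real.log Q + (2 * σ - 1) * y) ∨
          (3 / 4 ≤ σ ∧ Φ = (2 - 2 * σ) * (Real.log Q / (4 * σ - 2) + y))) →
        (Fintype.card ι : ℝ) ≤ Real.exp (ε * Real.log (C * Q * Q') + Φ) +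
          Real.exp (ε * Real.log (C * Q * Q') + max (k * (Real.log C / 2)) (Real.log Q) -
            k * (2 * σ - 1) * y) := by
  classical
  obtain ⟨e, a₁, a, he0, he1, hek, ha₁0, ha₁e, ha₁1, ha2, haε⟩ := params4 hε k
  have hk0 : (0 : ℝ) ≤ k := Nat.cast_nonneg k
  -- the constants
  obtain ⟨E₁, hE₁1, hcl1⟩ := class1 hPow hConv hBl hL hDi hDet hPl K n N n' N' N'' hn (ε := ε / 2) (a₁ := a₁)
    (by positivity) ha₁0
  obtain ⟨E₁', hE₁'1, hcl1'⟩ := class1b hPow hBl hL hDi K n N n' N' N'' (ε := ε / 2) (a₁ := a₁)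
    (by positivity) ha₁0
  obtain ⟨ω, E₂, hω0, hE₂1, hcl2⟩ := class2 hPow hConv hBl hL hDi hLvd hDet hPl K n N n' N' N'' k hn
    (ε := e / 2) (by positivity)
  obtain ⟨E₃, hE₃1, hct⟩ := count0 hPow hConv hBl hL hDi hDet hPl K n N n' N' N'' hn (ε := ε / 2) (by positivity)
  obtain ⟨E₄, hE₄1, hln⟩ := line3 hL hDi hCvx K n N n' N' N''
  obtain ⟨η, hη⟩ : ∃ η : ℝ, η = e / 80 := ⟨_, rfl⟩
  have hη0 : 0 < η := by rw [hη]; positivity
  obtain ⟨c, hc⟩ : ∃ c : ℝ, c = 1 / 4 := ⟨_, rfl⟩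
  have hc0 : 0 < c := by rw [hc]; norm_num
  obtain ⟨K₁, hK₁, hdat⟩ := data hL hDi K n N n' N' N'' (σ₀ := 1) (σ₁ := 1) (c := c) (η := η) one_pos one_pos hc0 hη0
  obtain ⟨A, hA⟩ : ∃ A : ℝ, A = N' * (1 / 2 + 1 : ℝ) := ⟨_, rfl⟩
  have hA0 : 0 ≤ A := by rw [hA]; positivity
  obtain ⟨Cd, hCd0, hdet⟩ := detect3 hMb (k := e / 2) (c := c) (A := A + 2 / ω) (by positivity) hc0 (by rw [hc])
  obtain ⟨E₅, hE₅1, hE₅⟩ := absorb hη0 (K₁ + Cd + 8 + Real.exp 2 + Real.exp (a ^ 2))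
  have hx1 := Real.exp_pos 2
  have hx2 := Real.exp_pos (a ^ 2)
  refine ⟨max (max (max E₁ E₂) (max E₃ E₄)) (max (max E₅ E₁') (Real.exp 1)),
    hE₁1.trans ((le_max_left _ _).trans ((le_max_left _ _).trans (le_max_left _ _))), ?_⟩
  intro ι _ S α u q κ S' α' w q' κ' qs μ L h hT ρ σ C Q Q' y hσ hσ1 hC hQ hcQ' hGE hram hzero hre hcC hcQ hy0 hyM
    Φ hΦ
  have hGE1 : E₁ ≤ C * Q * Q' := ((le_max_left _ _).trans ((le_max_left _ _).trans (le_max_left _ _))).trans hGE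
  have hGE2 : E₂ ≤ C * Q * Q' := ((le_max_right _ _).trans ((le_max_left _ _).trans (le_max_left _ _))).trans hGE
  have hGE3 : E₃ ≤ C * Q * Q' := ((le_max_left _ _).trans ((le_max_right _ _).trans (le_max_left _ _))).trans hGE
  have hGE4 : E₄ ≤ C * Q * Q' := ((le_max_right _ _).trans ((le_max_right _ _).trans (le_max_left _ _))).trans hGE
  have hGE5 : E₅ ≤ C * Q * Q' := ((le_max_left _ _).trans ((le_max_left _ _).trans (le_max_right _ _))).trans hGE
  have hGE1' : E₁' ≤ C * Q * Q' := ((le_max_right _ _).trans ((le_max_left _ _).trans (le_max_right _ _))).trans hGE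
  have hGE6 : Real.exp 1 ≤ C * Q * Q' := ((le_max_right _ _).trans (le_max_right _ _)).trans hGE
  have hC0 : 0 < C := by linarith
  have hQ0 : 0 < Q := by linarith
  have hQ'1 : 1 ≤ Q' := by
    have h2 := one_le_cond (κ := κ') hT.self.one_le 0
    simp only [add_zero] at h2
    linarith
  have hQG : Q ≤ C * Q * Q' := by
    have h1 : Q ≤ C * Q := le_mul_of_one_le_left hQ0.le hC
    exact h1.trans (le_mul_of_one_le_right (by positivity) hQ'1)
  have hG0 : 0 < C * Q * Q' := by linarith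
  have hM1 : 1 ≤ Real.log (C * Q * Q') := (Real.le_log_iff_exp_le hG0).2 hGE6
  obtain ⟨hAM, -⟩ := hE₅ _ hGE5
  have hLQ0 : 0 ≤ Real.log Q := Real.log_nonneg hQ
  have hLQM : Real.log Q ≤ Real.log (C * Q * Q') := Real.log_le_log hQ0 hQG
  have hGη : (C * Q * Q') ^ η = Real.exp (η * Real.log (C * Q * Q')) := by
    rw [Real.rpow_def_of_pos hG0, mul_comm]
  have hre1 : ∀ f, (ρ f).re ≤ 1 := by
    intro f
    by_contra hlt
    push Not at hlt
    have h2 := hT.eq f (ρ f) hlt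
    rw [hzero f] at h2
    exact Complex.exp_ne_zero _ h2.symm
  have hs21 : 0 ≤ 2 * σ - 1 := by linarith
  have hs22 : 0 ≤ 2 - 2 * σ := by linarith
  -- the case of short sums
  rcases le_or_gt ((σ - 1 / 2) * y) (e * Real.log (C * Q * Q')) with hcase | hcase
  · have h1 := hct ι S α u q κ S' α' w q' κ' qs μ L h hT (fun f => (ρ f).im) C Q Q' hC hQ hcQ' hGE3 hram hcC hcQ
    refine h1.trans ((Real.exp_le_exp.2 ?_).trans (le_add_of_nonneg_left (Real.exp_pos _).le))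
    have h2 := le_max_right (k * (Real.log C / 2)) (Real.log Q)
    have h3 : k * ((σ - 1 / 2) * y) ≤ k * (e * Real.log (C * Q * Q')) := mul_le_mul_of_nonneg_left hcase hk0
    have h4 : 8 * (k + 1) * e * Real.log (C * Q * Q') ≤ ε * Real.log (C * Q * Q') :=
      mul_le_mul_of_nonneg_right hek (by linarith)
    have h5 : 0 ≤ e * Real.log (C * Q * Q') := by positivity
    have h6 : k * (2 * σ - 1) * y = 2 * (k * ((σ - 1 / 2) * y)) := by ring
    have h7 : 0 ≤ k * (e * Real.log (C * Q * Q')) := by positivity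
    rw [h6]
    nlinarith
  -- the data
  obtain ⟨hD1, hDw, -, hLf⟩ := hdat ι S α u q κ S' α' w q' κ' qs μ L h hT (fun f => (ρ f).im) C Q Q' hC hQ
    hcQ' hcC hcQ
  have hline := hln ι S α u q κ S' α' w q' κ' qs μ L h hT (fun f => (ρ f).im) C Q Q' hC hQ hcQ' hGE4 hcC hcQ
  rw [hGη] at hD1 hDw
  have hsub := fun (P : ι → Prop) => h.sub (fun f : {f // P f} => f.1) Subtype.val_injective
  have hTw : ∀ P : ι → Prop, Twists n' N' N'' (fun f : {f // P f} => u f.1) S' α' w q' κ' (fun f => qs f.1)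
      (fun f => μ f.1) (fun f => L f.1) := fun P =>
    ⟨hT.rep, hT.self, fun f => hT.rs f.1, fun f => hT.re_gt f.1, fun f => hT.diff f.1, fun f => hT.eq f.1⟩
  have hc1f := fun (P : ι → Prop) (inst : Fintype {f // P f}) => hcl1 {f // P f} (fun f => S f.1)
    (fun f => α f.1) (fun f => u f.1) (fun f g => q f.1 g.1)
    (fun f g => κ f.1 g.1) S' α' w q' κ' (fun f => qs f.1) (fun f => μ f.1) (fun f => L f.1) (hsub P) (hTw P)
    (fun f => ρ f.1) σ C Q Q'
  have hc1f' := fun (P : ι → Prop) (inst : Fintype {f // P f}) => hcl1' {f // P f} (fun f => S f.1)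
    (fun f => α f.1) (fun f => u f.1) (fun f g => q f.1 g.1)
    (fun f g => κ f.1 g.1) S' α' w q' κ' (fun f => qs f.1) (fun f => μ f.1) (fun f => L f.1) (hsub P) (hTw P)
    (fun f => ρ f.1) σ C Q Q'
  have hc2f := fun (P : ι → Prop) (inst : Fintype {f // P f}) => hcl2 {f // P f} (fun f => S f.1)
    (fun f => α f.1) (fun f => u f.1) (fun f g => q f.1 g.1)
    (fun f g => κ f.1 g.1) S' α' w q' κ' (fun f => qs f.1) (fun f => μ f.1) (fun f => L f.1) (hsub P) (hTw P)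
    (fun f => (ρ f.1).im)
  obtain ⟨M, hM⟩ : ∃ M, M = Real.log (C * Q * Q') := ⟨_, rfl⟩
  obtain ⟨LQ, hLQ⟩ : ∃ LQ, LQ = Real.log Q := ⟨_, rfl⟩
  have hc2f' := fun (P : ι → Prop) (inst : Fintype {f // P f}) (v : {f // P f} → ℝ) (T : ℝ) =>
    hc2f P inst v T C Q Q'
  clear hc2f
  rw [← hM] at hD1 hDw hAM hLQM hM1 hyM hcase hline hc1f hc1f' hc2f' ⊢
  rw [← hLQ] at hLQ0 hLQM hc1f hc1f' hc2f' hΦ ⊢
  have hM0 : 0 ≤ M := by linarith
  have hσk : 1 / 2 + e / 2 ≤ σ := by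
    by_contra hlt
    push Not at hlt
    have h2 : (σ - 1 / 2) * y ≤ (σ - 1 / 2) * M := mul_le_mul_of_nonneg_left hyM (by linarith)
    have h3 : (σ - 1 / 2) * M ≤ e / 2 * M := mul_le_mul_of_nonneg_right (by linarith) hM0
    have h4 : 0 < e * M := by positivity
    linarith
  have hKM : K₁ ≤ Real.exp (η * M) := le_trans (by linarith) hAM
  have hCdM : Cd ≤ Real.exp (η * M) := le_trans (by linarith) hAM
  have h8M : 8 ≤ Real.exp (η * M) := le_trans (by linarith) hAM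
  have he1M : Real.exp 2 ≤ Real.exp (η * M) := le_trans (by linarith) hAM
  have he2M : Real.exp (a ^ 2) ≤ Real.exp (η * M) := le_trans (by linarith) hAM
  have hηM : 0 ≤ η * M := by positivity
  have hKG : K₁ * Real.exp (η * M) ≤ Real.exp (2 * η * M) := by
    calc K₁ * Real.exp (η * M) ≤ Real.exp (η * M) * Real.exp (η * M) :=
          mul_le_mul_of_nonneg_right hKM (Real.exp_pos _).le
      _ = _ := by rw [← Real.exp_add]; congr 1; ring
  have hwsum : Summable fun x => ‖w x‖ ^ 2 * Real.exp (-((1 + c) * LV x)) := hT.rep.summable _ (by linarith)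
  have husum : ∀ f, Summable fun x => ‖u f x‖ ^ 2 * Real.exp (-((1 + c) * LV x)) := fun f =>
    (h.rep f).summable _ (by linarith)
  have huw : ∀ f, Summable fun v => ‖u f v‖ * ‖w v‖ * Real.exp (-((1 + c) * LV v)) := fun f =>
    summ_cs (husum f) hwsum
  have hDuw := fun f => cross (husum f) hwsum (huw f) ((hD1 f).trans hKG) (hDw.trans hKG)
  -- lengths
  obtain ⟨x, hx⟩ : ∃ x : ℝ, x = 2 + a₁ * M := ⟨_, rfl⟩
  obtain ⟨Y, hY⟩ : ∃ Y : ℝ, Y = (a * y + a₁ * M) / (a - 1) := ⟨_, rfl⟩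
  have ha1 : 0 < a - 1 := by linarith
  have ha₁M : 0 ≤ a₁ * M := by positivity
  have hx0 : 0 ≤ x := by linarith
  have hY1 : (a - 1) * Y = a * y + a₁ * M := by rw [hY]; field_simp
  have hay : 0 ≤ a * y := by positivity
  have hY0 : 0 ≤ Y := by rw [hY]; positivity
  have hYy : Y ≤ y + ε / 8 * M := by
    have h2 : (a - 1) * (Y - y) = y + a₁ * M := by linarith
    have h3 : a₁ * M ≤ 1 * M := mul_le_mul_of_nonneg_right ha₁1 hM0
    have h4 : 16 * M ≤ ε * (a - 1) * M := mul_le_mul_of_nonneg_right haε hM0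
    by_contra hlt
    push Not at hlt
    have h5 : (a - 1) * (ε / 8 * M) < (a - 1) * (Y - y) := mul_lt_mul_of_pos_left (by linarith) ha1
    nlinarith
  have hY10 : Y ≤ 10 * M := by
    have h2 : (a - 1) * (Y - y) = y + a₁ * M := by linarith
    have h3 : a₁ * M ≤ 1 * M := mul_le_mul_of_nonneg_right ha₁1 hM0
    by_contra hlt
    push Not at hlt
    have h4 : (1 : ℝ) * (Y - y) ≤ (a - 1) * (Y - y) := mul_le_mul_of_nonneg_right (by linarith) (by linarith)
    linarith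
  -- detection
  obtain ⟨B₁, hB₁⟩ : ∃ B₁ : ℝ, B₁ = Real.exp ((σ - 1 / 2) * y - e / 2 * M) := ⟨_, rfl⟩
  have hB₁1 : 1 ≤ B₁ := by
    rw [hB₁]
    refine Real.one_le_exp ?_
    have : 0 ≤ e * M := by positivity
    linarith
  have hinv8 : Real.exp (-(η * M)) ≤ 1 / 8 := by
    rw [Real.exp_neg, one_div]
    exact inv_anti₀ (by norm_num) h8M
  have hηe : η * M * 80 = e * M := by rw [hη]; ring
  have ha₁eM : 8 * (a₁ * M) = e * M := by
    rw [← ha₁e]
    ring
  have hi : Cd * B₁ * Real.exp (2 * η * M) * Real.exp ((1 / 2 + c) * x) * Real.exp (-((σ - 1 / 2) * y)) ≤ 1 / 8 := by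
    have h3 : Real.exp ((1 / 2 + c) * x) ≤ Real.exp (η * M) * Real.exp (a₁ * M) := by
      have h4 : Real.exp ((1 / 2 + c) * x) ≤ Real.exp 2 * Real.exp (a₁ * M) := by
        rw [← Real.exp_add]
        refine Real.exp_le_exp.2 ?_
        rw [hx, hc]
        linarith
      exact h4.trans (mul_le_mul_of_nonneg_right he1M (Real.exp_pos _).le)
    refine le_trans ?_ hinv8
    calc _ ≤ Real.exp (η * M) * B₁ * Real.exp (2 * η * M) * (Real.exp (η * M) * Real.exp (a₁ * M)) *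
          Real.exp (-((σ - 1 / 2) * y)) := by
          refine mul_le_mul_of_nonneg_right ?_ (Real.exp_pos _).le
          refine mul_le_mul ?_ h3 (Real.exp_pos _).le (by positivity)
          exact mul_le_mul_of_nonneg_right (mul_le_mul_of_nonneg_right hCdM (by positivity)) (Real.exp_pos _).le
      _ = Real.exp (η * M + ((σ - 1 / 2) * y - e / 2 * M) + 2 * η * M + (η * M + a₁ * M) +
          -((σ - 1 / 2) * y)) := by
          rw [hB₁, ← Real.exp_add, ← Real.exp_add, ← Real.exp_add, ← Real.exp_add, ← Real.exp_add]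
      _ ≤ _ := by
          refine Real.exp_le_exp.2 ?_
          linarith
  have hii : Real.exp (2 * η * M) ^ 2 * Real.exp (a ^ 2 + a * y - (a - 1) * Y) ≤ 1 / 8 := by
    rw [hY1, show a ^ 2 + a * y - (a * y + a₁ * M) = a ^ 2 + -(a₁ * M) by ring, Real.exp_add, ← Real.exp_nat_mul]
    refine le_trans ?_ hinv8
    calc _ ≤ Real.exp ((2 : ℕ) * (2 * η * M)) * (Real.exp (η * M) * Real.exp (-(a₁ * M))) := by
          refine mul_le_mul_of_nonneg_left ?_ (Real.exp_pos _).le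
          exact mul_le_mul_of_nonneg_right he2M (Real.exp_pos _).le
      _ = Real.exp ((2 : ℕ) * (2 * η * M) + (η * M + -(a₁ * M))) := by
          rw [Real.exp_add, Real.exp_add (η * M)]
      _ ≤ _ := by
          refine Real.exp_le_exp.2 ?_
          push_cast
          linarith
  obtain ⟨cf, hcM, hc1', hc0', hcH⟩ := hMo (VX K) w LV x LV_nonneg hx0
  -- the two classes
  obtain ⟨P, hP⟩ : ∃ P : ι → Prop, P = fun f => ∀ v : ℝ,
      ‖L f (((1 / 2 : ℝ) : ℂ) + ((ρ f).im + v : ℝ) * I)‖ ≤ B₁ * (1 + |v|) ^ (A + 2 / ω) := ⟨_, rfl⟩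
  have hPi : ∀ f : ι, P f ↔ ∀ v : ℝ,
      ‖L f (((1 / 2 : ℝ) : ℂ) + ((ρ f).im + v : ℝ) * I)‖ ≤ B₁ * (1 + |v|) ^ (A + 2 / ω) := fun f => by rw [hP]
  have hcards : (Fintype.card ι : ℝ) = (Fintype.card {f // P f} : ℝ) + (Fintype.card {f // ¬ P f} : ℝ) := by
    rw [← Nat.cast_add, ← Fintype.card_sum]
    exact_mod_cast Fintype.card_congr (Equiv.sumCompl P).symm
  rw [hcards]
  refine add_le_add ?_ ?_
  · -- class 1
    have hex : ∀ f : {f // P f}, ∃ r ∈ Finset.Ico ⌊x⌋₊ (⌊Y⌋₊ + 1), 1 / (4 * ((⌊Y⌋₊ : ℝ) + 1)) ≤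
        ‖Ph LV (Pool.Agent.N846.ZD.blk LV cf x y Y r) (u f.1) (ρ f.1)‖ := by
      intro f
      have hPf := (hPi f.1).1 f.2
      refine pig (u := u f.1) (L := LV) LV_nonneg hx0 (huw f.1) hcM ?_
      exact hdet (VX K) (u f.1) w LV (L f.1) cf (ρ f.1) σ B₁ x y Y
        (Real.exp (2 * η * M)) a LV_nonneg (hLf f.1).1 (hzero f.1) (by linarith) (hre f.1) (hre1 f.1) (huw f.1)
        (hDuw f.1) hx0 hy0 ha2 (by linarith) hPf hcM hc1' hc0' (fun s hs => hcH (u f.1) s hs) hi hii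
    rcases hΦ with hΦ | ⟨h34, hΦ⟩
    · have h1 := hc1f P inferInstance x y Y hσ hσ1 hC hQ hcQ' hGE1 (fun f => hram f.1) (fun f => hcC f.1)
        (fun f g => hcQ f.1 g.1) (fun f => hre f.1) (fun f => hre1 f.1) (by rw [hx]) hY0 hY10 cf hcM hex
      refine h1.trans (Real.exp_le_exp.2 ?_)
      rw [hΦ]
      have h2 : (2 * σ - 1) * Y ≤ (2 * σ - 1) * (y + ε / 8 * M) := mul_le_mul_of_nonneg_left hYy hs21
      have h3 := mul_le_mul_of_nonneg_left (add_le_add_right h2 LQ) hs22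
      have h4 : (2 - 2 * σ) * ((2 * σ - 1) * (ε / 8 * M)) ≤ 1 * (1 * (ε / 8 * M)) := by
        have h5 : 0 ≤ ε / 8 * M := by positivity
        refine mul_le_mul (by linarith) (mul_le_mul_of_nonneg_right (by linarith) h5) (by positivity) (by norm_num)
      have h5 : 0 ≤ ε * M := by positivity
      nlinarith
    · have h1 := hc1f' P inferInstance x y Y h34 hσ1 hC hQ hcQ' hGE1' (fun f => hcC f.1)
        (fun f g => hcQ f.1 g.1) (fun f => hre f.1) (fun f => hre1 f.1) (by rw [hx]) hY0 hY10 cf hcM hex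
      refine h1.trans (Real.exp_le_exp.2 ?_)
      rw [hΦ]
      have h3 := mul_le_mul_of_nonneg_left (add_le_add_right hYy (LQ / (4 * σ - 2))) hs22
      have h4 : (2 - 2 * σ) * (ε / 8 * M) ≤ 1 * (ε / 8 * M) := by
        have h5 : 0 ≤ ε / 8 * M := by positivity
        exact mul_le_mul_of_nonneg_right (by linarith) h5
      have h5 : 0 ≤ ε * M := by positivity
      linarith
  · -- class 2
    have hv : ∀ f : {f // ¬ P f}, ∃ v : ℝ, B₁ * (1 + |v|) ^ (A + 2 / ω) <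
        ‖L f.1 (((1 / 2 : ℝ) : ℂ) + ((ρ f.1).im + v : ℝ) * I)‖ := by
      intro f
      have hPf := mt (hPi f.1).2 f.2
      push Not at hPf
      exact hPf
    choose v hv using hv
    have hvb : ∀ f, |v f| ≤ Real.exp (ω * M) := by
      intro f
      have h1 := (hv f).le.trans (hline f.1 (v f))
      rw [← hA] at h1
      have h0 : 0 < 1 + |v f| := by positivity
      have h01 : 0 < (1 + |v f|) ^ A := by positivity
      rw [Real.rpow_add h0] at h1
      have h2 : (1 + |v f|) ^ (2 / ω) ≤ Real.exp (2 * M) := by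
        have h3 : (1 + |v f|) ^ (2 / ω) * (1 + |v f|) ^ A ≤ Real.exp (2 * M) * (1 + |v f|) ^ A := by
          refine le_trans ?_ h1
          have h4 : 0 ≤ (1 + |v f|) ^ A * (1 + |v f|) ^ (2 / ω) := by positivity
          have h5 := mul_le_mul_of_nonneg_right hB₁1 h4
          linarith
        exact le_of_mul_le_mul_right h3 h01
      have h3 := Real.rpow_le_rpow (by positivity) h2 (by positivity : (0 : ℝ) ≤ ω / 2)
      rw [← Real.rpow_mul h0.le, ← Real.exp_mul, show 2 / ω * (ω / 2) = 1 by field_simp, Real.rpow_one,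
        show 2 * M * (ω / 2) = ω * M by ring] at h3
      linarith
    obtain ⟨T, hTd⟩ : ∃ T : ℝ, T = (σ - 1 / 2) * y - e * M := ⟨_, rfl⟩
    have h1 := hc2f' (fun f => ¬ P f) inferInstance v T (by linarith) hC hQ hcQ' hGE2 (fun f => hram f.1)
      (fun f => hcC f.1) (fun f g => hcQ f.1 g.1) hvb (fun f => by
        have h2 : B₁ ≤ B₁ * (1 + |v f|) ^ (A + 2 / ω) := by
          refine le_mul_of_one_le_right (by linarith) (Real.one_le_rpow ?_ (by positivity))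
          linarith [abs_nonneg (v f)]
        have h3 := h2.trans (hv f).le
        rw [hB₁] at h3
        refine le_trans (Real.exp_le_exp.2 ?_) (h3.trans (le_of_eq ?_))
        · rw [hTd]
          linarith
        · congr 2
          push_cast
          ring)
    refine h1.trans (Real.exp_le_exp.2 ?_)
    have h4 : 8 * (k + 1) * e * M ≤ ε * M := mul_le_mul_of_nonneg_right hek hM0
    have h5 : 0 ≤ e * M := by positivity
    have h6 : 0 ≤ k * (e * M) := by positivity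
    have h7 : 2 * k * T = k * (2 * σ - 1) * y - 2 * (k * (e * M)) := by rw [hTd]; ring
    rw [h7]
    nlinarith

end Pool.Agent.U615.ZH
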