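import Pool.Agent.U615.ZH.Core3
import Pool.Agent.N846.HU.Final
import Pool.Agent.N846.DT.Final

/-! The zero density theorem for arbitrary families. -/

set_option autoImplicit false

namespace Pool.Agent.U615.ZH

open Filter Topology Complex MeasureTheory Set NumberField IsDedekindDomain
open Pool.Agent.N846.DT (finite_of_bound)
open Pool.Agent.N846.DU (VX LV Nv logRS RS GLFamily Rep LV_nonneg one_le_cond S_LEFT S_DIAG)
open Pool.Agent.N846.LM (Twists)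
open Pool.Agent.N846.ZD (S_POW S_CONV S_BLOCK S_MOLL S_MB S_CVX)
open Pool.Agent.N846.LV (S_LVD)
open Pool.Agent.N846.HU (S_DET S_PL twists_sub)

/-- the exponential form and the form with powers -/
theorem forms {C Q G Y ε Φ W b : ℝ} (k : ℕ) (hC : 1 ≤ C) (hQ : 1 ≤ Q) (hG : 1 ≤ G) (hY : 1 ≤ Y)
    (hW : Real.exp Φ = W) :
    Real.exp (ε * Real.log G + Φ) +
      Real.exp (ε * Real.log G + max (k * (Real.log C / 2)) (Real.log Q) - k * b * Real.log Y) ≤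
    G ^ ε * (W + (C ^ ((k : ℝ) / 2) + Q) * Y ^ (-(k * b))) := by
  have hC0 : 0 < C := by linarith
  have hQ0 : 0 < Q := by linarith
  have hG0 : 0 < G := by linarith
  have hY0 : 0 < Y := by linarith
  have e1 : Real.exp (ε * Real.log G + Φ) = G ^ ε * W := by
    rw [Real.exp_add, hW, Real.rpow_def_of_pos hG0, mul_comm ε]
  have e2 : Real.exp (ε * Real.log G + max (k * (Real.log C / 2)) (Real.log Q) - k * b * Real.log Y) =
      G ^ ε * (max (C ^ ((k : ℝ) / 2)) Q * Y ^ (-(k * b))) := by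
    have e3 : C ^ ((k : ℝ) / 2) = Real.exp (k * (Real.log C / 2)) := by
      rw [Real.rpow_def_of_pos hC0]
      congr 1
      ring
    have e4 : max (C ^ ((k : ℝ) / 2)) Q = Real.exp (max (k * (Real.log C / 2)) (Real.log Q)) := by
      rw [e3]
      conv_lhs => rw [← Real.exp_log hQ0]
      exact (Real.exp_monotone.map_max).symm
    rw [e4, Real.rpow_def_of_pos hG0, Real.rpow_def_of_pos hY0, ← Real.exp_add, ← Real.exp_add]
    congr 1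
    ring
  rw [e1, e2, ← mul_add]
  refine mul_le_mul_of_nonneg_left ?_ (by positivity)
  refine add_le_add le_rfl (mul_le_mul_of_nonneg_right ?_ (by positivity))
  refine max_le ?_ ?_
  · linarith
  · have : 0 < C ^ ((k : ℝ) / 2) := by positivity
    linarith

theorem zd3_all (hPow : S_POW) (hConv : S_CONV) (hMo : S_MOLL) (hMb : S_MB) (hBl : S_BLOCK) (hL : S_LEFT)
    (hDi : S_DIAG) (hLvd : S_LVD) (hDet : S_DET) (hPl : S_PL) (hCvx : S_CVX)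
    (K : Type) [Field K] [NumberField K] (n N n' N' N'' k : ℕ) (hn : 1 ≤ n) {ε : ℝ} (hε : 0 < ε) :
    ∃ A : ℝ, 0 < A ∧
    ∀ (ι : Type) (S : ι → Finset (HeightOneSpectrum (𝓞 K)))
      (α : ι → HeightOneSpectrum (𝓞 K) → Fin n → ℂ) (u : ι → VX K → ℂ) (q : ι → ι → ℝ) (κ : ι → ι → Fin N → ℂ)
      (S' : Finset (HeightOneSpectrum (𝓞 K))) (α' : HeightOneSpectrum (𝓞 K) → Fin n' → ℂ) (w : VX K → ℂ) (q' : ℝ)
      (κ' : Fin N'' → ℂ) (qs : ι → ℝ) (μ : ι → Fin N' → ℂ) (L : ι → ℂ → ℂ),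
      GLFamily n N S α u q κ → Twists n' N' N'' u S' α' w q' κ' qs μ L →
      ∀ (T : Set ι) (ρ : ι → ℂ) (σ C Q Q' Y : ℝ), 1 / 2 ≤ σ → 1 ≤ C → 1 ≤ Q → q' * ∏ j, (1 + ‖κ' j‖) ≤ Q' →
        1 ≤ Y → Y ≤ C * Q * Q' → (∀ f ∈ T, ∏ v ∈ S f, Nv v ≤ C * Q * Q') →
        (∀ f ∈ T, L f (ρ f) = 0 ∧ σ ≤ (ρ f).re) →
        (∀ f ∈ T, qs f * ∏ j, (1 + ‖μ f j + (ρ f).im * I‖) ≤ C) →
        (∀ f ∈ T, ∀ g ∈ T, q f g * ∏ j, (1 + ‖κ f g j + ((ρ f).im - (ρ g).im) * I‖) ≤ Q) →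
        ∀ W : ℝ, (W = Q ^ (2 - 2 * σ) * Y ^ ((2 - 2 * σ) * (2 * σ - 1)) ∨
          (3 / 4 ≤ σ ∧ W = Q ^ ((2 - 2 * σ) / (4 * σ - 2)) * Y ^ (2 - 2 * σ))) →
        T.Finite ∧ (T.ncard : ℝ) ≤ A * (C * Q * Q') ^ ε *
          (W + (C ^ ((k : ℝ) / 2) + Q) * Y ^ (-(k * (2 * σ - 1)))) := by
  obtain ⟨E₀, hE1, hE⟩ := core3 hPow hConv hMo hMb hBl hL hDi hLvd hDet hPl hCvx K n N n' N' N'' k hn hε
  have hE0 : 0 < E₀ := by linarith
  refine ⟨E₀ ^ ε * E₀, by positivity, ?_⟩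
  intro ι S α u q κ S' α' w q' κ' qs μ L h hT T ρ σ C Q Q' Y hσ hC hQ hcQ' hY hYG hram hz hcC hcQ W hW
  have hC0 : 0 < C := by linarith
  have hQ0 : 0 < Q := by linarith
  have hY0 : 0 < Y := by linarith
  have hQ'1 : 1 ≤ Q' := by
    have h2 := one_le_cond (κ := κ') hT.self.one_le 0
    simp only [add_zero] at h2
    linarith
  have hQ'0 : 0 < Q' := by linarith
  have hW0 : 0 < W := by
    rcases hW with hW | ⟨-, hW⟩
    · rw [hW]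
      positivity
    · rw [hW]
      positivity
  refine finite_of_bound fun T' hT' => ?_
  rcases T'.eq_empty_or_nonempty with he | ⟨f0, hf0⟩
  · rw [he]
    simp only [Finset.card_empty, Nat.cast_zero]
    positivity
  have hσ1 : σ ≤ 1 := by
    obtain ⟨h2, h3⟩ := hz f0 (hT' f0 hf0)
    by_contra hlt
    push Not at hlt
    have h4 := hT.eq f0 (ρ f0) (by linarith)
    rw [h2] at h4
    exact Complex.exp_ne_zero _ h4.symm
  have hQE : Q ≤ Q * E₀ := le_mul_of_one_le_right hQ0.le hE1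
  have hCQ1 : 1 ≤ C * Q * Q' := by
    have h2 : 1 ≤ C * Q := by nlinarith
    nlinarith
  have hbig : E₀ ≤ C * (Q * E₀) * Q' := by
    calc E₀ = 1 * E₀ := (one_mul _).symm
      _ ≤ C * Q * Q' * E₀ := mul_le_mul_of_nonneg_right hCQ1 hE0.le
      _ = _ := by ring
  have hGG : C * Q * Q' ≤ C * (Q * E₀) * Q' := by
    calc C * Q * Q' ≤ C * Q * Q' * E₀ := le_mul_of_one_le_right (by positivity) hE1
      _ = _ := by ring
  -- the first term with `Q E₀`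
  obtain ⟨Φ, W', hΦ, hW', hWW'⟩ : ∃ Φ W' : ℝ, (Φ = (2 - 2 * σ) * (Real.log (Q * E₀) + (2 * σ - 1) * Real.log Y) ∨
      (3 / 4 ≤ σ ∧ Φ = (2 - 2 * σ) * (Real.log (Q * E₀) / (4 * σ - 2) + Real.log Y))) ∧ Real.exp Φ = W' ∧
      W' ≤ E₀ * W := by
    have hs : 0 ≤ 2 - 2 * σ := by linarith
    rcases hW with hW | ⟨h34, hW⟩
    · refine ⟨_, (Q * E₀) ^ (2 - 2 * σ) * Y ^ ((2 - 2 * σ) * (2 * σ - 1)), Or.inl rfl, ?_, ?_⟩
      · rw [Real.rpow_def_of_pos (by positivity), Real.rpow_def_of_pos hY0, ← Real.exp_add]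
        congr 1
        ring
      · rw [hW, Real.mul_rpow hQ0.le hE0.le]
        have e2 : E₀ ^ (2 - 2 * σ) ≤ E₀ := by
          calc E₀ ^ (2 - 2 * σ) ≤ E₀ ^ (1 : ℝ) := Real.rpow_le_rpow_of_exponent_le hE1 (by linarith)
            _ = E₀ := Real.rpow_one _
        calc _ = E₀ ^ (2 - 2 * σ) * (Q ^ (2 - 2 * σ) * Y ^ ((2 - 2 * σ) * (2 * σ - 1))) := by ring
          _ ≤ _ := mul_le_mul_of_nonneg_right e2 (by positivity)
    · refine ⟨_, (Q * E₀) ^ ((2 - 2 * σ) / (4 * σ - 2)) * Y ^ (2 - 2 * σ), Or.inr ⟨h34, rfl⟩, ?_, ?_⟩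
      · rw [Real.rpow_def_of_pos (by positivity), Real.rpow_def_of_pos hY0, ← Real.exp_add]
        congr 1
        ring
      · rw [hW, Real.mul_rpow hQ0.le hE0.le]
        have e2 : E₀ ^ ((2 - 2 * σ) / (4 * σ - 2)) ≤ E₀ := by
          calc E₀ ^ ((2 - 2 * σ) / (4 * σ - 2)) ≤ E₀ ^ (1 : ℝ) := by
                refine Real.rpow_le_rpow_of_exponent_le hE1 ?_
                rw [div_le_one (by linarith)]
                linarith
            _ = E₀ := Real.rpow_one _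
        calc _ = E₀ ^ ((2 - 2 * σ) / (4 * σ - 2)) * (Q ^ ((2 - 2 * σ) / (4 * σ - 2)) * Y ^ (2 - 2 * σ)) := by ring
          _ ≤ _ := mul_le_mul_of_nonneg_right e2 (by positivity)
  have hmain := hE {f // f ∈ T'} (fun f => S f.1) (fun f => α f.1) (fun f => u f.1) (fun f g => q f.1 g.1)
    (fun f g => κ f.1 g.1) S' α' w q' κ' (fun f => qs f.1) (fun f => μ f.1) (fun f => L f.1)
    (h.sub (fun f : {f // f ∈ T'} => f.1) Subtype.val_injective) (twists_sub hT T') (fun f => ρ f.1) σ C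
    (Q * E₀) Q' (Real.log Y) hσ hσ1 hC (hQ.trans hQE) hcQ' hbig (fun f => (hram f.1 (hT' _ f.2)).trans hGG)
    (fun f => (hz f.1 (hT' _ f.2)).1) (fun f => (hz f.1 (hT' _ f.2)).2) (fun f => hcC f.1 (hT' _ f.2))
    (fun f g => (hcQ f.1 (hT' _ f.2) g.1 (hT' _ g.2)).trans hQE) (Real.log_nonneg hY)
    (Real.log_le_log hY0 (hYG.trans hGG)) Φ hΦ
  rw [Fintype.card_coe] at hmain
  refine hmain.trans ((forms k hC (hQ.trans hQE) (hCQ1.trans hGG) hY hW').trans ?_)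
  have e1 : (C * (Q * E₀) * Q') ^ ε = E₀ ^ ε * (C * Q * Q') ^ ε := by
    rw [← Real.mul_rpow hE0.le (by positivity)]
    congr 1
    ring
  have e3 : C ^ ((k : ℝ) / 2) + Q * E₀ ≤ E₀ * (C ^ ((k : ℝ) / 2) + Q) := by
    have h1 : 0 < C ^ ((k : ℝ) / 2) := by positivity
    nlinarith
  rw [e1]
  have p2 : 0 < Y ^ (-(k * (2 * σ - 1))) := by positivity
  calc _ ≤ E₀ ^ ε * (C * Q * Q') ^ ε * (E₀ * W +
        E₀ * (C ^ ((k : ℝ) / 2) + Q) * Y ^ (-(k * (2 * σ - 1)))) := by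
        refine mul_le_mul_of_nonneg_left ?_ (by positivity)
        exact add_le_add hWW' (mul_le_mul_of_nonneg_right e3 p2.le)
    _ = _ := by ring

/-- the exponents of Ingham's theorem -/
theorem ingham_exp {σ : ℝ} (k : ℕ) (hk : 1 ≤ k) (hσ1 : σ ≤ 1) {Q Y : ℝ} (hQ : 1 ≤ Q)
    (hY : Y = Q ^ (1 / (k + 2 - 2 * σ))) :
    Q ^ (2 - 2 * σ) * Y ^ ((2 - 2 * σ) * (2 * σ - 1)) = Q ^ (2 * (k + 1) * (1 - σ) / (k + 2 - 2 * σ)) ∧
    Q * Y ^ (-(k * (2 * σ - 1))) = Q ^ (2 * (k + 1) * (1 - σ) / (k + 2 - 2 * σ)) ∧ 1 ≤ Y ∧ Y ≤ Q := by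
  have hQ0 : 0 < Q := by linarith
  have hk0 : (1 : ℝ) ≤ k := by exact_mod_cast hk
  have hd : (1 : ℝ) ≤ k + 2 - 2 * σ := by linarith
  have hd0 : (0 : ℝ) < k + 2 - 2 * σ := by linarith
  refine ⟨?_, ?_, ?_, ?_⟩
  · rw [hY, ← Real.rpow_mul hQ0.le, ← Real.rpow_add hQ0]
    congr 1
    field_simp
    ring
  · nth_rewrite 1 [← Real.rpow_one Q]
    rw [hY, ← Real.rpow_mul hQ0.le, ← Real.rpow_add hQ0]
    congr 1
    field_simp
    ring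
  · rw [hY]
    exact Real.one_le_rpow hQ (by positivity)
  · rw [hY]
    calc Q ^ (1 / (k + 2 - 2 * σ)) ≤ Q ^ (1 : ℝ) := by
          refine Real.rpow_le_rpow_of_exponent_le hQ ?_
          rw [div_le_one hd0]
          exact hd
      _ = Q := Real.rpow_one _

/-- the exponents of Montgomery's theorem -/
theorem mont_exp {σ : ℝ} (k : ℕ) (hk : 1 ≤ k) (hσ : 3 / 4 ≤ σ) (hσ1 : σ ≤ 1) {Q Y : ℝ} (hQ : 1 ≤ Q)
    (hY : Y = Q ^ ((3 * σ - 2) / ((2 * σ - 1) * (2 - 2 * σ + k * (2 * σ - 1))))) :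
    Q ^ ((2 - 2 * σ) / (4 * σ - 2)) * Y ^ (2 - 2 * σ) = Q ^ ((k + 2) * (1 - σ) / (2 - 2 * σ + k * (2 * σ - 1))) ∧
    Q * Y ^ (-(k * (2 * σ - 1))) = Q ^ ((k + 2) * (1 - σ) / (2 - 2 * σ + k * (2 * σ - 1))) ∧ 1 ≤ Y ∧ Y ≤ Q := by
  have hQ0 : 0 < Q := by linarith
  have hk0 : (1 : ℝ) ≤ k := by exact_mod_cast hk
  have hd0 : (0 : ℝ) < 2 * σ - 1 := by linarith
  have hd1 : (1 : ℝ) ≤ 2 - 2 * σ + k * (2 * σ - 1) := by nlinarith
  obtain ⟨D, hD⟩ : ∃ D : ℝ, D = 2 - 2 * σ + k * (2 * σ - 1) := ⟨_, rfl⟩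
  rw [← hD] at hd1 hY ⊢
  have hD0 : 0 < D := by linarith
  have hne : 2 * σ - 1 ≠ 0 := hd0.ne'
  have hDne : D ≠ 0 := hD0.ne'
  have h4 : 4 * σ - 2 = 2 * (2 * σ - 1) := by ring
  refine ⟨?_, ?_, ?_, ?_⟩
  · rw [hY, ← Real.rpow_mul hQ0.le, ← Real.rpow_add hQ0, h4]
    congr 1
    field_simp
    rw [hD]
    ring
  · nth_rewrite 1 [← Real.rpow_one Q]
    rw [hY, ← Real.rpow_mul hQ0.le, ← Real.rpow_add hQ0]
    congr 1
    have h5 : (3 * σ - 2) / ((2 * σ - 1) * D) * -(k * (2 * σ - 1)) = -(k * (3 * σ - 2)) / D := by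
      rw [div_mul_eq_mul_div, div_eq_div_iff (mul_ne_zero hne hDne) hDne]
      ring
    rw [h5, ← sub_eq_zero]
    have h6 : 1 + -(k * (3 * σ - 2)) / D - (k + 2) * (1 - σ) / D = (D - k * (3 * σ - 2) - (k + 2) * (1 - σ)) / D := by
      field_simp
      ring
    rw [h6, hD]
    rw [show (2 - 2 * σ + k * (2 * σ - 1) - k * (3 * σ - 2) - (k + 2) * (1 - σ)) = 0 by ring, zero_div]
  · rw [hY]
    exact Real.one_le_rpow hQ (div_nonneg (by linarith) (by positivity))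
  · rw [hY]
    calc Q ^ ((3 * σ - 2) / ((2 * σ - 1) * D)) ≤ Q ^ (1 : ℝ) := by
          refine Real.rpow_le_rpow_of_exponent_le hQ ?_
          rw [div_le_one (by positivity)]
          nlinarith
      _ = Q := Real.rpow_one _

/-- the exponent: Ingham's one for `σ ≤ (3k+2)/(4k+2)`, Montgomery's one for the other `σ` -/
noncomputable def zexp (k : ℕ) (σ : ℝ) : ℝ :=
  min (2 * (k + 1) / (k + 2 - 2 * σ)) ((k + 2) / (2 - 2 * σ + k * (2 * σ - 1))) * (1 - σ)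

theorem zexp_left {σ : ℝ} (k : ℕ) (hk : 1 ≤ k) (hσ : 1 / 2 ≤ σ) (hσ1 : σ ≤ 3 / 4) :
    zexp k σ = 2 * (k + 1) * (1 - σ) / (k + 2 - 2 * σ) := by
  have hk0 : (1 : ℝ) ≤ k := by exact_mod_cast hk
  have hd1 : (1 : ℝ) ≤ 2 - 2 * σ + k * (2 * σ - 1) := by nlinarith
  unfold zexp
  rw [min_eq_left]
  · ring
  · rw [div_le_div_iff₀ (by linarith) (by linarith)]
    have h1 : (2 * σ - 1) * (2 * k + 1) ≤ 1 / 2 * (2 * k + 1) :=
      mul_le_mul_of_nonneg_right (by linarith) (by linarith)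
    have h2 : 0 ≤ k * ((k + 1) - (2 * σ - 1) * (2 * k + 1)) := mul_nonneg (by linarith) (by linarith)
    linarith

/-- Ingham's and Montgomery's form -/
theorem zd3_ing (hPow : S_POW) (hConv : S_CONV) (hMo : S_MOLL) (hMb : S_MB) (hBl : S_BLOCK) (hL : S_LEFT)
    (hDi : S_DIAG) (hLvd : S_LVD) (hDet : S_DET) (hPl : S_PL) (hCvx : S_CVX)
    (K : Type) [Field K] [NumberField K] (n N n' N' N'' k : ℕ) (hn : 1 ≤ n) (hk : 1 ≤ k) {ε : ℝ} (hε : 0 < ε) :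
    ∃ A : ℝ, 0 < A ∧
    ∀ (ι : Type) (S : ι → Finset (HeightOneSpectrum (𝓞 K)))
      (α : ι → HeightOneSpectrum (𝓞 K) → Fin n → ℂ) (u : ι → VX K → ℂ) (q : ι → ι → ℝ) (κ : ι → ι → Fin N → ℂ)
      (S' : Finset (HeightOneSpectrum (𝓞 K))) (α' : HeightOneSpectrum (𝓞 K) → Fin n' → ℂ) (w : VX K → ℂ) (q' : ℝ)
      (κ' : Fin N'' → ℂ) (qs : ι → ℝ) (μ : ι → Fin N' → ℂ) (L : ι → ℂ → ℂ),
      GLFamily n N S α u q κ → Twists n' N' N'' u S' α' w q' κ' qs μ L →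
      ∀ (T : Set ι) (ρ : ι → ℂ) (σ C Q Q' : ℝ), 1 / 2 ≤ σ → 1 ≤ C → 1 ≤ Q → q' * ∏ j, (1 + ‖κ' j‖) ≤ Q' →
        C ^ ((k : ℝ) / 2) ≤ Q → (∀ f ∈ T, ∏ v ∈ S f, Nv v ≤ C * Q * Q') →
        (∀ f ∈ T, L f (ρ f) = 0 ∧ σ ≤ (ρ f).re) →
        (∀ f ∈ T, qs f * ∏ j, (1 + ‖μ f j + (ρ f).im * I‖) ≤ C) →
        (∀ f ∈ T, ∀ g ∈ T, q f g * ∏ j, (1 + ‖κ f g j + ((ρ f).im - (ρ g).im) * I‖) ≤ Q) →
        T.Finite ∧ (T.ncard : ℝ) ≤ A * (C * Q * Q') ^ ε * Q ^ zexp k σ := by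
  obtain ⟨A, hA0, hA⟩ := zd3_all hPow hConv hMo hMb hBl hL hDi hLvd hDet hPl hCvx K n N n' N' N'' k hn hε
  refine ⟨3 * A, by positivity, ?_⟩
  intro ι S α u q κ S' α' w q' κ' qs μ L h hT T ρ σ C Q Q' hσ hC hQ hcQ' hCQ hram hz hcC hcQ
  have hC0 : 0 < C := by linarith
  have hQ0 : 0 < Q := by linarith
  have hQ'1 : 1 ≤ Q' := by
    have h2 := one_le_cond (κ := κ') hT.self.one_le 0
    simp only [add_zero] at h2
    linarith
  have hQ'0 : 0 < Q' := by linarith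
  rcases T.eq_empty_or_nonempty with he | ⟨f0, hf0⟩
  · rw [he]
    refine ⟨Set.finite_empty, ?_⟩
    rw [Set.ncard_empty, Nat.cast_zero]
    positivity
  have hσ1 : σ ≤ 1 := by
    obtain ⟨h2, h3⟩ := hz f0 hf0
    by_contra hlt
    push Not at hlt
    have h4 := hT.eq f0 (ρ f0) (by linarith)
    rw [h2] at h4
    exact Complex.exp_ne_zero _ h4.symm
  have hQG : Q ≤ C * Q * Q' := by
    have h1 : Q ≤ C * Q := le_mul_of_one_le_left hQ0.le hC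
    exact h1.trans (le_mul_of_one_le_right (by positivity) hQ'1)
  -- the last step, for both exponents
  have hlast : ∀ (Y W e : ℝ), (W = Q ^ (2 - 2 * σ) * Y ^ ((2 - 2 * σ) * (2 * σ - 1)) ∨
      (3 / 4 ≤ σ ∧ W = Q ^ ((2 - 2 * σ) / (4 * σ - 2)) * Y ^ (2 - 2 * σ))) → W = Q ^ e →
      Q * Y ^ (-(k * (2 * σ - 1))) = Q ^ e → 1 ≤ Y → Y ≤ Q →
      T.Finite ∧ (T.ncard : ℝ) ≤ 3 * A * (C * Q * Q') ^ ε * Q ^ e := by
    intro Y W e hW h1 h2 h3 h4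
    obtain ⟨hfin, hmain⟩ := hA ι S α u q κ S' α' w q' κ' qs μ L h hT T ρ σ C Q Q' Y hσ hC hQ hcQ' h3
      (h4.trans hQG) hram hz hcC hcQ W hW
    refine ⟨hfin, hmain.trans ?_⟩
    have hY0 : 0 < Y := by linarith
    have h5 : (C ^ ((k : ℝ) / 2) + Q) * Y ^ (-(k * (2 * σ - 1))) ≤ 2 * Q ^ e := by
      rw [← h2]
      have : 0 < Y ^ (-(k * (2 * σ - 1))) := by positivity
      nlinarith
    rw [h1]
    calc _ ≤ A * (C * Q * Q') ^ ε * (Q ^ e + 2 * Q ^ e) := by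
          refine mul_le_mul_of_nonneg_left ?_ (by positivity)
          linarith
      _ = _ := by ring
  obtain ⟨i1, i2, i3, i4⟩ := ingham_exp k hk hσ1 hQ (Y := Q ^ (1 / (k + 2 - 2 * σ))) rfl
  have hI := hlast _ _ _ (Or.inl rfl) i1 i2 i3 i4
  rcases le_total σ (3 / 4) with h34 | h34
  · rw [zexp_left k hk hσ h34]
    exact hI
  · obtain ⟨m1, m2, m3, m4⟩ := mont_exp k hk h34 hσ1 hQ
      (Y := Q ^ ((3 * σ - 2) / ((2 * σ - 1) * (2 - 2 * σ + k * (2 * σ - 1))))) rfl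
    have hMo := hlast _ _ _ (Or.inr ⟨h34, rfl⟩) m1 m2 m3 m4
    refine ⟨hI.1, ?_⟩
    unfold zexp
    rcases min_cases (2 * (k + 1) / (k + 2 - 2 * σ)) ((k + 2) / (2 - 2 * σ + k * (2 * σ - 1))) with ⟨hm, -⟩ | ⟨hm, -⟩
    · rw [hm, div_mul_eq_mul_div]
      exact hI.2
    · rw [hm, div_mul_eq_mul_div]
      exact hMo.2

end Pool.Agent.U615.ZH
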