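import Pool.Agent.U615.ZH.Univ3
import Pool.Agent.U615.ZH.Cmp3
import Pool.Agent.N846.ZD.Lind3

/-! Exceptional values: the half plane. -/

set_option autoImplicit false

namespace Pool.Agent.U615.ZH

open Filter Topology Complex MeasureTheory Set NumberField IsDedekindDomain
open Pool.Agent.N846.DU (VX LV Nv logRS RS GLFamily Rep LV_nonneg one_le_cond shift_cond' S_LEFT S_DIAG)
open Pool.Agent.N846.LM (Twists cond_shift S_CHI)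
open Pool.Agent.N846.ZD (S_POW S_CONV S_BLOCK S_MOLL S_MB S_CVX S_TC S_TL one crit)
open Pool.Agent.N846.LV (S_LVD)
open Pool.Agent.N846.HU (S_DET S_PL)

/-- the last comparison -/
theorem fin3 {A₀ C Q Q' Y P C₁ Q₁ a a₂ b b₂ ε s s₂ W W₂ x : ℝ} {k : ℕ} (hA₀ : 0 < A₀) (hC : 1 ≤ C) (hQ : 1 ≤ Q)
    (hQ' : 1 ≤ Q') (hY : 1 ≤ Y) (hP : 1 ≤ P)
    (hC₁0 : 0 < C₁) (hQ₁0 : 0 < Q₁) (hPG : C₁ * Q₁ ≤ P * (C * Q))
    (hC₁ : C₁ ≤ P * C) (hQ₁ : Q₁ ≤ P * Q) (hYG : Y ≤ C * Q * Q') (hε : 0 < ε) (ha₂ : 0 ≤ a₂) (ha₂1 : a₂ ≤ 1)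
    (ha : a₂ ≤ a + ε / 8) (hb : b₂ ≤ b + ε / 8) (hs : k * s ≤ k * s₂ + ε / 8) (hW : W = Q ^ a * Y ^ b)
    (hW₂ : W₂ = Q₁ ^ a₂ * Y ^ b₂)
    (hbig : A₀ * P ^ (ε / 4) * P ^ (k + 1) ≤ (C * Q * Q') ^ (ε / 2))
    (hx : x ≤ A₀ * (C₁ * Q₁ * Q') ^ (ε / 4) * (W₂ + (C₁ ^ ((k : ℝ) / 2) + Q₁) * Y ^ (-(k * s₂)))) :
    x ≤ (C * Q * Q') ^ ε * (W + (C ^ ((k : ℝ) / 2) + Q) * Y ^ (-(k * s))) := by
  have hC0 : 0 < C := by linarith
  have hQ0 : 0 < Q := by linarith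
  have hY0 : 0 < Y := by linarith
  have hP0 : 0 < P := by linarith
  have hQ'0 : 0 < Q' := by linarith
  have hG0 : 0 < C * Q * Q' := by positivity
  have hQG : Q ≤ C * Q * Q' := by
    have h1 : Q ≤ C * Q := le_mul_of_one_le_left hQ0.le hC
    exact h1.trans (le_mul_of_one_le_right (by positivity) hQ')
  have hc := cmp3 hC hQ hY hP hC₁0 hQ₁0 hC₁ hQ₁ hYG hQG (by positivity : (0 : ℝ) ≤ ε / 8) ha₂ ha₂1 ha hb hs
  rw [← hW, ← hW₂] at hc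
  have hW0 : 0 < W := by rw [hW]; positivity
  have hU0 : 0 < W + (C ^ ((k : ℝ) / 2) + Q) * Y ^ (-(k * s)) := by positivity
  obtain ⟨U, hU⟩ : ∃ U : ℝ, U = W + (C ^ ((k : ℝ) / 2) + Q) * Y ^ (-(k * s)) := ⟨_, rfl⟩
  rw [← hU] at hc hU0 ⊢
  have e1 : (C₁ * Q₁ * Q') ^ (ε / 4) ≤ P ^ (ε / 4) * (C * Q * Q') ^ (ε / 4) := by
    rw [← Real.mul_rpow hP0.le hG0.le]
    refine Real.rpow_le_rpow (by positivity) ?_ (by positivity)
    calc C₁ * Q₁ * Q' ≤ P * (C * Q) * Q' := mul_le_mul_of_nonneg_right hPG hQ'0.le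
      _ = _ := by ring
  have e2 : (C * Q * Q') ^ (ε / 2) * ((C * Q * Q') ^ (ε / 4) * (C * Q * Q') ^ (2 * (ε / 8))) = (C * Q * Q') ^ ε := by
    rw [← Real.rpow_add hG0, ← Real.rpow_add hG0]
    congr 1
    ring
  have p1 : 0 < (C * Q * Q') ^ (ε / 4) := by positivity
  have p2 : 0 < (C * Q * Q') ^ (2 * (ε / 8)) := by positivity
  have p3 : 0 < P ^ (ε / 4) := by positivity
  calc x ≤ A₀ * (C₁ * Q₁ * Q') ^ (ε / 4) * (W₂ + (C₁ ^ ((k : ℝ) / 2) + Q₁) * Y ^ (-(k * s₂))) := hx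
    _ ≤ A₀ * (P ^ (ε / 4) * (C * Q * Q') ^ (ε / 4)) * (P ^ (k + 1) * (C * Q * Q') ^ (2 * (ε / 8)) * U) := by
        refine mul_le_mul (mul_le_mul_of_nonneg_left e1 hA₀.le) hc ?_ (by positivity)
        rw [hW₂]
        positivity
    _ = (A₀ * P ^ (ε / 4) * P ^ (k + 1)) * ((C * Q * Q') ^ (ε / 4) * (C * Q * Q') ^ (2 * (ε / 8))) * U := by ring
    _ ≤ (C * Q * Q') ^ (ε / 2) * ((C * Q * Q') ^ (ε / 4) * (C * Q * Q') ^ (2 * (ε / 8))) * U := by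
        refine mul_le_mul_of_nonneg_right (mul_le_mul_of_nonneg_right hbig (by positivity)) hU0.le
    _ = _ := by rw [e2]

/-- arbitrary families -/
theorem val3_all (hPow : S_POW) (hConv : S_CONV) (hMo : S_MOLL) (hMb : S_MB) (hBl : S_BLOCK) (hL : S_LEFT)
    (hDi : S_DIAG) (hLvd : S_LVD) (hDet : S_DET) (hPl : S_PL) (hCvx : S_CVX) (hTc : S_TC)
    (K : Type) [Field K] [NumberField K] (n N n' N' N'' k : ℕ) (hn : 1 ≤ n) {ε σ : ℝ} (hε : 0 < ε)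
    (hσ : 1 / 2 < σ) (hσ1 : σ ≤ 1) :
    ∃ A : ℝ, 1 ≤ A ∧
    ∀ (ι : Type) (S : ι → Finset (HeightOneSpectrum (𝓞 K)))
      (α : ι → HeightOneSpectrum (𝓞 K) → Fin n → ℂ) (u : ι → VX K → ℂ) (q : ι → ι → ℝ) (κ : ι → ι → Fin N → ℂ)
      (S' : Finset (HeightOneSpectrum (𝓞 K))) (α' : HeightOneSpectrum (𝓞 K) → Fin n' → ℂ) (w : VX K → ℂ) (q' : ℝ)
      (κ' : Fin N'' → ℂ) (qs : ι → ℝ) (μ : ι → Fin N' → ℂ) (L : ι → ℂ → ℂ),
      GLFamily n N S α u q κ → Twists n' N' N'' u S' α' w q' κ' qs μ L →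
      ∀ (T : Set ι) (s : ι → ℂ) (C Q Q' Y : ℝ), 1 ≤ C → 1 ≤ Q → q' * ∏ j, (1 + ‖κ' j‖) ≤ Q' → A ≤ C * Q * Q' →
        1 ≤ Y → Y ≤ C * Q * Q' → (∀ f ∈ T, ∏ v ∈ S f, Nv v ≤ C * Q * Q') →
        (∀ f ∈ T, qs f * ∏ j, (1 + ‖μ f j + (s f).im * I‖) ≤ C) →
        (∀ f ∈ T, ∀ g ∈ T, q f g * ∏ j, (1 + ‖κ f g j + ((s f).im - (s g).im) * I‖) ≤ Q) →
        (∀ f ∈ T, σ ≤ (s f).re ∧ ¬((C * Q * Q') ^ (-ε) ≤ ‖L f (s f)‖ ∧ ‖L f (s f)‖ ≤ (C * Q * Q') ^ ε)) →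
        ∀ W : ℝ, (W = Q ^ (2 - 2 * σ) * Y ^ ((2 - 2 * σ) * (2 * σ - 1)) ∨
          (3 / 4 ≤ σ ∧ W = Q ^ ((2 - 2 * σ) / (4 * σ - 2)) * Y ^ (2 - 2 * σ))) →
        T.Finite ∧ (T.ncard : ℝ) ≤ (C * Q * Q') ^ ε *
          (W + (C ^ ((k : ℝ) / 2) + Q) * Y ^ (-(k * (2 * σ - 1)))) := by
  obtain ⟨σ₂, hs1, hs2, hs3, hs4, hs5, hs6⟩ := below3 k hσ (by positivity : 0 < ε / 8)
  obtain ⟨A₀, hA₀0, hA₀⟩ := zd3_all hPow hConv hMo hMb hBl hL hDi hLvd hDet hPl hCvx K n N n' N' N'' k hn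
    (ε := ε / 4) (by positivity)
  obtain ⟨A₁, hA₁1, hA₁⟩ := one hL hDi hCvx hTc K n N n' N' N'' (σ := σ₂) (σ' := σ) (δ := ε) (by linarith) hs2 hσ1 hε
  obtain ⟨P, hP⟩ : ∃ P : ℝ, P = (3 : ℝ) ^ N' * 5 ^ N := ⟨_, rfl⟩
  have h3N' : (1 : ℝ) ≤ 3 ^ N' := one_le_pow₀ (by norm_num)
  have h5N : (1 : ℝ) ≤ 5 ^ N := one_le_pow₀ (by norm_num)
  have hP1 : 1 ≤ P := by
    rw [hP]
    exact one_le_mul_of_one_le_of_one_le h3N' h5N
  have hP0 : 0 < P := by linarith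
  have hP3 : (3 : ℝ) ^ N' ≤ P := by
    rw [hP]
    exact le_mul_of_one_le_right (by positivity) h5N
  have hP5 : (5 : ℝ) ^ N ≤ P := by
    rw [hP]
    exact le_mul_of_one_le_left (by positivity) h3N'
  obtain ⟨A₂, hA₂⟩ : ∃ A₂ : ℝ, A₂ = A₀ * P ^ (ε / 4) * P ^ (k + 1) := ⟨_, rfl⟩
  have hA₂0 : 0 < A₂ := by rw [hA₂]; positivity
  refine ⟨max A₁ (A₂ ^ (2 / ε)), hA₁1.trans (le_max_left _ _), ?_⟩
  intro ι S α u q κ S' α' w q' κ' qs μ L h hT T s C Q Q' Y hC hQ hcQ' hAG hY hYG hram hcC hcQ hbad W hW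
  have hC0 : 0 < C := by linarith
  have hQ0 : 0 < Q := by linarith
  have hY0 : 0 < Y := by linarith
  have hQ'1 : 1 ≤ Q' := by
    have h2 := one_le_cond (κ := κ') hT.self.one_le 0
    simp only [add_zero] at h2
    linarith
  have hQ'0 : 0 < Q' := by linarith
  have hq1 : ∀ f g, 1 ≤ q f g := by
    intro f g
    by_cases hfg : f = g
    · rw [hfg]
      exact (h.self g).one_le
    · exact (h.pair f g hfg).one_le
  have hG1 : 1 ≤ C * Q * Q' := hA₁1.trans ((le_max_left _ _).trans hAG)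
  have hG0 : 0 < C * Q * Q' := by linarith
  have e7 : A₂ ≤ (C * Q * Q') ^ (ε / 2) := by
    have h3 : (A₂ ^ (2 / ε)) ^ (ε / 2) ≤ (C * Q * Q') ^ (ε / 2) :=
      Real.rpow_le_rpow (by positivity) ((le_max_right _ _).trans hAG) (by positivity)
    rw [← Real.rpow_mul hA₂0.le, show 2 / ε * (ε / 2) = 1 by field_simp, Real.rpow_one] at h3
    exact h3
  rw [hA₂] at e7
  -- a zero close to `s f`
  have hch : ∀ f, ∃ ρ : ℂ, f ∈ T → L f ρ = 0 ∧ σ₂ ≤ ρ.re ∧ |ρ.im - (s f).im| ≤ 2 := by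
    intro f
    by_cases hf : f ∈ T
    · by_contra hne
      push Not at hne
      obtain ⟨hre, hb⟩ := hbad f hf
      refine hb ?_
      have hcQf : q f f * ∏ j, (1 + ‖κ f f j‖) ≤ Q := by
        have := hcQ f hf f hf
        simpa only [sub_self, zero_mul, add_zero] using this
      refine hA₁ ι S α u q κ S' α' w q' κ' qs μ L h hT f (s f).im C Q Q' hC hQ hcQ' (hcC f hf) hcQf
        ((le_max_left _ _).trans hAG) ?_ (s f) hre rfl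
      intro ρ hρ1 hρ2 hρ3
      obtain ⟨-, h5⟩ := hne ρ
      exact absurd (h5 hρ3 hρ1.le) (not_lt.2 hρ2.le)
    · exact ⟨0, fun h' => absurd h' hf⟩
  choose ρ hρ using hch
  have hcC' : ∀ f ∈ T, qs f * ∏ j, (1 + ‖μ f j + (ρ f).im * I‖) ≤ 3 ^ N' * C := by
    intro f hf
    have h3 := shift_cond' (κ := μ f) (hT.rs f).one_le (z := ((s f).im : ℂ) * I)
      (w := (((ρ f).im - (s f).im : ℝ) : ℂ) * I) (c := 2) (by
        rw [norm_mul, Complex.norm_I, mul_one, Complex.norm_real, Real.norm_eq_abs]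
        exact (hρ f hf).2.2)
    rw [show (1 + 2 : ℝ) = 3 by norm_num] at h3
    refine le_trans (le_of_eq ?_) (h3.trans (mul_le_mul_of_nonneg_left (hcC f hf) (by positivity)))
    congr 1
    refine Finset.prod_congr rfl fun j _ => ?_
    congr 2
    push_cast
    ring
  have hcQ'' : ∀ f ∈ T, ∀ g ∈ T, q f g * ∏ j, (1 + ‖κ f g j + ((ρ f).im - (ρ g).im) * I‖) ≤ 5 ^ N * Q := by
    intro f hf g hg
    have h3 := shift_cond' (κ := κ f g) (hq1 f g) (z := (((s f).im : ℂ) - (s g).im) * I)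
      (w := (((ρ f).im - (s f).im - ((ρ g).im - (s g).im) : ℝ) : ℂ) * I) (c := 4) (by
        rw [norm_mul, Complex.norm_I, mul_one, Complex.norm_real, Real.norm_eq_abs]
        refine (abs_sub _ _).trans ?_
        linarith [(hρ f hf).2.2, (hρ g hg).2.2])
    rw [show (1 + 4 : ℝ) = 5 by norm_num] at h3
    refine le_trans (le_of_eq ?_) (h3.trans (mul_le_mul_of_nonneg_left (hcQ f hf g hg) (by positivity)))
    congr 1
    refine Finset.prod_congr rfl fun j _ => ?_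
    congr 2
    push_cast
    ring
  have hC₁ : 3 ^ N' * C ≤ P * C := mul_le_mul_of_nonneg_right hP3 hC0.le
  have hQ₁ : 5 ^ N * Q ≤ P * Q := mul_le_mul_of_nonneg_right hP5 hQ0.le
  have hPG : 3 ^ N' * C * (5 ^ N * Q) ≤ P * (C * Q) := by
    rw [hP]
    exact le_of_eq (by ring)
  have hGG : C * Q * Q' ≤ 3 ^ N' * C * (5 ^ N * Q) * Q' := by
    refine mul_le_mul_of_nonneg_right (mul_le_mul ?_ ?_ hQ0.le (by positivity)) hQ'0.le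
    · exact le_mul_of_one_le_left hC0.le h3N'
    · exact le_mul_of_one_le_left hQ0.le h5N
  have hz : ∀ f ∈ T, L f (ρ f) = 0 ∧ σ₂ ≤ (ρ f).re := fun f hf => ⟨(hρ f hf).1, (hρ f hf).2.1⟩
  have hkey := hA₀ ι S α u q κ S' α' w q' κ' qs μ L h hT T ρ σ₂ (3 ^ N' * C) (5 ^ N * Q) Q' Y hs1.le
    (by nlinarith) (by nlinarith) hcQ' hY (hYG.trans hGG) (fun f hf => (hram f hf).trans hGG) hz hcC' hcQ''
  have hA : T.Finite ∧ (T.ncard : ℝ) ≤ (C * Q * Q') ^ ε * (Q ^ (2 - 2 * σ) * Y ^ ((2 - 2 * σ) * (2 * σ - 1)) +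
      (C ^ ((k : ℝ) / 2) + Q) * Y ^ (-(k * (2 * σ - 1)))) := by
    obtain ⟨hfin, hmain⟩ := hkey _ (Or.inl rfl)
    refine ⟨hfin, ?_⟩
    exact fin3 hA₀0 hC hQ hQ'1 hY hP1 (by positivity) (by positivity) hPG hC₁ hQ₁ hYG hε (by linarith)
      (by linarith) hs3 hs4 hs6 rfl rfl e7 hmain
  rcases hW with hW | ⟨h34, hW⟩
  · rw [hW]
    exact hA
  · rcases h34.eq_or_lt with h34 | h34
    · refine ⟨hA.1, hA.2.trans (mul_le_mul_of_nonneg_left (add_le_add ?_ le_rfl) (by positivity))⟩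
      rw [hW, ← h34]
      norm_num
      refine mul_le_mul_of_nonneg_left ?_ (by positivity)
      exact Real.rpow_le_rpow_of_exponent_le hY (by norm_num)
    · obtain ⟨h35, h36⟩ := hs5 h34
      obtain ⟨hfin, hmain⟩ := hkey _ (Or.inr ⟨h35, rfl⟩)
      refine ⟨hfin, ?_⟩
      refine fin3 hA₀0 hC hQ hQ'1 hY hP1 (by positivity) (by positivity) hPG hC₁ hQ₁ hYG hε
        (div_nonneg (by linarith) (by linarith)) ?_ h36 hs3 hs6 hW rfl e7 hmain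
      rw [div_le_one (by linarith)]
      linarith

end Pool.Agent.U615.ZH
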