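import Pool.Agent.U615.ZH.Lin3

/-! Exceptional values: the critical strip, and both. -/

set_option autoImplicit false

namespace Pool.Agent.U615.ZH

open Filter Topology Complex MeasureTheory Set NumberField IsDedekindDomain
open Pool.Agent.N846.DU (VX LV Nv logRS RS GLFamily Rep LV_nonneg one_le_cond shift_cond' S_LEFT S_DIAG)
open Pool.Agent.N846.LM (Twists cond_shift S_CHI)
open Pool.Agent.N846.ZD (S_POW S_CONV S_BLOCK S_MOLL S_MB S_CVX S_TC S_TL one crit logpow)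
open Pool.Agent.N846.LV (S_LVD)
open Pool.Agent.N846.HU (S_DET S_PL)

/-- arbitrary families: large values in the critical strip -/
theorem val3_crit (hPow : S_POW) (hConv : S_CONV) (hMo : S_MOLL) (hMb : S_MB) (hBl : S_BLOCK) (hL : S_LEFT)
    (hDi : S_DIAG) (hLvd : S_LVD) (hDet : S_DET) (hPl : S_PL) (hCvx : S_CVX) (hTc : S_TC) (hTl : S_TL) (hCh : S_CHI)
    (K : Type) [Field K] [NumberField K] (n N n' N' N'' k : ℕ) (hn : 1 ≤ n) {ε σ : ℝ} (hε : 0 < ε)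
    (hσ : 1 / 2 < σ) (hσ1 : σ ≤ 3 / 4) :
    ∃ A : ℝ, 1 ≤ A ∧
    ∀ (ι : Type) (S : ι → Finset (HeightOneSpectrum (𝓞 K)))
      (α : ι → HeightOneSpectrum (𝓞 K) → Fin n → ℂ) (u : ι → VX K → ℂ) (q : ι → ι → ℝ) (κ : ι → ι → Fin N → ℂ)
      (S' : Finset (HeightOneSpectrum (𝓞 K))) (α' : HeightOneSpectrum (𝓞 K) → Fin n' → ℂ) (w : VX K → ℂ) (q' : ℝ)
      (κ' : Fin N'' → ℂ) (qs : ι → ℝ) (μ : ι → Fin N' → ℂ) (L : ι → ℂ → ℂ),
      GLFamily n N S α u q κ → Twists n' N' N'' u S' α' w q' κ' qs μ L →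
      ∀ (T : Set ι) (s : ι → ℂ) (C Q Q' Y : ℝ), 1 ≤ C → 1 ≤ Q → q' * ∏ j, (1 + ‖κ' j‖) ≤ Q' → A ≤ C * Q * Q' →
        1 ≤ Y → Y ≤ C * Q * Q' → (∀ f ∈ T, ∏ v ∈ S f, Nv v ≤ C * Q * Q') →
        (∀ f ∈ T, qs f * ∏ j, (1 + ‖μ f j + (s f).im * I‖) ≤ C) →
        (∀ f ∈ T, ∀ g ∈ T, q f g * ∏ j, (1 + ‖κ f g j + ((s f).im - (s g).im) * I‖) ≤ Q) →
        (∀ f ∈ T, 1 - σ ≤ (s f).re ∧ (s f).re ≤ σ ∧
          (C * Q * Q') ^ ε * C ^ ((σ - (s f).re) / 2) < ‖L f (s f)‖) →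
        T.Finite ∧ (T.ncard : ℝ) ≤ (C * Q * Q') ^ ε *
          (Q ^ (2 - 2 * σ) * Y ^ ((2 - 2 * σ) * (2 * σ - 1)) + (C ^ ((k : ℝ) / 2) + Q) * Y ^ (-(k * (2 * σ - 1)))) := by
  obtain ⟨A₁, hA₁1, hA₁⟩ := val3_all hPow hConv hMo hMb hBl hL hDi hLvd hDet hPl hCvx hTc K n N n' N' N'' k hn
    (ε := ε / 8) (σ := σ) (by positivity) hσ (by linarith)
  obtain ⟨A₂, hA₂1, hA₂⟩ := crit hL hDi hCvx hTl hCh K n N n' N' N'' (c := σ - 1 / 2) (by linarith) (by linarith)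
  obtain ⟨e, he⟩ : ∃ e : ℝ, e = min (ε / (8 * (k + 2))) 1 := ⟨_, rfl⟩
  have he0 : 0 < e := by
    rw [he]
    exact lt_min (by positivity) one_pos
  have he1 : e ≤ 1 := by rw [he]; exact min_le_right _ _
  have hek : e * (k + 2) ≤ ε / 8 := by
    have h1 : e ≤ ε / (8 * (k + 2)) := by rw [he]; exact min_le_left _ _
    calc e * (k + 2) ≤ ε / (8 * (k + 2)) * (k + 2) := mul_le_mul_of_nonneg_right h1 (by positivity)
      _ = ε / 8 := by field_simp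
  obtain ⟨G₀, hG₀1, hG₀⟩ := logpow N N' (e := e) he0
  have hA₂0 : 0 < A₂ := by linarith
  refine ⟨max (max A₁ A₂) (max G₀ (A₂ ^ (2 / ε))), hA₁1.trans ((le_max_left _ _).trans (le_max_left _ _)), ?_⟩
  intro ι S α u q κ S' α' w q' κ' qs μ L h hT T s C Q Q' Y hC hQ hcQ' hAG hY hYG hram hcC hcQ hbad
  have hAG1 : A₁ ≤ C * Q * Q' := ((le_max_left _ _).trans (le_max_left _ _)).trans hAG
  have hAG2 : A₂ ≤ C * Q * Q' := ((le_max_right _ _).trans (le_max_left _ _)).trans hAG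
  have hAG3 : G₀ ≤ C * Q * Q' := ((le_max_left _ _).trans (le_max_right _ _)).trans hAG
  have hAG4 : A₂ ^ (2 / ε) ≤ C * Q * Q' := ((le_max_right _ _).trans (le_max_right _ _)).trans hAG
  have hC0 : 0 < C := by linarith
  have hQ0 : 0 < Q := by linarith
  have hY0 : 0 < Y := by linarith
  have hQ'1 : 1 ≤ Q' := by
    have h2 := one_le_cond (κ := κ') hT.self.one_le 0
    simp only [add_zero] at h2
    linarith
  have hQ'0 : 0 < Q' := by linarith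
  have hq1 : ∀ f g, 1 ≤ q f g := by
    intro f g
    by_cases hfg : f = g
    · rw [hfg]
      exact (h.self g).one_le
    · exact (h.pair f g hfg).one_le
  have hG1 : 1 ≤ C * Q * Q' := hA₁1.trans hAG1
  have hG0 : 0 < C * Q * Q' := by linarith
  have hlG := Real.log_nonneg hG1
  obtain ⟨G, hG⟩ : ∃ G : ℝ, G = C * Q * Q' := ⟨_, rfl⟩
  rw [← hG] at hAG1 hAG2 hAG3 hAG4 hG1 hG0 hlG hYG hram hbad ⊢
  have hch : ∀ f, ∃ v : ℝ, f ∈ T → |v| ≤ Real.log G ∧ G ^ (ε / 2) < ‖L f ((σ : ℂ) + ((s f).im + v : ℝ) * I)‖ := by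
    intro f
    by_cases hf : f ∈ T
    · by_contra hne
      push Not at hne
      obtain ⟨hr1, hr2, hb⟩ := hbad f hf
      have hcQf : q f f * ∏ j, (1 + ‖κ f f j‖) ≤ Q := by
        have := hcQ f hf f hf
        simpa only [sub_self, zero_mul, add_zero] using this
      have h3 := hA₂ ι S α u q κ S' α' w q' κ' qs μ L h hT f (s f).im C Q Q' (G ^ (ε / 2)) hC hQ hcQ' (hcC f hf)
        hcQf (hG ▸ hAG2) (Real.one_le_rpow hG1 (by positivity)) (fun v hv => by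
          rw [show (1 / 2 + (σ - 1 / 2) : ℝ) = σ by ring]
          rw [← hG] at hv
          exact (hne v).2 hv) (s f) (by linarith) (by linarith) rfl
      rw [show (1 / 2 + (σ - 1 / 2) : ℝ) = σ by ring] at h3
      have h4 : A₂ ≤ G ^ (ε / 2) := by
        have h5 : (A₂ ^ (2 / ε)) ^ (ε / 2) ≤ G ^ (ε / 2) := Real.rpow_le_rpow (by positivity) hAG4 (by positivity)
        rw [← Real.rpow_mul hA₂0.le, show 2 / ε * (ε / 2) = 1 by field_simp, Real.rpow_one] at h5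
        exact h5
      have h6 : A₂ * G ^ (ε / 2) * C ^ ((σ - (s f).re) / 2) ≤ G ^ ε * C ^ ((σ - (s f).re) / 2) := by
        refine mul_le_mul_of_nonneg_right ?_ (by positivity)
        calc A₂ * G ^ (ε / 2) ≤ G ^ (ε / 2) * G ^ (ε / 2) := mul_le_mul_of_nonneg_right h4 (by positivity)
          _ = G ^ ε := by
            rw [← Real.rpow_add hG0]
            congr 1
            ring
      linarith
    · exact ⟨0, fun h' => absurd h' hf⟩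
  choose v hv using hch
  obtain ⟨s', hs'⟩ : ∃ s' : ι → ℂ, s' = fun f => (σ : ℂ) + ((s f).im + v f : ℝ) * I := ⟨_, rfl⟩
  have him : ∀ f, (s' f).im = (s f).im + v f := fun f => by simp [hs']
  have hre : ∀ f, (s' f).re = σ := fun f => by simp [hs']
  obtain ⟨C₁, hC₁⟩ : ∃ C₁ : ℝ, C₁ = (1 + Real.log G) ^ N' * C := ⟨_, rfl⟩
  obtain ⟨Q₁, hQ₁⟩ : ∃ Q₁ : ℝ, Q₁ = (1 + 2 * Real.log G) ^ N * Q := ⟨_, rfl⟩
  obtain ⟨P, hP⟩ : ∃ P : ℝ, P = (1 + Real.log G) ^ N' * (1 + 2 * Real.log G) ^ N := ⟨_, rfl⟩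
  have hl1 : 1 ≤ (1 + Real.log G) ^ N' := one_le_pow₀ (by linarith)
  have hl2 : 1 ≤ (1 + 2 * Real.log G) ^ N := one_le_pow₀ (by linarith)
  have hP1 : 1 ≤ P := by
    rw [hP]
    exact one_le_mul_of_one_le_of_one_le hl1 hl2
  have hP0 : 0 < P := by linarith
  have hPe : P ≤ G ^ e := by
    rw [hP]
    exact hG₀ G hAG3
  have hC₁1 : C ≤ C₁ := by
    rw [hC₁]
    exact le_mul_of_one_le_left hC0.le hl1
  have hQ₁1 : Q ≤ Q₁ := by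
    rw [hQ₁]
    exact le_mul_of_one_le_left hQ0.le hl2
  have hC₁0 : 0 < C₁ := by linarith
  have hQ₁0 : 0 < Q₁ := by linarith
  have hC₁P : C₁ ≤ P * C := by
    rw [hC₁, hP]
    exact mul_le_mul_of_nonneg_right (le_mul_of_one_le_right (by positivity) hl2) hC0.le
  have hQ₁P : Q₁ ≤ P * Q := by
    rw [hQ₁, hP]
    exact mul_le_mul_of_nonneg_right (le_mul_of_one_le_left (by positivity) hl1) hQ0.le
  have hGG : G ≤ C₁ * Q₁ * Q' := by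
    rw [hG]
    exact mul_le_mul_of_nonneg_right (mul_le_mul hC₁1 hQ₁1 hQ0.le hC₁0.le) hQ'0.le
  have hG₁ : C₁ * Q₁ * Q' = P * G := by
    calc C₁ * Q₁ * Q' = ((1 + Real.log G) ^ N' * (1 + 2 * Real.log G) ^ N) * (C * Q * Q') := by
          rw [hC₁, hQ₁]
          ring
      _ = P * G := by rw [← hG, hP]
  have hPG1 : P ≤ G := by
    calc P ≤ G ^ e := hPe
      _ ≤ G ^ (1 : ℝ) := Real.rpow_le_rpow_of_exponent_le hG1 he1
      _ = G := Real.rpow_one G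
  have hG₁2 : C₁ * Q₁ * Q' ≤ G ^ (2 : ℝ) := by
    rw [hG₁]
    calc _ ≤ G * G := mul_le_mul_of_nonneg_right hPG1 hG0.le
      _ = G ^ (2 : ℝ) := by
        rw [Real.rpow_two]
        ring
  have hG₁0 : 0 < C₁ * Q₁ * Q' := by positivity
  have hGe : (C₁ * Q₁ * Q') ^ (ε / 8) ≤ G ^ (ε / 4) := by
    calc _ ≤ (G ^ (2 : ℝ)) ^ (ε / 8) := Real.rpow_le_rpow hG₁0.le hG₁2 (by positivity)
      _ = G ^ (ε / 4) := by
        rw [← Real.rpow_mul hG0.le]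
        congr 1
        ring
  have f1 : ∀ f ∈ T, σ ≤ (s' f).re ∧ ¬((C₁ * Q₁ * Q') ^ (-(ε / 8)) ≤ ‖L f (s' f)‖ ∧
      ‖L f (s' f)‖ ≤ (C₁ * Q₁ * Q') ^ (ε / 8)) := by
    intro f hf
    refine ⟨(hre f).ge, fun hh => ?_⟩
    have h3 := (hv f hf).2
    have h4 := hh.2.trans hGe
    have h5 : G ^ (ε / 4) ≤ G ^ (ε / 2) := Real.rpow_le_rpow_of_exponent_le hG1 (by linarith)
    rw [hs'] at h4
    have h6 : ‖L f ((σ : ℂ) + ((s f).im + v f : ℝ) * I)‖ ≤ G ^ (ε / 4) := h4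
    linarith
  have f2 : ∀ f ∈ T, qs f * ∏ j, (1 + ‖μ f j + (s' f).im * I‖) ≤ C₁ := by
    intro f hf
    have h3 := shift_cond' (κ := μ f) (hT.rs f).one_le (z := ((s f).im : ℂ) * I)
      (w := ((v f : ℝ) : ℂ) * I) (c := Real.log G) (by
        rw [norm_mul, Complex.norm_I, mul_one, Complex.norm_real, Real.norm_eq_abs]
        exact (hv f hf).1)
    rw [hC₁]
    refine le_trans (le_of_eq ?_) (h3.trans (mul_le_mul_of_nonneg_left (hcC f hf) (by positivity)))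
    congr 1
    refine Finset.prod_congr rfl fun j _ => ?_
    rw [him f]
    congr 2
    push_cast
    ring
  have f3 : ∀ f ∈ T, ∀ g ∈ T, q f g * ∏ j, (1 + ‖κ f g j + ((s' f).im - (s' g).im) * I‖) ≤ Q₁ := by
    intro f hf g hg
    have h3 := shift_cond' (κ := κ f g) (hq1 f g) (z := (((s f).im : ℂ) - (s g).im) * I)
      (w := ((v f - v g : ℝ) : ℂ) * I) (c := 2 * Real.log G) (by
        rw [norm_mul, Complex.norm_I, mul_one, Complex.norm_real, Real.norm_eq_abs]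
        refine (abs_sub _ _).trans ?_
        linarith [(hv f hf).1, (hv g hg).1])
    rw [hQ₁]
    refine le_trans (le_of_eq ?_) (h3.trans (mul_le_mul_of_nonneg_left (hcQ f hf g hg) (by positivity)))
    congr 1
    refine Finset.prod_congr rfl fun j _ => ?_
    rw [him f, him g]
    congr 2
    push_cast
    ring
  obtain ⟨hfin, hmain⟩ := hA₁ ι S α u q κ S' α' w q' κ' qs μ L h hT T s' C₁ Q₁ Q' Y (hC.trans hC₁1) (hQ.trans hQ₁1)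
    hcQ' (hAG1.trans hGG) hY (hYG.trans hGG) (fun f hf => (hram f hf).trans hGG) f2 f3 f1 _ (Or.inl rfl)
  refine ⟨hfin, hmain.trans ?_⟩
  have hQG : Q ≤ G := by
    rw [hG]
    have h1 : Q ≤ C * Q := le_mul_of_one_le_left hQ0.le hC
    exact h1.trans (le_mul_of_one_le_right (by positivity) hQ'1)
  have hc := cmp3 (k := k) (δ := 0) (a := 2 - 2 * σ) (a₂ := 2 - 2 * σ) (b := (2 - 2 * σ) * (2 * σ - 1))
    (b₂ := (2 - 2 * σ) * (2 * σ - 1)) (s := 2 * σ - 1) (s₂ := 2 * σ - 1)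
    hC hQ hY hP1 hC₁0 hQ₁0 hC₁P hQ₁P hYG hQG le_rfl (by linarith) (by linarith)
    (by linarith) (by linarith) (by linarith)
  obtain ⟨U, hU⟩ : ∃ U : ℝ, U = Q ^ (2 - 2 * σ) * Y ^ ((2 - 2 * σ) * (2 * σ - 1)) +
    (C ^ ((k : ℝ) / 2) + Q) * Y ^ (-(k * (2 * σ - 1))) := ⟨_, rfl⟩
  have hU0 : 0 < U := by
    rw [hU]
    positivity
  rw [← hU] at hc ⊢
  rw [mul_zero, Real.rpow_zero, mul_one] at hc
  have hPk : P ^ (k + 1) ≤ G ^ (ε / 8) := by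
    calc P ^ (k + 1) ≤ (G ^ e) ^ (k + 1) := pow_le_pow_left₀ hP0.le hPe _
      _ = G ^ (e * (k + 1)) := by
        rw [← Real.rpow_natCast, ← Real.rpow_mul hG0.le]
        push_cast
        rfl
      _ ≤ _ := Real.rpow_le_rpow_of_exponent_le hG1 (by linarith)
  calc _ ≤ G ^ (ε / 4) * (P ^ (k + 1) * U) := by
        refine mul_le_mul hGe hc ?_ (by positivity)
        positivity
    _ ≤ G ^ (ε / 4) * (G ^ (ε / 8) * U) :=
        mul_le_mul_of_nonneg_left (mul_le_mul_of_nonneg_right hPk hU0.le) (by positivity)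
    _ = G ^ (ε / 4 + ε / 8) * U := by
        rw [Real.rpow_add hG0]
        ring
    _ ≤ _ := mul_le_mul_of_nonneg_right (Real.rpow_le_rpow_of_exponent_le hG1 (by linarith)) hU0.le

/-- arbitrary families: both kinds of exceptional values -/
theorem val3_both (hPow : S_POW) (hConv : S_CONV) (hMo : S_MOLL) (hMb : S_MB) (hBl : S_BLOCK) (hL : S_LEFT)
    (hDi : S_DIAG) (hLvd : S_LVD) (hDet : S_DET) (hPl : S_PL) (hCvx : S_CVX) (hTc : S_TC) (hTl : S_TL) (hCh : S_CHI)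
    (K : Type) [Field K] [NumberField K] (n N n' N' N'' k : ℕ) (hn : 1 ≤ n) {ε σ : ℝ} (hε : 0 < ε)
    (hσ : 1 / 2 < σ) (hσ1 : σ ≤ 1) :
    ∃ A : ℝ, 1 ≤ A ∧
    ∀ (ι : Type) (S : ι → Finset (HeightOneSpectrum (𝓞 K)))
      (α : ι → HeightOneSpectrum (𝓞 K) → Fin n → ℂ) (u : ι → VX K → ℂ) (q : ι → ι → ℝ) (κ : ι → ι → Fin N → ℂ)
      (S' : Finset (HeightOneSpectrum (𝓞 K))) (α' : HeightOneSpectrum (𝓞 K) → Fin n' → ℂ) (w : VX K → ℂ) (q' : ℝ)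
      (κ' : Fin N'' → ℂ) (qs : ι → ℝ) (μ : ι → Fin N' → ℂ) (L : ι → ℂ → ℂ),
      GLFamily n N S α u q κ → Twists n' N' N'' u S' α' w q' κ' qs μ L →
      ∀ (T : Set ι) (s : ι → ℂ) (C Q Q' Y : ℝ), 1 ≤ C → 1 ≤ Q → q' * ∏ j, (1 + ‖κ' j‖) ≤ Q' → A ≤ C * Q * Q' →
        1 ≤ Y → Y ≤ C * Q * Q' → (∀ f ∈ T, ∏ v ∈ S f, Nv v ≤ C * Q * Q') →
        (∀ f ∈ T, qs f * ∏ j, (1 + ‖μ f j + (s f).im * I‖) ≤ C) →
        (∀ f ∈ T, ∀ g ∈ T, q f g * ∏ j, (1 + ‖κ f g j + ((s f).im - (s g).im) * I‖) ≤ Q) →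
        (∀ f ∈ T,
          (σ ≤ (s f).re ∧ ¬((C * Q * Q') ^ (-ε) ≤ ‖L f (s f)‖ ∧ ‖L f (s f)‖ ≤ (C * Q * Q') ^ ε)) ∨
          (σ ≤ 3 / 4 ∧ 1 - σ ≤ (s f).re ∧ (s f).re ≤ σ ∧
            (C * Q * Q') ^ ε * C ^ ((σ - (s f).re) / 2) < ‖L f (s f)‖)) →
        ∀ W : ℝ, (W = Q ^ (2 - 2 * σ) * Y ^ ((2 - 2 * σ) * (2 * σ - 1)) ∨
          (3 / 4 ≤ σ ∧ W = Q ^ ((2 - 2 * σ) / (4 * σ - 2)) * Y ^ (2 - 2 * σ))) →
        T.Finite ∧ (T.ncard : ℝ) ≤ (C * Q * Q') ^ ε *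
          (W + (C ^ ((k : ℝ) / 2) + Q) * Y ^ (-(k * (2 * σ - 1)))) := by
  obtain ⟨A₁, hA₁1, hA₁⟩ := val3_all hPow hConv hMo hMb hBl hL hDi hLvd hDet hPl hCvx hTc K n N n' N' N'' k hn
    (ε := ε / 2) (σ := σ) (by positivity) hσ hσ1
  obtain ⟨A₂, hA₂1, hA₂⟩ : ∃ A₂ : ℝ, 1 ≤ A₂ ∧ (σ ≤ 3 / 4 →
    ∀ (ι : Type) (S : ι → Finset (HeightOneSpectrum (𝓞 K)))
      (α : ι → HeightOneSpectrum (𝓞 K) → Fin n → ℂ) (u : ι → VX K → ℂ) (q : ι → ι → ℝ) (κ : ι → ι → Fin N → ℂ)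
      (S' : Finset (HeightOneSpectrum (𝓞 K))) (α' : HeightOneSpectrum (𝓞 K) → Fin n' → ℂ) (w : VX K → ℂ) (q' : ℝ)
      (κ' : Fin N'' → ℂ) (qs : ι → ℝ) (μ : ι → Fin N' → ℂ) (L : ι → ℂ → ℂ),
      GLFamily n N S α u q κ → Twists n' N' N'' u S' α' w q' κ' qs μ L →
      ∀ (T : Set ι) (s : ι → ℂ) (C Q Q' Y : ℝ), 1 ≤ C → 1 ≤ Q → q' * ∏ j, (1 + ‖κ' j‖) ≤ Q' → A₂ ≤ C * Q * Q' →
        1 ≤ Y → Y ≤ C * Q * Q' → (∀ f ∈ T, ∏ v ∈ S f, Nv v ≤ C * Q * Q') →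
        (∀ f ∈ T, qs f * ∏ j, (1 + ‖μ f j + (s f).im * I‖) ≤ C) →
        (∀ f ∈ T, ∀ g ∈ T, q f g * ∏ j, (1 + ‖κ f g j + ((s f).im - (s g).im) * I‖) ≤ Q) →
        (∀ f ∈ T, 1 - σ ≤ (s f).re ∧ (s f).re ≤ σ ∧
          (C * Q * Q') ^ (ε / 2) * C ^ ((σ - (s f).re) / 2) < ‖L f (s f)‖) →
        T.Finite ∧ (T.ncard : ℝ) ≤ (C * Q * Q') ^ (ε / 2) *
          (Q ^ (2 - 2 * σ) * Y ^ ((2 - 2 * σ) * (2 * σ - 1)) +
            (C ^ ((k : ℝ) / 2) + Q) * Y ^ (-(k * (2 * σ - 1))))) := by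
    by_cases h34 : σ ≤ 3 / 4
    · obtain ⟨A₂, h1, h2⟩ := val3_crit hPow hConv hMo hMb hBl hL hDi hLvd hDet hPl hCvx hTc hTl hCh K n N n' N' N''
        k hn (ε := ε / 2) (by positivity) hσ h34
      exact ⟨A₂, h1, fun _ => h2⟩
    · exact ⟨1, le_refl 1, fun h => absurd h h34⟩
  refine ⟨max (max A₁ A₂) ((2 : ℝ) ^ (2 / ε)), hA₁1.trans ((le_max_left _ _).trans (le_max_left _ _)), ?_⟩
  intro ι S α u q κ S' α' w q' κ' qs μ L h hT T s C Q Q' Y hC hQ hcQ' hAG hY hYG hram hcC hcQ hbad W hW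
  have hAG1 : A₁ ≤ C * Q * Q' := ((le_max_left _ _).trans (le_max_left _ _)).trans hAG
  have hAG2 : A₂ ≤ C * Q * Q' := ((le_max_right _ _).trans (le_max_left _ _)).trans hAG
  have hAG3 : (2 : ℝ) ^ (2 / ε) ≤ C * Q * Q' := (le_max_right _ _).trans hAG
  have hC0 : 0 < C := by linarith
  have hQ0 : 0 < Q := by linarith
  have hY0 : 0 < Y := by linarith
  have hG1 : 1 ≤ C * Q * Q' := hA₁1.trans hAG1
  have hG0 : 0 < C * Q * Q' := by linarith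
  have h2 : 2 ≤ (C * Q * Q') ^ (ε / 2) := by
    have h3 : ((2 : ℝ) ^ (2 / ε)) ^ (ε / 2) ≤ (C * Q * Q') ^ (ε / 2) :=
      Real.rpow_le_rpow (by positivity) hAG3 (by positivity)
    rw [← Real.rpow_mul (by norm_num), show 2 / ε * (ε / 2) = 1 by field_simp, Real.rpow_one] at h3
    exact h3
  have hle : (C * Q * Q') ^ (ε / 2) ≤ (C * Q * Q') ^ ε := Real.rpow_le_rpow_of_exponent_le hG1 (by linarith)
  have hge : (C * Q * Q') ^ (-ε) ≤ (C * Q * Q') ^ (-(ε / 2)) := Real.rpow_le_rpow_of_exponent_le hG1 (by linarith)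
  obtain ⟨f1, c1⟩ := hA₁ ι S α u q κ S' α' w q' κ' qs μ L h hT
    {f ∈ T | σ ≤ (s f).re ∧ ¬((C * Q * Q') ^ (-ε) ≤ ‖L f (s f)‖ ∧ ‖L f (s f)‖ ≤ (C * Q * Q') ^ ε)} s C Q Q' Y hC hQ
    hcQ' hAG1 hY hYG (fun f hf => hram f hf.1) (fun f hf => hcC f hf.1)
    (fun f hf g hg => hcQ f hf.1 g hg.1) (fun f hf => ⟨hf.2.1, fun hh => hf.2.2 ⟨hge.trans hh.1, hh.2.trans hle⟩⟩)
    W hW
  -- the second kind, for both choices of `W`
  have hW1 : σ ≤ 3 / 4 → Q ^ (2 - 2 * σ) * Y ^ ((2 - 2 * σ) * (2 * σ - 1)) ≤ W := by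
    intro h34
    rcases hW with hW | ⟨h35, hW⟩
    · rw [hW]
    · have h36 : σ = 3 / 4 := le_antisymm h34 h35
      rw [hW, h36]
      norm_num
      refine mul_le_mul_of_nonneg_left ?_ (by positivity)
      exact Real.rpow_le_rpow_of_exponent_le hY (by norm_num)
  have hW0 : 0 < W := by
    rcases hW with hW | ⟨-, hW⟩
    · rw [hW]
      positivity
    · rw [hW]
      positivity
  obtain ⟨V, hV⟩ : ∃ V : ℝ, V = W + (C ^ ((k : ℝ) / 2) + Q) * Y ^ (-(k * (2 * σ - 1))) := ⟨_, rfl⟩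
  have hV0 : 0 < V := by
    rw [hV]
    positivity
  rw [← hV] at c1 ⊢
  have hsecond : {f ∈ T | σ ≤ 3 / 4 ∧ 1 - σ ≤ (s f).re ∧ (s f).re ≤ σ ∧
      (C * Q * Q') ^ ε * C ^ ((σ - (s f).re) / 2) < ‖L f (s f)‖}.Finite ∧
      ({f ∈ T | σ ≤ 3 / 4 ∧ 1 - σ ≤ (s f).re ∧ (s f).re ≤ σ ∧
      (C * Q * Q') ^ ε * C ^ ((σ - (s f).re) / 2) < ‖L f (s f)‖}.ncard : ℝ) ≤
      (C * Q * Q') ^ (ε / 2) * V := by
    by_cases h34 : σ ≤ 3 / 4
    · obtain ⟨g1, g2⟩ := hA₂ h34 ι S α u q κ S' α' w q' κ' qs μ L h hT {f ∈ T | σ ≤ 3 / 4 ∧ 1 - σ ≤ (s f).re ∧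
        (s f).re ≤ σ ∧ (C * Q * Q') ^ ε * C ^ ((σ - (s f).re) / 2) < ‖L f (s f)‖} s C Q Q' Y hC hQ hcQ' hAG2 hY hYG
        (fun f hf => hram f hf.1) (fun f hf => hcC f hf.1) (fun f hf g hg => hcQ f hf.1 g hg.1) (fun f hf =>
        ⟨hf.2.2.1, hf.2.2.2.1, lt_of_le_of_lt (mul_le_mul_of_nonneg_right hle (by positivity)) hf.2.2.2.2⟩)
      refine ⟨g1, g2.trans (mul_le_mul_of_nonneg_left ?_ (by positivity))⟩
      rw [hV]
      exact add_le_add (hW1 h34) le_rfl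
    · have he : {f ∈ T | σ ≤ 3 / 4 ∧ 1 - σ ≤ (s f).re ∧ (s f).re ≤ σ ∧
          (C * Q * Q') ^ ε * C ^ ((σ - (s f).re) / 2) < ‖L f (s f)‖} = ∅ := by
        ext f
        simp only [mem_setOf_eq, mem_empty_iff_false, iff_false, not_and]
        intro _ h3
        exact absurd h3 h34
      rw [he]
      refine ⟨Set.finite_empty, ?_⟩
      rw [Set.ncard_empty]
      push_cast
      positivity
  obtain ⟨f2, c2⟩ := hsecond
  have hsub : T ⊆ {f ∈ T | σ ≤ (s f).re ∧ ¬((C * Q * Q') ^ (-ε) ≤ ‖L f (s f)‖ ∧ ‖L f (s f)‖ ≤ (C * Q * Q') ^ ε)} ∪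
      {f ∈ T | σ ≤ 3 / 4 ∧ 1 - σ ≤ (s f).re ∧ (s f).re ≤ σ ∧
      (C * Q * Q') ^ ε * C ^ ((σ - (s f).re) / 2) < ‖L f (s f)‖} := by
    intro f hf
    rcases hbad f hf with h3 | h3
    · exact Or.inl ⟨hf, h3⟩
    · exact Or.inr ⟨hf, h3⟩
  refine ⟨(f1.union f2).subset hsub, ?_⟩
  have h4 := (Set.ncard_le_ncard hsub (f1.union f2)).trans (Set.ncard_union_le _ _)
  have h5 : (T.ncard : ℝ) ≤ (C * Q * Q') ^ (ε / 2) * V + (C * Q * Q') ^ (ε / 2) * V := by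
    refine le_trans ?_ (add_le_add c1 c2)
    exact_mod_cast h4
  refine h5.trans ?_
  calc _ = 2 * ((C * Q * Q') ^ (ε / 2) * V) := by ring
    _ ≤ (C * Q * Q') ^ (ε / 2) * ((C * Q * Q') ^ (ε / 2) * V) :=
        mul_le_mul_of_nonneg_right h2 (by positivity)
    _ = ((C * Q * Q') ^ (ε / 2) * (C * Q * Q') ^ (ε / 2)) * V := by ring
    _ = _ := by
        rw [← Real.rpow_add hG0, add_halves]

end Pool.Agent.U615.ZH
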