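import Pool.Agent.U615.ZH.Univ3
import Pool.Agent.N846.ZD.Lind2

/-! Exceptional values in universal families. -/

set_option autoImplicit false

namespace Pool.Agent.U615.ZH

open Filter Topology Complex MeasureTheory Set NumberField IsDedekindDomain
open Pool.Agent.N846.DU (VX LV Nv logRS RS GLFamily Rep LV_nonneg one_le_cond shift_cond' S_LEFT S_DIAG)
open Pool.Agent.N846.LM (Twists cond_shift S_CHI)
open Pool.Agent.N846.ZD (S_POW S_CONV S_BLOCK S_MOLL S_MB S_CVX S_TC S_TL one crit)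
open Pool.Agent.N846.LV (S_LVD)
open Pool.Agent.N846.HU (S_DET S_PL)

theorem zexp_below {σ ε : ℝ} (k : ℕ) (hk : 1 ≤ k) (hσ : 1 / 2 < σ) (hσ1 : σ ≤ 1) (hε : 0 < ε) :
    ∃ σ₂ : ℝ, 1 / 2 ≤ σ₂ ∧ σ₂ < σ ∧ zexp k σ₂ ≤ zexp k σ + ε := by
  have hk0 : (1 : ℝ) ≤ k := by exact_mod_cast hk
  have hd1 : (1 : ℝ) ≤ 2 - 2 * σ + k * (2 * σ - 1) := by nlinarith
  have c2 : ContinuousAt (fun x : ℝ => 2 * ((k : ℝ) + 1) / (k + 2 - 2 * x)) σ := by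
    refine ContinuousAt.div (by fun_prop) (by fun_prop) ?_
    linarith
  have c3 : ContinuousAt (fun x : ℝ => ((k : ℝ) + 2) / (2 - 2 * x + k * (2 * x - 1))) σ := by
    refine ContinuousAt.div (by fun_prop) (by fun_prop) ?_
    linarith
  have c4 : ContinuousAt (fun x : ℝ => 1 - x) σ := by fun_prop
  have c1 : ContinuousAt (fun x : ℝ => zexp k x) σ := by
    have h := Filter.Tendsto.mul (Filter.Tendsto.min c2 c3) c4
    exact h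
  have e1 : ∀ᶠ x in 𝓝 σ, zexp k x < zexp k σ + ε := c1.eventually_lt_const (by linarith)
  have e3 : ∀ᶠ x in 𝓝 σ, 1 / 2 < x := eventually_gt_nhds hσ
  have e4 := ((e1.and e3).filter_mono (nhdsWithin_le_nhds (s := Iio σ))).and self_mem_nhdsWithin
  obtain ⟨x, ⟨h1, h2⟩, h4⟩ := e4.exists
  exact ⟨x, h2.le, h4, h1.le⟩

/-- universal families -/
theorem val3_univ (hPow : S_POW) (hConv : S_CONV) (hMo : S_MOLL) (hMb : S_MB) (hBl : S_BLOCK) (hL : S_LEFT)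
    (hDi : S_DIAG) (hLvd : S_LVD) (hDet : S_DET) (hPl : S_PL) (hCvx : S_CVX) (hTc : S_TC) (hTl : S_TL) (hCh : S_CHI)
    (K : Type) [Field K] [NumberField K] (n N n' N' N'' : ℕ) (hn : 1 ≤ n)
    {ε σ : ℝ} (hε : 0 < ε) (hσ : 1 / 2 < σ) (hσ1 : σ ≤ 1) (B Q' : ℝ) (hB : 1 ≤ B) (hQ' : 1 ≤ Q') :
    ∃ A c : ℝ, 1 ≤ A ∧ 0 < c ∧
    ∀ (ι : Type) (S : ι → Finset (HeightOneSpectrum (𝓞 K)))
      (α : ι → HeightOneSpectrum (𝓞 K) → Fin n → ℂ) (u : ι → VX K → ℂ) (q : ι → ι → ℝ) (κ : ι → ι → Fin N → ℂ)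
      (S' : Finset (HeightOneSpectrum (𝓞 K))) (α' : HeightOneSpectrum (𝓞 K) → Fin n' → ℂ) (w : VX K → ℂ) (q' : ℝ)
      (κ' : Fin N'' → ℂ) (qs : ι → ℝ) (μ : ι → Fin N' → ℂ) (L : ι → ℂ → ℂ) (C : ι → ℝ),
      GLFamily n N S α u q κ → Twists n' N' N'' u S' α' w q' κ' qs μ L → q' * ∏ j, (1 + ‖κ' j‖) ≤ Q' →
      (∀ f, qs f * ∏ j, (1 + ‖μ f j‖) ≤ C f) → (∀ f, ∏ v ∈ S f, Nv v ≤ C f) →
      (∀ f g, q f g * ∏ j, (1 + ‖κ f g j‖) ≤ B * (C f * C g) ^ n) →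
      ∀ X : ℝ, A ≤ X → ∃ E : Set ι, E.Finite ∧
        (E.ncard : ℝ) ≤ X ^ (2 * n * zexp (4 * n) σ + ε) ∧
        ∀ f, C f ≤ X → f ∉ E → ∀ s : ℂ, |s.im| ≤ X ^ c →
          (σ ≤ s.re → X ^ (-ε) ≤ ‖L f s‖ ∧ ‖L f s‖ ≤ X ^ ε) ∧
          (σ ≤ 3 / 4 → 1 - σ ≤ s.re → s.re ≤ σ → ‖L f s‖ ≤ X ^ ((σ - s.re) / 2 + ε)) := by
  have hn0 : (0 : ℝ) ≤ n := Nat.cast_nonneg n
  have hN'0 : (0 : ℝ) ≤ N' := Nat.cast_nonneg N'
  have hB0 : 0 < B := by linarith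
  have hQ'0 : 0 < Q' := by linarith
  obtain ⟨σ₂, hs1, hs2, hs3⟩ := zexp_below (4 * n) (by omega) hσ hσ1 (ε := ε / (2 * (2 * n + 1))) (by positivity)
  obtain ⟨A₀, c₀, hA₀1, hc₀, hA₀⟩ := zd3_univ hPow hConv hMo hMb hBl hL hDi hLvd hDet hPl hCvx K n N n' N' N'' hn
    (ε := ε / 2) (σ := σ₂) (by positivity) hs1 (by linarith) B Q' hB hQ'
  obtain ⟨c₁, hc₁⟩ : ∃ c₁ : ℝ, c₁ = min (c₀ / 2) (ε / (2 * (N' + 1))) := ⟨_, rfl⟩
  have hc₁0 : 0 < c₁ := by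
    rw [hc₁]
    exact lt_min (by positivity) (by positivity)
  have hc₁1 : c₁ ≤ c₀ / 2 := by rw [hc₁]; exact min_le_left _ _
  have hc₁2 : c₁ * N' ≤ ε / 2 := by
    have h1 : c₁ ≤ ε / (2 * (N' + 1)) := by rw [hc₁]; exact min_le_right _ _
    calc c₁ * N' ≤ ε / (2 * (N' + 1)) * (N' + 1) :=
          mul_le_mul h1 (by linarith) hN'0 (by positivity)
      _ = ε / 2 := by field_simp
  obtain ⟨g₀, hg₀⟩ : ∃ g₀ : ℝ, g₀ = 2 + 2 * n + c₁ * N' := ⟨_, rfl⟩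
  have hg₀0 : 0 < g₀ := by rw [hg₀]; positivity
  obtain ⟨A₁, hA₁1, hA₁⟩ := one hL hDi hCvx hTc K n N n' N' N'' (σ := σ₂) (σ' := σ) (δ := ε / (4 * g₀))
    (by linarith) hs2 hσ1 (by positivity)
  obtain ⟨A₂, hA₂1, hA₂⟩ : ∃ A₂ : ℝ, 1 ≤ A₂ ∧ (σ ≤ 3 / 4 →
    ∀ (ι : Type) (S : ι → Finset (HeightOneSpectrum (𝓞 K)))
      (α : ι → HeightOneSpectrum (𝓞 K) → Fin n → ℂ) (u : ι → VX K → ℂ) (q : ι → ι → ℝ) (κ : ι → ι → Fin N → ℂ)
      (S' : Finset (HeightOneSpectrum (𝓞 K))) (α' : HeightOneSpectrum (𝓞 K) → Fin n' → ℂ) (w : VX K → ℂ) (q' : ℝ)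
      (κ' : Fin N'' → ℂ) (qs : ι → ℝ) (μ : ι → Fin N' → ℂ) (L : ι → ℂ → ℂ),
      GLFamily n N S α u q κ → Twists n' N' N'' u S' α' w q' κ' qs μ L →
      ∀ (f : ι) (t C Q Q' H : ℝ), 1 ≤ C → 1 ≤ Q → q' * ∏ j, (1 + ‖κ' j‖) ≤ Q' →
        qs f * ∏ j, (1 + ‖μ f j + t * I‖) ≤ C → q f f * ∏ j, (1 + ‖κ f f j‖) ≤ Q → A₂ ≤ C * Q * Q' → 1 ≤ H →
        (∀ v : ℝ, |v| ≤ Real.log (C * Q * Q') → ‖L f ((σ : ℂ) + (t + v : ℝ) * I)‖ ≤ H) →
        ∀ s : ℂ, 1 - σ ≤ s.re → s.re ≤ σ → s.im = t →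
          ‖L f s‖ ≤ A₂ * H * C ^ ((σ - s.re) / 2)) := by
    by_cases h34 : σ ≤ 3 / 4
    · obtain ⟨A₂, h1, h2⟩ := crit hL hDi hCvx hTl hCh K n N n' N' N'' (c := σ - 1 / 2) (by linarith) (by linarith)
      refine ⟨A₂, h1, fun _ => ?_⟩
      intro ι S α u q κ S' α' w q' κ' qs μ L h hT f t C Q Q' H a1 a2 a3 a4 a5 a6 a7 a8 s a9 a10 a11
      have h3 := h2 ι S α u q κ S' α' w q' κ' qs μ L h hT f t C Q Q' H a1 a2 a3 a4 a5 a6 a7 (fun v hv => by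
        rw [show (1 / 2 + (σ - 1 / 2) : ℝ) = σ by ring]
        exact a8 v hv) s (by linarith) (by linarith) a11
      rw [show (1 / 2 + (σ - 1 / 2) : ℝ) = σ by ring] at h3
      exact h3
    · exact ⟨1, le_refl 1, fun h => absurd h h34⟩
  -- the size of X
  obtain ⟨X₀, hX₀⟩ : ∃ X₀ : ℝ, ∀ X, X₀ ≤ X → (3 : ℝ) ^ N' * B * Q' ≤ X ∧ X ^ c₁ + 2 ≤ X ^ c₀ ∧
      X ^ (c₁ / 2) + g₀ * Real.log X ≤ X ^ c₁ ∧ A₂ * 3 ^ N' ≤ X ^ (ε / 4) := by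
    have t1 : ∀ᶠ X : ℝ in atTop, (3 : ℝ) ^ N' * B * Q' ≤ X := eventually_ge_atTop _
    have t2 : ∀ᶠ X : ℝ in atTop, 1 ≤ X := eventually_ge_atTop _
    have t3 : ∀ᶠ X : ℝ in atTop, 3 ≤ X ^ c₁ := (tendsto_rpow_atTop hc₁0).eventually_ge_atTop 3
    have t4 : ∀ᶠ X : ℝ in atTop, A₂ * 3 ^ N' ≤ X ^ (ε / 4) :=
      (tendsto_rpow_atTop (by positivity : 0 < ε / 4)).eventually_ge_atTop _
    have t5 : ∀ᶠ X : ℝ in atTop, 2 ≤ X ^ (c₁ / 2) :=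
      (tendsto_rpow_atTop (by positivity : 0 < c₁ / 2)).eventually_ge_atTop 2
    have t6 : ∀ᶠ X : ℝ in atTop, g₀ * Real.log X ≤ X ^ (c₁ / 2) := by
      have h1 := (isLittleO_log_rpow_atTop (by positivity : 0 < c₁ / 2)).bound
        (show (0 : ℝ) < 1 / g₀ by positivity)
      filter_upwards [h1, eventually_ge_atTop (1 : ℝ)] with X hX hX1
      rw [Real.norm_of_nonneg (Real.log_nonneg hX1), Real.norm_of_nonneg (by positivity)] at hX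
      calc g₀ * Real.log X ≤ g₀ * (1 / g₀ * X ^ (c₁ / 2)) := mul_le_mul_of_nonneg_left hX hg₀0.le
        _ = X ^ (c₁ / 2) := by field_simp
    obtain ⟨X₀, hX₀⟩ := eventually_atTop.1 (t1.and (t2.and (t3.and (t4.and (t5.and t6)))))
    refine ⟨X₀, fun X hX => ?_⟩
    obtain ⟨b1, b2, b3, b4, b5, b6⟩ := hX₀ X hX
    have hX0 : 0 < X := by linarith
    refine ⟨b1, ?_, ?_, b4⟩
    · have h1 : (X ^ c₁) * (X ^ c₁) ≤ X ^ c₀ := by
        rw [← Real.rpow_add hX0]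
        exact Real.rpow_le_rpow_of_exponent_le b2 (by linarith)
      nlinarith
    · have h1 : X ^ c₁ = X ^ (c₁ / 2) * X ^ (c₁ / 2) := by
        rw [← Real.rpow_add hX0]
        congr 1
        ring
      rw [h1]
      nlinarith
  refine ⟨max (max A₀ A₁) (max A₂ X₀), c₁ / 2, hA₀1.trans ((le_max_left _ _).trans (le_max_left _ _)), by positivity, ?_⟩
  intro ι S α u q κ S' α' w q' κ' qs μ L C h hT hcQ' hC1 hS1 hC2 X hX
  have hXA₀ : A₀ ≤ X := ((le_max_left _ _).trans (le_max_left _ _)).trans hX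
  have hXA₁ : A₁ ≤ X := ((le_max_right _ _).trans (le_max_left _ _)).trans hX
  have hXA₂ : A₂ ≤ X := ((le_max_left _ _).trans (le_max_right _ _)).trans hX
  obtain ⟨hx1, hx2, hx3, hx4⟩ := hX₀ X (((le_max_right _ _).trans (le_max_right _ _)).trans hX)
  have hX1 : 1 ≤ X := hA₀1.trans hXA₀
  have hX0 : 0 < X := by linarith
  obtain ⟨hfin, hcard⟩ := hA₀ ι S α u q κ S' α' w q' κ' qs μ L C h hT hcQ' hC1 hS1 hC2 X hXA₀
  refine ⟨_, hfin, hcard.trans (Real.rpow_le_rpow_of_exponent_le hX1 ?_), ?_⟩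
  · have h1 : 2 * n * zexp (4 * n) σ₂ ≤ 2 * n * (zexp (4 * n) σ + ε / (2 * (2 * n + 1))) :=
      mul_le_mul_of_nonneg_left hs3 (by positivity)
    have h2 : 2 * n * (ε / (2 * (2 * n + 1))) + ε / (2 * (2 * n + 1)) = ε / 2 := by
      field_simp
    have h3 : 0 < ε / (2 * (2 * (n : ℝ) + 1)) := by positivity
    linarith
  intro f hfX hfE
  -- no zeros
  have hnz : ∀ ρ : ℂ, σ₂ ≤ ρ.re → |ρ.im| ≤ X ^ c₀ → L f ρ ≠ 0 := fun ρ h1 h2 h3 => hfE ⟨hfX, ρ, h3, h1, h2⟩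
  have hCf1 : 1 ≤ C f := by
    have h1 := one_le_cond (κ := μ f) (hT.rs f).one_le 0
    simp only [add_zero] at h1
    exact h1.trans (hC1 f)
  obtain ⟨Z, hZ⟩ : ∃ Z : ℝ, Z = X ^ c₁ := ⟨_, rfl⟩
  have hZ1 : 1 ≤ Z := by
    rw [hZ]
    exact Real.one_le_rpow hX1 hc₁0.le
  rw [← hZ] at hx2 hx3
  obtain ⟨Cx, hCx⟩ : ∃ Cx : ℝ, Cx = (3 * Z) ^ N' * X := ⟨_, rfl⟩
  obtain ⟨Qx, hQx⟩ : ∃ Qx : ℝ, Qx = B * (X * X) ^ n := ⟨_, rfl⟩
  have hCx1 : X ≤ Cx := by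
    have h1 : 1 ≤ (3 * Z) ^ N' := one_le_pow₀ (by linarith)
    rw [hCx]
    nlinarith
  have hQx1 : 1 ≤ Qx := by
    have h2 : 1 ≤ (X * X) ^ n := one_le_pow₀ (by nlinarith)
    rw [hQx]
    nlinarith
  have hCx0 : 0 < Cx := by linarith
  have hQx0 : 0 < Qx := by linarith
  have hXG : X ≤ Cx * Qx * Q' := by
    have h1 : Cx ≤ Cx * Qx := le_mul_of_one_le_right hCx0.le hQx1
    have h2 : Cx * Qx ≤ Cx * Qx * Q' := le_mul_of_one_le_right (by positivity) hQ'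
    linarith
  have hCxX : Cx = 3 ^ N' * X ^ (1 + c₁ * N') := by
    rw [hCx, hZ, mul_pow, ← Real.rpow_natCast (X ^ c₁), ← Real.rpow_mul hX0.le, Real.rpow_add hX0, Real.rpow_one]
    ring
  have hGX : Cx * Qx * Q' ≤ X ^ g₀ := by
    have e1 : (X * X) ^ n = X ^ (2 * (n : ℝ)) := by
      rw [← sq, ← pow_mul, ← Real.rpow_natCast]
      push_cast
      rfl
    have e2 : X ^ g₀ = X * (X ^ (1 + c₁ * N') * X ^ (2 * (n : ℝ))) := by
      rw [← Real.rpow_add hX0]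
      nth_rewrite 2 [← Real.rpow_one X]
      rw [← Real.rpow_add hX0, hg₀]
      congr 1
      ring
    rw [e2, hCxX, hQx, e1]
    calc _ = (3 ^ N' * B * Q') * (X ^ (1 + c₁ * N') * X ^ (2 * (n : ℝ))) := by ring
      _ ≤ _ := mul_le_mul_of_nonneg_right hx1 (by positivity)
  have hG0 : 0 < Cx * Qx * Q' := by positivity
  have hG1 : 1 ≤ Cx * Qx * Q' := hX1.trans hXG
  have hlogG : Real.log (Cx * Qx * Q') ≤ g₀ * Real.log X := by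
    rw [← Real.log_rpow hX0]
    exact Real.log_le_log hG0 hGX
  have hcondf : ∀ t : ℝ, |t| ≤ Z → qs f * ∏ j, (1 + ‖μ f j + t * I‖) ≤ Cx := by
    intro t ht
    rw [hCx]
    refine cond_shift (hT.rs f).one_le ?_ ((hC1 f).trans hfX)
    have h2 : ‖(t : ℂ) * I‖ = |t| := by simp
    rw [h2]
    linarith
  have hcondQ : q f f * ∏ j, (1 + ‖κ f f j‖) ≤ Qx := by
    rw [hQx]
    refine (hC2 f f).trans (mul_le_mul_of_nonneg_left ?_ hB0.le)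
    refine pow_le_pow_left₀ (by nlinarith) ?_ n
    exact mul_le_mul hfX hfX (by linarith) hX0.le
  -- the half plane
  have hhalf : ∀ s : ℂ, |s.im| ≤ Z → σ ≤ s.re → X ^ (-(ε / 4)) ≤ ‖L f s‖ ∧ ‖L f s‖ ≤ X ^ (ε / 4) := by
    intro s hs hre
    obtain ⟨h1, h2⟩ := hA₁ ι S α u q κ S' α' w q' κ' qs μ L h hT f s.im Cx Qx Q' (hX1.trans hCx1) hQx1 hcQ'
      (hcondf _ hs) hcondQ (hXA₁.trans hXG) (fun ρ hρ1 hρ2 => hnz ρ hρ1.le (by
        have h3 : |ρ.im| ≤ |ρ.im - s.im| + |s.im| := by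
          calc |ρ.im| = |(ρ.im - s.im) + s.im| := by ring_nf
            _ ≤ _ := abs_add_le _ _
        linarith)) s hre rfl
    have e1 : (Cx * Qx * Q') ^ (ε / (4 * g₀)) ≤ X ^ (ε / 4) := by
      calc _ ≤ (X ^ g₀) ^ (ε / (4 * g₀)) := Real.rpow_le_rpow hG0.le hGX (by positivity)
        _ = X ^ (ε / 4) := by
          rw [← Real.rpow_mul hX0.le]
          congr 1
          field_simp
    refine ⟨le_trans ?_ h1, h2.trans e1⟩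
    rw [Real.rpow_neg hX0.le, Real.rpow_neg hG0.le]
    exact inv_anti₀ (by positivity) e1
  have hZZ : X ^ (c₁ / 2) ≤ Z := by
    rw [hZ]
    exact Real.rpow_le_rpow_of_exponent_le hX1 (by linarith)
  intro s hs
  refine ⟨fun hre => ?_, fun h34 hre1 hre2 => ?_⟩
  · obtain ⟨h1, h2⟩ := hhalf s (hs.trans hZZ) hre
    exact ⟨(Real.rpow_le_rpow_of_exponent_le hX1 (by linarith)).trans h1,
      h2.trans (Real.rpow_le_rpow_of_exponent_le hX1 (by linarith))⟩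
  · have h1 := hA₂ h34 ι S α u q κ S' α' w q' κ' qs μ L h hT f s.im Cx Qx Q' (X ^ (ε / 4)) (hX1.trans hCx1) hQx1
      hcQ' (hcondf _ (hs.trans hZZ)) hcondQ (hXA₂.trans hXG) (Real.one_le_rpow hX1 (by positivity)) (fun v hv => by
        refine (hhalf _ ?_ ?_).2
        · have e1 : ((σ : ℂ) + ((s.im + v : ℝ) : ℂ) * I).im = s.im + v := by simp
          rw [e1]
          refine (abs_add_le _ _).trans ?_
          linarith
        · have e1 : ((σ : ℂ) + ((s.im + v : ℝ) : ℂ) * I).re = σ := by simp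
          rw [e1]) s hre1 hre2 rfl
    refine h1.trans ?_
    have hθ0 : 0 ≤ (σ - s.re) / 2 := by linarith
    have hθ1 : (σ - s.re) / 2 ≤ 1 := by linarith
    have e1 : Cx ^ ((σ - s.re) / 2) ≤ 3 ^ N' * X ^ ((σ - s.re) / 2 + ε / 2) := by
      rw [hCxX, Real.mul_rpow (by positivity) (by positivity), ← Real.rpow_mul hX0.le]
      refine mul_le_mul ?_ ?_ (by positivity) (by positivity)
      · have h3 : (1 : ℝ) ≤ 3 ^ N' := one_le_pow₀ (by norm_num)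
        calc ((3 : ℝ) ^ N') ^ ((σ - s.re) / 2) ≤ ((3 : ℝ) ^ N') ^ (1 : ℝ) :=
              Real.rpow_le_rpow_of_exponent_le h3 hθ1
          _ = 3 ^ N' := Real.rpow_one _
      · refine Real.rpow_le_rpow_of_exponent_le hX1 ?_
        have h4 : c₁ * N' * ((σ - s.re) / 2) ≤ c₁ * N' := mul_le_of_le_one_right (by positivity) hθ1
        nlinarith
    have hA₂0 : 0 < A₂ := by linarith
    calc A₂ * X ^ (ε / 4) * Cx ^ ((σ - s.re) / 2)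
        ≤ A₂ * X ^ (ε / 4) * (3 ^ N' * X ^ ((σ - s.re) / 2 + ε / 2)) :=
          mul_le_mul_of_nonneg_left e1 (by positivity)
      _ = (A₂ * 3 ^ N') * (X ^ (ε / 4) * X ^ ((σ - s.re) / 2 + ε / 2)) := by ring
      _ ≤ X ^ (ε / 4) * (X ^ (ε / 4) * X ^ ((σ - s.re) / 2 + ε / 2)) :=
          mul_le_mul_of_nonneg_right hx4 (by positivity)
      _ = _ := by
          rw [← Real.rpow_add hX0, ← Real.rpow_add hX0]
          congr 1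
          ring

end Pool.Agent.U615.ZH
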