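import Pool.Agent.U615.ZH.Fin3

/-! Universal families. -/

set_option autoImplicit false

namespace Pool.Agent.U615.ZH

open Filter Topology Complex MeasureTheory Set NumberField IsDedekindDomain
open Pool.Agent.N846.DU (VX LV Nv logRS RS GLFamily Rep LV_nonneg one_le_cond S_LEFT S_DIAG)
open Pool.Agent.N846.LM (Twists cond_shift)
open Pool.Agent.N846.ZD (S_POW S_CONV S_BLOCK S_MOLL S_MB S_CVX)
open Pool.Agent.N846.LV (S_LVD)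
open Pool.Agent.N846.HU (S_DET S_PL)

theorem zexp_nonneg {σ : ℝ} (k : ℕ) (hk : 1 ≤ k) (hσ : 1 / 2 ≤ σ) (hσ1 : σ ≤ 1) : 0 ≤ zexp k σ := by
  have hk0 : (1 : ℝ) ≤ k := by exact_mod_cast hk
  have hd1 : (1 : ℝ) ≤ 2 - 2 * σ + k * (2 * σ - 1) := by nlinarith
  unfold zexp
  refine mul_nonneg (le_min ?_ ?_) (by linarith)
  · exact div_nonneg (by linarith) (by linarith)
  · exact div_nonneg (by linarith) (by linarith)

theorem zexp_le_one {σ : ℝ} (k : ℕ) (hk : 1 ≤ k) (hσ : 1 / 2 ≤ σ) (hσ1 : σ ≤ 1) : zexp k σ ≤ 1 := by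
  have hk0 : (1 : ℝ) ≤ k := by exact_mod_cast hk
  have hd0 : (0 : ℝ) < k + 2 - 2 * σ := by linarith
  unfold zexp
  refine (mul_le_mul_of_nonneg_right (min_le_left _ _) (by linarith)).trans ?_
  rw [div_mul_eq_mul_div, div_le_one hd0]
  nlinarith

/-- zeros in a universal family -/
theorem zd3_univ (hPow : S_POW) (hConv : S_CONV) (hMo : S_MOLL) (hMb : S_MB) (hBl : S_BLOCK) (hL : S_LEFT)
    (hDi : S_DIAG) (hLvd : S_LVD) (hDet : S_DET) (hPl : S_PL) (hCvx : S_CVX)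
    (K : Type) [Field K] [NumberField K] (n N n' N' N'' : ℕ) (hn : 1 ≤ n) {ε σ : ℝ} (hε : 0 < ε)
    (hσ : 1 / 2 ≤ σ) (hσ1 : σ ≤ 1) (B Q' : ℝ) (hB : 1 ≤ B) (hQ' : 1 ≤ Q') : ∃ A c : ℝ, 1 ≤ A ∧ 0 < c ∧
    ∀ (ι : Type) (S : ι → Finset (HeightOneSpectrum (𝓞 K)))
      (α : ι → HeightOneSpectrum (𝓞 K) → Fin n → ℂ) (u : ι → VX K → ℂ) (q : ι → ι → ℝ) (κ : ι → ι → Fin N → ℂ)
      (S' : Finset (HeightOneSpectrum (𝓞 K))) (α' : HeightOneSpectrum (𝓞 K) → Fin n' → ℂ) (w : VX K → ℂ) (q' : ℝ)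
      (κ' : Fin N'' → ℂ) (qs : ι → ℝ) (μ : ι → Fin N' → ℂ) (L : ι → ℂ → ℂ) (C : ι → ℝ),
      GLFamily n N S α u q κ → Twists n' N' N'' u S' α' w q' κ' qs μ L → q' * ∏ j, (1 + ‖κ' j‖) ≤ Q' →
      (∀ f, qs f * ∏ j, (1 + ‖μ f j‖) ≤ C f) → (∀ f, ∏ v ∈ S f, Nv v ≤ C f) →
      (∀ f g, q f g * ∏ j, (1 + ‖κ f g j‖) ≤ B * (C f * C g) ^ n) →
      ∀ X : ℝ, A ≤ X →
        {f | C f ≤ X ∧ ∃ ρ : ℂ, L f ρ = 0 ∧ σ ≤ ρ.re ∧ |ρ.im| ≤ X ^ c}.Finite ∧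
        ({f | C f ≤ X ∧ ∃ ρ : ℂ, L f ρ = 0 ∧ σ ≤ ρ.re ∧ |ρ.im| ≤ X ^ c}.ncard : ℝ) ≤
          X ^ (2 * n * zexp (4 * n) σ + ε) := by
  have hn1 : (1 : ℝ) ≤ n := by exact_mod_cast hn
  have hn0 : (0 : ℝ) ≤ n := by linarith
  have hN0 : (0 : ℝ) ≤ N := Nat.cast_nonneg N
  have hN'0 : (0 : ℝ) ≤ N' := Nat.cast_nonneg N'
  obtain ⟨N₁, hN₁⟩ : ∃ N₁ : ℕ, N₁ = N + 2 * n * N' := ⟨_, rfl⟩
  obtain ⟨m, hm⟩ : ∃ m : ℝ, m = ε / 3 := ⟨_, rfl⟩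
  have hm0 : 0 < m := by rw [hm]; positivity
  obtain ⟨c, hc⟩ : ∃ c : ℝ, c = m / (N₁ + 1) := ⟨_, rfl⟩
  have hc0 : 0 < c := by rw [hc]; positivity
  have hcm : c * (N₁ + 1) = m := by
    rw [hc]
    field_simp
  obtain ⟨ε₁, hε₁⟩ : ∃ ε₁ : ℝ, ε₁ = m / (1 + 2 * n + c * (N₁ + N')) := ⟨_, rfl⟩
  have hε₁0 : 0 < ε₁ := by rw [hε₁]; positivity
  have hεm : ε₁ * (1 + 2 * n + c * (N₁ + N')) = m := by
    rw [hε₁]
    field_simp
  obtain ⟨A, hA0, hA1⟩ := zd3_ing hPow hConv hMo hMb hBl hL hDi hLvd hDet hPl hCvx K n N n' N' N'' (4 * n) hn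
    (by omega) hε₁0
  have hd0 := zexp_nonneg (4 * n) (by omega) hσ hσ1
  have hd1 := zexp_le_one (4 * n) (by omega) hσ hσ1
  obtain ⟨d, hd⟩ : ∃ d : ℝ, d = zexp (4 * n) σ := ⟨_, rfl⟩
  rw [← hd] at hd0 hd1 ⊢
  have hB0 : 0 < B := by linarith
  have hQ'0 : 0 < Q' := by linarith
  obtain ⟨A₁, hA₁⟩ : ∃ A₁ : ℝ, A₁ = A * (3 ^ N' * (3 ^ N₁ * B) * Q') ^ ε₁ * (3 ^ N₁ * B) ^ d := ⟨_, rfl⟩
  have hA₁0 : 0 < A₁ := by rw [hA₁]; positivity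
  obtain ⟨X₀, hX₀⟩ : ∃ X₀ : ℝ, ∀ X, X₀ ≤ X → A₁ ≤ X ^ m := by
    have h1 : Tendsto (fun X : ℝ => X ^ m) atTop atTop := tendsto_rpow_atTop hm0
    exact (eventually_atTop.1 (h1.eventually_ge_atTop A₁))
  refine ⟨max 1 X₀, c, le_max_left _ _, hc0, ?_⟩
  intro ι S α u q κ S' α' w q' κ' qs μ L C h hT hcQ' hC1 hS1 hC2 X hX
  have hX1 : 1 ≤ X := (le_max_left _ _).trans hX
  have hX0 : 0 < X := by linarith
  have hXA : A₁ ≤ X ^ m := hX₀ X ((le_max_right _ _).trans hX)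
  have hZ1 : 1 ≤ X ^ c := Real.one_le_rpow hX1 hc0.le
  obtain ⟨T, hTdef⟩ : ∃ T : Set ι, T = {f | C f ≤ X ∧ ∃ ρ : ℂ, L f ρ = 0 ∧ σ ≤ ρ.re ∧ |ρ.im| ≤ X ^ c} := ⟨_, rfl⟩
  rw [← hTdef]
  have hq1 : ∀ f g, 1 ≤ q f g := by
    intro f g
    by_cases hfg : f = g
    · rw [hfg]
      exact (h.self g).one_le
    · exact (h.pair f g hfg).one_le
  have hch : ∀ f, ∃ ρ : ℂ, f ∈ T → C f ≤ X ∧ L f ρ = 0 ∧ σ ≤ ρ.re ∧ |ρ.im| ≤ X ^ c := by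
    intro f
    by_cases hf : f ∈ T
    · have hf' := hf
      rw [hTdef] at hf'
      obtain ⟨h1, ρ, hρ⟩ := hf'
      exact ⟨ρ, fun _ => ⟨h1, hρ⟩⟩
    · exact ⟨0, fun h' => absurd h' hf⟩
  choose ρ hρ using hch
  have hC1' : ∀ f, 1 ≤ C f := fun f => by
    have h1 := one_le_cond (κ := μ f) (hT.rs f).one_le 0
    simp only [add_zero] at h1
    exact h1.trans (hC1 f)
  have hcond1 : ∀ f ∈ T, qs f * ∏ j, (1 + ‖μ f j + (ρ f).im * I‖) ≤ (3 * X ^ c) ^ N' * X := by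
    intro f hf
    refine cond_shift (hT.rs f).one_le ?_ ((hC1 f).trans (hρ f hf).1)
    have h2 : ‖((ρ f).im : ℂ) * I‖ = |(ρ f).im| := by simp
    rw [h2]
    linarith [(hρ f hf).2.2.2]
  have hNN₁ : (3 * X ^ c) ^ N ≤ (3 * X ^ c) ^ N₁ := pow_le_pow_right₀ (by linarith) (by rw [hN₁]; omega)
  have hXX1 : 1 ≤ (X * X) ^ n := one_le_pow₀ (by nlinarith)
  have hcond2 : ∀ f ∈ T, ∀ g ∈ T, q f g * ∏ j, (1 + ‖κ f g j + ((ρ f).im - (ρ g).im) * I‖) ≤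
      (3 * X ^ c) ^ N₁ * (B * (X * X) ^ n) := by
    intro f hf g hg
    refine (cond_shift (P := B * (X * X) ^ n) (Z := 3 * X ^ c) (hq1 f g) ?_ ((hC2 f g).trans ?_)).trans
      (mul_le_mul_of_nonneg_right hNN₁ (by positivity))
    · have h2 : ‖(((ρ f).im : ℂ) - (ρ g).im) * I‖ ≤ |(ρ f).im| + |(ρ g).im| := by
        rw [norm_mul, Complex.norm_I, mul_one]
        refine (norm_sub_le _ _).trans ?_
        simp
      linarith [(hρ f hf).2.2.2, (hρ g hg).2.2.2]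
    · refine mul_le_mul_of_nonneg_left ?_ hB0.le
      refine pow_le_pow_left₀ ?_ ?_ n
      · nlinarith [hC1' f, hC1' g]
      · exact mul_le_mul (hρ f hf).1 (hρ g hg).1 (by linarith [hC1' g]) hX0.le
  have g1 : 1 ≤ (3 * X ^ c) ^ N' := one_le_pow₀ (by linarith)
  have g2 : 1 ≤ (3 * X ^ c) ^ N₁ * (B * (X * X) ^ n) := by
    have h1 : 1 ≤ (3 * X ^ c) ^ N₁ := one_le_pow₀ (by linarith)
    have h3 : 1 ≤ B * (X * X) ^ n := by nlinarith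
    nlinarith
  have g3 : X ≤ (3 * X ^ c) ^ N' * X := le_mul_of_one_le_left hX0.le g1
  have g4 : ((3 * X ^ c) ^ N' * X) ^ (((4 * n : ℕ) : ℝ) / 2) ≤ (3 * X ^ c) ^ N₁ * (B * (X * X) ^ n) := by
    have e0 : (((4 * n : ℕ) : ℝ) / 2) = ((2 * n : ℕ) : ℝ) := by
      push_cast
      ring
    rw [e0, Real.rpow_natCast, mul_pow, ← pow_mul, pow_mul X 2 n, sq]
    have h1 : (3 * X ^ c) ^ (N' * (2 * n)) ≤ (3 * X ^ c) ^ N₁ := by
      refine pow_le_pow_right₀ (by linarith) ?_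
      rw [hN₁]
      have : N' * (2 * n) = 2 * n * N' := by ring
      omega
    have h2 : (X * X) ^ n ≤ B * (X * X) ^ n := le_mul_of_one_le_left (by positivity) hB
    exact mul_le_mul h1 h2 (by positivity) (by positivity)
  obtain ⟨hfin, hmain⟩ := hA1 ι S α u q κ S' α' w q' κ' qs μ L h hT T ρ σ ((3 * X ^ c) ^ N' * X)
    ((3 * X ^ c) ^ N₁ * (B * (X * X) ^ n)) Q' hσ (hX1.trans g3) g2 hcQ' g4 (fun f hf => by
      refine (hS1 f).trans ((hρ f hf).1.trans (g3.trans ?_))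
      rw [mul_assoc]
      refine le_mul_of_one_le_right (by positivity) ?_
      nlinarith) (fun f hf => ⟨(hρ f hf).2.1, (hρ f hf).2.2.1⟩) hcond1 hcond2
  refine ⟨hfin, hmain.trans ?_⟩
  have eC : (3 * X ^ c) ^ N' * X = 3 ^ N' * X ^ (1 + c * N') := by
    rw [mul_pow, ← Real.rpow_natCast (X ^ c), ← Real.rpow_mul hX0.le, Real.rpow_add hX0, Real.rpow_one]
    ring
  have eQ : (3 * X ^ c) ^ N₁ * (B * (X * X) ^ n) = (3 ^ N₁ * B) * X ^ (2 * n + c * N₁) := by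
    have e1 : (X * X) ^ n = X ^ (2 * (n : ℝ)) := by
      rw [← sq, ← pow_mul, ← Real.rpow_natCast]
      push_cast
      rfl
    rw [mul_pow, e1, ← Real.rpow_natCast (X ^ c), ← Real.rpow_mul hX0.le, Real.rpow_add hX0]
    ring
  rw [eC, eQ, ← hd]
  have e1 : (3 ^ N' * X ^ (1 + c * N') * ((3 ^ N₁ * B) * X ^ (2 * n + c * N₁)) * Q') ^ ε₁ =
      (3 ^ N' * (3 ^ N₁ * B) * Q') ^ ε₁ * X ^ m := by
    have e2 : 3 ^ N' * X ^ (1 + c * N') * ((3 ^ N₁ * B) * X ^ (2 * n + c * N₁)) * Q' =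
        (3 ^ N' * (3 ^ N₁ * B) * Q') * X ^ (1 + 2 * n + c * (N₁ + N')) := by
      rw [show (1 + 2 * (n : ℝ) + c * (N₁ + N')) = (1 + c * N') + (2 * n + c * N₁) by ring,
        Real.rpow_add hX0 (1 + c * N') (2 * n + c * N₁)]
      ring
    rw [e2, Real.mul_rpow (by positivity) (by positivity), ← Real.rpow_mul hX0.le, mul_comm _ ε₁, hεm]
  have e4 : ((3 ^ N₁ * B) * X ^ (2 * n + c * N₁)) ^ d = (3 ^ N₁ * B) ^ d * X ^ ((2 * n + c * N₁) * d) := by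
    rw [Real.mul_rpow (by positivity) (by positivity), ← Real.rpow_mul hX0.le]
  rw [e1, e4]
  calc _ = A₁ * X ^ m * X ^ ((2 * n + c * N₁) * d) := by
        rw [hA₁]
        ring
    _ ≤ X ^ m * X ^ m * X ^ ((2 * n + c * N₁) * d) := by
        refine mul_le_mul_of_nonneg_right ?_ (by positivity)
        exact mul_le_mul_of_nonneg_right hXA (by positivity)
    _ ≤ _ := by
        rw [← Real.rpow_add hX0, ← Real.rpow_add hX0]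
        refine Real.rpow_le_rpow_of_exponent_le hX1 ?_
        have h1 : c * N₁ * d ≤ c * N₁ := mul_le_of_le_one_right (by positivity) hd1
        have h3 : c * (N₁ + 1) = c * N₁ + c := by ring
        have h4 : (2 * n + c * N₁) * d = 2 * n * d + c * N₁ * d := by ring
        rw [h4]
        have h6 : 3 * m = ε := by rw [hm]; ring
        linarith

/-- the exponent in a universal family is smaller than `n + 1` -/
theorem zexp_univ {n : ℕ} (hn : 1 ≤ n) {σ : ℝ} (hσ : (3 * n + 1) * (2 * n - 1) / (8 * n ^ 2 + n - 1) < σ)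
    (hσ1 : σ ≤ 1) : 2 * n * zexp (4 * n) σ < (n : ℝ) + 1 := by
  have hn1 : (1 : ℝ) ≤ n := by exact_mod_cast hn
  have hD : (0 : ℝ) < 8 * n ^ 2 + n - 1 := by nlinarith
  rw [div_lt_iff₀ hD] at hσ
  have hd0 : (0 : ℝ) < 4 * n + 2 - 2 * σ := by linarith
  have h1 : zexp (4 * n) σ ≤ 2 * (4 * n + 1) / (4 * n + 2 - 2 * σ) * (1 - σ) := by
    unfold zexp
    push_cast
    exact mul_le_mul_of_nonneg_right (min_le_left _ _) (by linarith)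
  have h2 : 2 * n * (2 * (4 * n + 1) / (4 * n + 2 - 2 * σ) * (1 - σ)) < (n : ℝ) + 1 := by
    rw [div_mul_eq_mul_div, mul_div_assoc', div_lt_iff₀ hd0]
    nlinarith
  have h3 : 2 * n * zexp (4 * n) σ ≤ 2 * n * (2 * (4 * n + 1) / (4 * n + 2 - 2 * σ) * (1 - σ)) :=
    mul_le_mul_of_nonneg_left h1 (by positivity)
  linarith

end Pool.Agent.U615.ZH
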